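import Pool.Agent.helper28.Hartogs.Spectrum

open Filter Topology Module
open scoped InnerProductSpace

namespace Pool.Agent.helper28.Hartogs

section cc

variable {H K : Type*} [NormedAddCommGroup H] [InnerProductSpace ℂ H]
  [NormedAddCommGroup K] [InnerProductSpace ℂ K]

/-- bounded sequences that tend weakly to zero -/
def WeaklyNull (x : ℕ → H) : Prop :=
  (∃ C : ℝ, ∀ n, ‖x n‖ ≤ C) ∧ ∀ y : H, Tendsto (fun n => ⟪y, x n⟫_ℂ) atTop (𝓝 0)

/-- completely continuous maps -/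
def CC (T : H →L[ℂ] K) : Prop := ∀ x : ℕ → H, WeaklyNull x → Tendsto (fun n => ‖T (x n)‖) atTop (𝓝 0)

lemma WeaklyNull.map [CompleteSpace H] [CompleteSpace K] {x : ℕ → H} (hx : WeaklyNull x)
    (T : H →L[ℂ] K) : WeaklyNull (fun n => T (x n)) := by
  obtain ⟨⟨C, hC⟩, h⟩ := hx
  refine ⟨⟨‖T‖ * C, fun n => (T.le_opNorm _).trans (by gcongr; exact hC n)⟩, fun y => ?_⟩
  have := h (ContinuousLinearMap.adjoint T y)
  simpa [ContinuousLinearMap.adjoint_inner_left] using this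

lemma WeaklyNull.comp {x : ℕ → H} (hx : WeaklyNull x) {φ : ℕ → ℕ} (hφ : StrictMono φ) :
    WeaklyNull (x ∘ φ) :=
  ⟨⟨hx.1.choose, fun n => hx.1.choose_spec (φ n)⟩, fun y => (hx.2 y).comp hφ.tendsto_atTop⟩

/-- weak sequential compactness of balls -/
lemma exists_weak_limit [CompleteSpace H] [TopologicalSpace.SeparableSpace H] {x : ℕ → H} {C : ℝ}
    (hx : ∀ n, ‖x n‖ ≤ C) :
    ∃ (a : H) (φ : ℕ → ℕ), StrictMono φ ∧ ‖a‖ ≤ C ∧ WeaklyNull (fun n => x (φ n) - a) := by
  have hsc := WeakDual.isSeqCompact_closedBall ℂ H (0 : StrongDual ℂ H) C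
  let F : ℕ → WeakDual ℂ H := fun n => (StrongDual.toWeakDual (InnerProductSpace.toDual ℂ H (x n)))
  have hF : ∀ n, F n ∈ WeakDual.toStrongDual ⁻¹' Metric.closedBall (0 : StrongDual ℂ H) C := by
    intro n
    rw [Set.mem_preimage, mem_closedBall_zero_iff]
    have : (WeakDual.toStrongDual (F n)) = InnerProductSpace.toDual ℂ H (x n) := rfl
    rw [this, LinearIsometryEquiv.norm_map]
    exact hx n
  obtain ⟨L, hL, φ, hφ, hlim⟩ := hsc hF
  refine ⟨(InnerProductSpace.toDual ℂ H).symm (WeakDual.toStrongDual L), φ, hφ, ?_, ?_, ?_⟩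
  · rw [LinearIsometryEquiv.norm_map]
    rw [Set.mem_preimage, mem_closedBall_zero_iff] at hL
    exact hL
  · refine ⟨C + ‖(InnerProductSpace.toDual ℂ H).symm (WeakDual.toStrongDual L)‖, fun n => ?_⟩
    exact (norm_sub_le _ _).trans (by gcongr; exact hx _)
  · intro y
    have h1 : Tendsto (fun n => (F (φ n)) y) atTop (𝓝 (L y)) :=
      ((WeakDual.eval_continuous y).tendsto L).comp hlim
    have h2 : ∀ n, (F (φ n)) y = ⟪x (φ n), y⟫_ℂ := fun n => rfl
    have h3 : L y = ⟪(InnerProductSpace.toDual ℂ H).symm (WeakDual.toStrongDual L), y⟫_ℂ := by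
      rw [InnerProductSpace.toDual_symm_apply]; rfl
    have h4 : Tendsto (fun n => ⟪x (φ n) - (InnerProductSpace.toDual ℂ H).symm
        (WeakDual.toStrongDual L), y⟫_ℂ) atTop (𝓝 0) := by
      simp only [inner_sub_left]
      rw [← h3]
      simp only [← h2]
      have := h1.sub_const (L y)
      rwa [sub_self] at this
    have h5 := (Complex.continuous_conj.tendsto (0 : ℂ)).comp h4
    rw [map_zero] at h5
    refine h5.congr fun n => ?_
    rw [Function.comp_apply]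
    exact inner_conj_symm _ _

lemma CC.isCompactOperator [CompleteSpace H] [TopologicalSpace.SeparableSpace H]
    {T : H →L[ℂ] K} (hT : CC T) : IsCompactOperator T := by
  rw [isCompactOperator_iff_exists_mem_nhds_image_subset_compact]
  refine ⟨Metric.closedBall 0 1, Metric.closedBall_mem_nhds _ one_pos,
    T '' Metric.closedBall 0 1, ?_, subset_rfl⟩
  apply IsSeqCompact.isCompact
  intro y hy
  choose x hx hxy using hy
  have hx' : ∀ n, ‖x n‖ ≤ 1 := fun n => by simpa using hx n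
  obtain ⟨a, φ, hφ, ha, hw⟩ := exists_weak_limit hx'
  refine ⟨T a, ⟨a, by simpa using ha, rfl⟩, φ, hφ, ?_⟩
  rw [tendsto_iff_norm_sub_tendsto_zero]
  have := hT _ hw
  refine this.congr fun n => ?_
  rw [Function.comp_apply, ← hxy, map_sub]

end cc

section eig

variable {H : Type*} [NormedAddCommGroup H] [InnerProductSpace ℂ H]

lemma finite_large_eigenvalues {T : H →L[ℂ] H} (hT : IsCompactOperator T)
    (hs : (T : H →ₗ[ℂ] H).IsSymmetric) {δ : ℝ} (hδ : 0 < δ) :
    {μ : ℂ | End.HasEigenvalue (T : End ℂ H) μ ∧ δ ≤ ‖μ‖}.Finite := by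
  by_contra hinf
  have hinf' : {μ : ℂ | End.HasEigenvalue (T : End ℂ H) μ ∧ δ ≤ ‖μ‖}.Infinite := hinf
  let ν := hinf'.natEmbedding
  have h1 : ∀ n, ∃ v : H, T v = (ν n : ℂ) • v ∧ ‖v‖ = 1 := by
    intro n
    obtain ⟨v, hv⟩ := (ν n).2.1.exists_hasEigenvector
    refine ⟨(‖v‖⁻¹ : ℂ) • v, ?_, ?_⟩
    · rw [map_smul]
      have : T v = (ν n : ℂ) • v := hv.apply_eq_smul
      rw [this, smul_comm]
    · rw [norm_smul]
      have : ‖v‖ ≠ 0 := by simpa using hv.2
      simp [this]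
  choose v hv hv1 using h1
  have hreal : ∀ n, (starRingEnd ℂ) (ν n : ℂ) = (ν n : ℂ) := fun n =>
    hs.conj_eigenvalue_eq_self (ν n).2.1
  have horth : ∀ m n, m ≠ n → ⟪v m, v n⟫_ℂ = 0 := by
    intro m n hmn
    have h := hs (v m) (v n)
    have e1 : (T : H →ₗ[ℂ] H) (v m) = (ν m : ℂ) • v m := hv m
    have e2 : (T : H →ₗ[ℂ] H) (v n) = (ν n : ℂ) • v n := hv n
    rw [e1, e2, inner_smul_left, inner_smul_right, hreal] at h
    have hne : (ν m : ℂ) ≠ ν n := by
      intro hh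
      exact hmn (ν.injective (Subtype.ext hh))
    have : ((ν m : ℂ) - ν n) * ⟪v m, v n⟫_ℂ = 0 := by rw [sub_mul, h, sub_self]
    rcases mul_eq_zero.mp this with h' | h'
    · exact absurd (sub_eq_zero.mp h') hne
    · exact h'
  obtain ⟨Kc, hK, hK'⟩ := hT.image_closedBall_subset_compact 1
  obtain ⟨y, -, ψ, hψ, hlim⟩ := hK.tendsto_subseq (fun n => hK' ⟨v n, by simp [hv1], rfl⟩)
  have hc := hlim.cauchySeq
  rw [Metric.cauchySeq_iff'] at hc
  obtain ⟨N, hN⟩ := hc δ hδ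
  have h2 := hN (N + 1) (by omega)
  have hne : ψ (N + 1) ≠ ψ N := by
    intro h; have := hψ.injective h; omega
  simp only [dist_eq_norm, Function.comp_apply, ContinuousLinearMap.coe_coe, hv] at h2
  have h3 : ‖(ν (ψ (N + 1)) : ℂ) • v (ψ (N + 1)) - (ν (ψ N) : ℂ) • v (ψ N)‖ ^ 2 =
      ‖(ν (ψ (N + 1)) : ℂ)‖ ^ 2 + ‖(ν (ψ N) : ℂ)‖ ^ 2 := by
    rw [@norm_sub_sq ℂ]
    rw [inner_smul_left, inner_smul_right, horth _ _ hne, norm_smul, norm_smul, hv1, hv1]
    simp
  have h4 : δ ^ 2 ≤ ‖(ν (ψ (N + 1)) : ℂ)‖ ^ 2 := by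
    have := (ν (ψ (N + 1))).2.2
    gcongr
  have h5 : ‖(ν (ψ (N + 1)) : ℂ) • v (ψ (N + 1)) - (ν (ψ N) : ℂ) • v (ψ N)‖ ^ 2 < δ ^ 2 := by
    gcongr
  have h6 := sq_nonneg ‖(ν (ψ N) : ℂ)‖
  linarith

/-- An operator whose inverse shifted by one is a compact symmetric operator has discrete
spectrum. -/
lemma discrete_of_compact [CompleteSpace H] {G : Submodule ℂ (H × H)} {T : H →L[ℂ] H}
    (hT : IsCompactOperator T) (hs : (T : H →ₗ[ℂ] H).IsSymmetric)
    (hG : ∀ x z : H, (x, z) ∈ G ↔ x = T (z + x)) : HasDiscreteSpectrum G := by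
  have eadd : ∀ (lam : ℂ) (x : H), lam • x + x = (lam + 1) • x := fun lam x => by
    rw [add_smul, one_smul]
  -- eigenvalues
  have key : ∀ lam ∈ spectrumOf G, lam + 1 ≠ 0 ∧
      End.HasEigenvalue (T : End ℂ H) (lam + 1)⁻¹ := by
    intro lam hlam
    have h1 : lam + 1 ≠ 0 := by
      intro h0
      apply hlam
      refine ⟨T, fun x y => ?_⟩
      rw [hG, add_assoc, eadd, h0, zero_smul, add_zero]
    refine ⟨h1, ?_⟩
    rcases hT.hasEigenvalue_or_mem_resolventSet (inv_ne_zero h1) with h2 | h2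
    · exact h2
    exfalso
    apply hlam
    rw [spectrum.mem_resolventSet_iff] at h2
    obtain ⟨U, hU⟩ := h2
    refine ⟨(lam + 1)⁻¹ • ((↑U⁻¹ : H →L[ℂ] H).comp T), fun x y => ?_⟩
    rw [hG, add_assoc, eadd, map_add, map_smul]
    have hUx : (U : H →L[ℂ] H) x = (lam + 1)⁻¹ • x - T x := by
      rw [hU]; simp [Algebra.algebraMap_eq_smul_one]
    constructor
    · intro hx
      have h3 : (U : H →L[ℂ] H) x = (lam + 1)⁻¹ • T y := by
        rw [hUx]
        nth_rewrite 1 [hx]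
        rw [smul_add, smul_smul, inv_mul_cancel₀ h1, one_smul, add_sub_cancel_right]
      have h4 : (↑U⁻¹ : H →L[ℂ] H) ((U : H →L[ℂ] H) x) = x := by
        rw [← ContinuousLinearMap.mul_apply, Units.inv_mul]; rfl
      rw [← h4, h3, map_smul]
      rfl
    · intro hx
      have h3 : (U : H →L[ℂ] H) x = (lam + 1)⁻¹ • T y := by
        rw [hx]
        simp only [ContinuousLinearMap.smul_apply, ContinuousLinearMap.comp_apply, map_smul]
        rw [← ContinuousLinearMap.mul_apply (U : H →L[ℂ] H), Units.mul_inv]; rfl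
      rw [hUx] at h3
      have h5 : x - (lam + 1) • T x = T y := by
        have := congrArg (fun w => (lam + 1) • w) h3
        simp only [smul_sub, smul_smul, mul_inv_cancel₀ h1, one_smul] at this
        exact this
      rw [← h5]; abel
  have heig : ∀ lam : ℂ, lam + 1 ≠ 0 → ∀ x : H, (x, lam • x) ∈ G ↔ T x = (lam + 1)⁻¹ • x := by
    intro lam h1 x
    rw [hG, eadd, map_smul]
    constructor
    · intro h
      conv_rhs => rw [h]
      rw [smul_smul, inv_mul_cancel₀ h1, one_smul]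
    · intro h
      rw [h, smul_smul, mul_inv_cancel₀ h1, one_smul]
  intro lam hlam
  obtain ⟨h1, h2⟩ := key lam hlam
  refine ⟨?_, ?_, ?_⟩
  · -- isolated
    set δ : ℝ := (‖lam‖ + 2)⁻¹ with hδ
    have hδ0 : 0 < δ := by positivity
    have hfin := finite_large_eigenvalues hT hs hδ0
    have hfin2 : {mu : ℂ | mu ∈ spectrumOf G ∧ ‖mu - lam‖ < 1}.Finite := by
      refine Set.Finite.of_finite_image (f := fun mu => (mu + 1)⁻¹) (hfin.subset ?_) ?_
      · rintro _ ⟨mu, ⟨hmu, hmu1⟩, rfl⟩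
        obtain ⟨h3, h4⟩ := key mu hmu
        refine ⟨h4, ?_⟩
        rw [norm_inv, hδ]
        have h5 : ‖mu + 1‖ ≤ ‖lam‖ + 2 := by
          calc ‖mu + 1‖ = ‖(mu - lam) + lam + 1‖ := by congr 1; ring
            _ ≤ ‖mu - lam‖ + ‖lam‖ + ‖(1 : ℂ)‖ := norm_add₃_le
            _ ≤ 1 + ‖lam‖ + 1 := by rw [norm_one]; gcongr
            _ = ‖lam‖ + 2 := by ring
        have h6 : 0 < ‖mu + 1‖ := norm_pos_iff.mpr h3
        gcongr
      · intro a _ b _ hab
        have : a + 1 = b + 1 := inv_injective hab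
        exact add_right_cancel this
    have hfin3 : ({mu : ℂ | mu ∈ spectrumOf G ∧ ‖mu - lam‖ < 1} \ {lam}).Finite :=
      hfin2.subset Set.sdiff_subset
    have hopen : IsOpen (({mu : ℂ | mu ∈ spectrumOf G ∧ ‖mu - lam‖ < 1} \ {lam})ᶜ) :=
      hfin3.isClosed.isOpen_compl
    obtain ⟨ε, hε, hball⟩ := Metric.isOpen_iff.mp hopen lam (by simp)
    refine ⟨min ε 1, by positivity, fun mu hmu hlt => ?_⟩
    by_contra hne
    have hlt1 : ‖mu - lam‖ < ε := lt_of_lt_of_le hlt (min_le_left _ _)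
    have hlt2 : ‖mu - lam‖ < 1 := lt_of_lt_of_le hlt (min_le_right _ _)
    have := hball (by rw [Metric.mem_ball, dist_eq_norm]; exact hlt1 : mu ∈ Metric.ball lam ε)
    exact this ⟨⟨hmu, hlt2⟩, hne⟩
  · obtain ⟨v, hv⟩ := h2.exists_hasEigenvector
    rw [Submodule.ne_bot_iff]
    refine ⟨v, ?_, hv.2⟩
    change (v, lam • v) ∈ G
    rw [heig lam h1]
    exact hv.apply_eq_smul
  · have h3 : eigenspaceOf G lam = End.eigenspace (T : End ℂ H) (lam + 1)⁻¹ := by
      ext x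
      rw [End.mem_eigenspace_iff]
      exact heig lam h1 x
    rw [h3]
    exact ContinuousLinearMap.finite_dimensional_eigenspace hT _ (inv_ne_zero h1)

end eig

end Pool.Agent.helper28.Hartogs
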