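import Pool.Agent.helper28.Hartogs.Defs

open MeasureTheory Module Set

namespace Pool.Agent.helper28.Hartogs

/-- the standard real basis as a basis -/
noncomputable def bas : Basis (Fin 4) ℝ (ℂ × ℂ) :=
  (Complex.basisOneI.prod Complex.basisOneI).reindex finSumFinEquiv

lemma bas_apply (k : Fin 4) : bas k = e k := by
  rw [bas, Basis.reindex_apply]
  fin_cases k
  · have : (finSumFinEquiv (m := 2) (n := 2)).symm 0 = Sum.inl 0 := by decide
    simp [this, e]
  · have : (finSumFinEquiv (m := 2) (n := 2)).symm 1 = Sum.inl 1 := by decide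
    simp [this, e]
  · have : (finSumFinEquiv (m := 2) (n := 2)).symm 2 = Sum.inr 0 := by decide
    simp [this, e]
  · have : (finSumFinEquiv (m := 2) (n := 2)).symm 3 = Sum.inr 1 := by decide
    simp [this, e]

lemma bas_coe : (bas : Fin 4 → ℂ × ℂ) = e := funext bas_apply

/-- a multilinear map in terms of its values on basis vectors -/
lemma multilinear_expand {q : ℕ} (f : MultilinearMap ℝ (fun _ : Fin q => ℂ × ℂ) ℂ)
    (v : Fin q → ℂ × ℂ) :
    f v = ∑ r : Fin q → Fin 4, (∏ i, bas.repr (v i) (r i)) • f (fun i => e (r i)) := by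
  have h1 : v = fun i => ∑ k, bas.repr (v i) k • bas k := by
    funext i; rw [bas.sum_repr]
  conv_lhs => rw [h1]
  rw [MultilinearMap.map_sum]
  refine Finset.sum_congr rfl fun r _ => ?_
  rw [MultilinearMap.map_smul_univ]
  simp only [bas_apply]

lemma multilinear_continuous {q : ℕ} (f : MultilinearMap ℝ (fun _ : Fin q => ℂ × ℂ) ℂ) :
    Continuous f := by
  have : (f : (Fin q → ℂ × ℂ) → ℂ) = fun v =>
      ∑ r : Fin q → Fin 4, (∏ i, bas.repr (v i) (r i)) • f (fun i => e (r i)) :=
    funext fun v => multilinear_expand f v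
  rw [this]
  refine continuous_finsetSum _ fun r _ => ?_
  have hp : Continuous fun v : Fin q → ℂ × ℂ => ∏ i, bas.repr (v i) (r i) := by
    refine continuous_finsetProd _ fun i _ => ?_
    have h : Continuous (bas.coord (r i)) :=
      LinearMap.continuous_of_finiteDimensional (bas.coord (r i))
    exact h.comp (continuous_apply i)
  exact hp.smul continuous_const

/-- alternating maps from their values on increasing basis tuples -/
noncomputable def altL (q : ℕ) : (Idx q → ℂ) ≃ₗ[ℝ] ((ℂ × ℂ) [⋀^Fin q]→ₗ[ℝ] ℂ) :=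
  (((bas.exteriorPower q).reindex Set.powersetCard.ofFinEmbEquiv.symm).constr ℝ).trans
    exteriorPower.alternatingMapLinearEquiv.symm

lemma altL_apply {q : ℕ} (u : Idx q → ℂ) (I : Idx q) : altL q u (fun i => e (I i)) = u I := by
  rw [altL, LinearEquiv.trans_apply, exteriorPower.alternatingMapLinearEquiv_symm_apply]
  have h1 : (exteriorPower.ιMulti ℝ q) (fun i => e (I i)) =
      ((bas.exteriorPower q).reindex Set.powersetCard.ofFinEmbEquiv.symm) I := by
    rw [Basis.reindex_apply, Equiv.symm_symm, exteriorPower.basis_apply]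
    rw [exteriorPower.ιMulti_family, Equiv.symm_apply_apply, bas_coe]
    rfl
  rw [LinearMap.compAlternatingMap_apply, h1, Basis.constr_basis]

lemma alternating_ext {q : ℕ} {f g : (ℂ × ℂ) [⋀^Fin q]→ₗ[ℝ] ℂ}
    (h : ∀ I : Idx q, f (fun i => e (I i)) = g (fun i => e (I i))) : f = g := by
  obtain ⟨u, rfl⟩ := (altL q).surjective f
  obtain ⟨v, rfl⟩ := (altL q).surjective g
  congr 1
  funext I
  rw [← altL_apply u, ← altL_apply v, h]

/-- the continuous alternating map with given coefficients, as a linear map -/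
noncomputable def altCL (q : ℕ) : Form q →ₗ[ℝ] ((ℂ × ℂ) [⋀^Fin q]→L[ℝ] ℂ) where
  toFun u := { altL q (WithLp.ofLp u) with
    cont := multilinear_continuous (altL q (WithLp.ofLp u)).toMultilinearMap }
  map_add' u v := by
    ext w
    change altL q (WithLp.ofLp (u + v)) w = altL q (WithLp.ofLp u) w + altL q (WithLp.ofLp v) w
    rw [WithLp.ofLp_add, map_add]; rfl
  map_smul' c u := by
    ext w
    change altL q (WithLp.ofLp (c • u)) w = c • altL q (WithLp.ofLp u) w
    rw [WithLp.ofLp_smul, map_smul]; rfl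

/-- the continuous alternating map with given coefficients -/
noncomputable def alt (q : ℕ) : Form q →L[ℝ] ((ℂ × ℂ) [⋀^Fin q]→L[ℝ] ℂ) :=
  LinearMap.toContinuousLinearMap (altCL q)

lemma alt_apply {q : ℕ} (u : Form q) (I : Idx q) : alt q u (fun i => e (I i)) = u I :=
  altL_apply (WithLp.ofLp u) I

lemma calt_ext {q : ℕ} {f g : (ℂ × ℂ) [⋀^Fin q]→L[ℝ] ℂ}
    (h : ∀ I : Idx q, f (fun i => e (I i)) = g (fun i => e (I i))) : f = g := by
  have : f.toAlternatingMap = g.toAlternatingMap := alternating_ext h
  exact ContinuousAlternatingMap.toAlternatingMap_injective this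

lemma alt_smul {q : ℕ} (c : ℂ) (u : Form q) (w : Fin q → ℂ × ℂ) :
    alt q (c • u) w = c * alt q u w := by
  have : alt q (c • u) = c • alt q u := by
    apply calt_ext
    intro I
    rw [alt_apply, ContinuousAlternatingMap.smul_apply, alt_apply]
    rfl
  rw [this]; rfl

/-- the exterior derivative in coordinates is Mathlib's exterior derivative -/
lemma alt_extD {q : ℕ} {U : ℂ × ℂ → Form q} {x : ℂ × ℂ} (hU : DifferentiableAt ℝ U x) :
    alt (q + 1) (extD U x) = extDeriv (fun y => alt q (U y)) x := by
  apply calt_ext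
  intro J
  have hd : DifferentiableAt ℝ (fun y => alt q (U y)) x :=
    (alt q).differentiableAt.comp x hU
  rw [alt_apply, extDeriv_apply hd]
  change ∑ j : Fin (q + 1), (-1) ^ (j : ℕ) * fderiv ℝ (fun y => U y (face J j)) x (e (J j)) = _
  refine Finset.sum_congr rfl fun j _ => ?_
  have h1 : (fun y => (alt q (U y)) (j.removeNth fun i => e (J i))) = fun y => U y (face J j) := by
    funext y
    exact alt_apply (U y) (face J j)
  rw [h1]
  rw [zsmul_eq_mul]
  push_cast
  rfl

end Pool.Agent.helper28.Hartogs
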