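import Pool.Agent.helper28.Hartogs.Mollify

open MeasureTheory Set ContDiff Filter Topology
open scoped InnerProductSpace ENNReal NNReal Convolution

namespace Pool.Agent.helper28.Hartogs

/-- extension by zero -/
noncomputable def ext0 {q : ℕ} (u : L2 q) : Lp (Form q) 2 (volume : Measure (ℂ × ℂ)) :=
  MemLp.toLp (hartogs.indicator u)
    ((memLp_indicator_iff_restrict measurableSet_hartogs).mpr (Lp.memLp u))

lemma ext0_coe {q : ℕ} (u : L2 q) : ext0 u =ᵐ[volume] hartogs.indicator u := MemLp.coeFn_toLp _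

lemma ext0_volT {q : ℕ} (u : L2 q) : ∀ᵐ x ∂volT, ext0 u x = u x := by
  filter_upwards [ae_restrict_of_ae (s := hartogs) (ext0_coe u),
    ae_restrict_mem (μ := volume) measurableSet_hartogs] with x h1 h2
  rw [h1, indicator_of_mem h2]

lemma ext0_locallyIntegrable {q : ℕ} (u : L2 q) : LocallyIntegrable (ext0 u) volume :=
  (Lp.memLp (ext0 u)).locallyIntegrable one_le_two

lemma integral_ext0_apply {q : ℕ} (u : L2 q) {ψ : ℂ × ℂ → ℝ} (h1 : Continuous ψ)
    (h2 : HasCompactSupport ψ) (I : Idx q) :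
    (∫ y, ψ y • ext0 u y) I = ∫ y, (ψ y : ℂ) * u y I ∂volT := by
  have hint : Integrable (fun y => ψ y • ext0 u y) volume :=
    (ext0_locallyIntegrable u).integrable_smul_left_of_hasCompactSupport h1 h2
  have e1 := ((EuclideanSpace.proj I : Form q →L[ℂ] ℂ).integral_comp_comm hint).symm
  change (EuclideanSpace.proj I : Form q →L[ℂ] ℂ) (∫ y, ψ y • ext0 u y) =
    ∫ y in hartogs, (ψ y : ℂ) * u y I
  rw [e1, ← integral_indicator measurableSet_hartogs]
  refine integral_congr_ae ?_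
  filter_upwards [ext0_coe u] with y hy
  rw [hy]
  by_cases hyT : y ∈ hartogs
  · rw [indicator_of_mem hyT, indicator_of_mem hyT]
    rfl
  · rw [indicator_of_notMem hyT, indicator_of_notMem hyT]
    simp

lemma moll_apply' {F : Type} [NormedAddCommGroup F] [NormedSpace ℝ F] [CompleteSpace F]
    [MeasurableSpace F] [BorelSpace F] [SecondCountableTopology F]
    (b : ContDiffBump (0 : ℂ × ℂ)) (g : ℂ × ℂ → F) (x : ℂ × ℂ) :
    moll b g x = ∫ y, b.normed volume (x - y) • g y := by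
  rw [moll_apply, ← integral_sub_left_eq_self (fun y => b.normed volume (x - y) • g y) volume x]
  simp

/-- mollification commutes with the weak exterior derivative, away from the boundary -/
lemma extD_moll {q : ℕ} {u : L2 q} {f : L2 (q + 1)} (h : (u, f) ∈ weakD q)
    (b : ContDiffBump (0 : ℂ × ℂ)) {x : ℂ × ℂ} (hx : Metric.closedBall x b.rOut ⊆ hartogs) :
    extD (moll b (ext0 u)) x = moll b (ext0 f) x := by
  set ρ := b.normed (volume : Measure (ℂ × ℂ)) with hρ
  have hρs : ContDiff ℝ ∞ ρ := b.contDiff_normed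
  set φ : ℂ × ℂ → ℝ := fun y => ρ (x - y) with hφ
  have hφs : ContDiff ℝ ∞ φ := hρs.comp (by fun_prop)
  have hφt : tsupport φ ⊆ Metric.closedBall x b.rOut := by
    refine closure_minimal ?_ Metric.isClosed_closedBall
    intro y hy
    have h1 : x - y ∈ tsupport ρ := subset_tsupport ρ (show ρ (x - y) ≠ 0 from hy)
    rw [hρ, b.tsupport_normed_eq, mem_closedBall_zero_iff] at h1
    rw [mem_closedBall_iff_norm, ← norm_neg, neg_sub]
    exact h1
  have hφc : HasCompactSupport φ :=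
    (isCompact_closedBall x b.rOut).of_isClosed_subset (isClosed_tsupport φ) hφt
  have hφd : ∀ y v, fderiv ℝ φ y v = - fderiv ℝ ρ (x - y) v := by
    intro y v
    have h1 : HasFDerivAt ρ (fderiv ℝ ρ (x - y)) (x - y) :=
      (hρs.differentiable (by simp) _).hasFDerivAt
    have h2 : HasFDerivAt (fun y : ℂ × ℂ => x - y) (-ContinuousLinearMap.id ℝ (ℂ × ℂ)) y :=
      (hasFDerivAt_id y).const_sub x
    have h3 : HasFDerivAt φ _ y := h1.comp y h2
    rw [h3.fderiv]
    simp
  have hd : ∀ v, Continuous fun y => fderiv ℝ φ y v := fun v =>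
    ((hφs.fderiv_right (m := ∞) (by simp)).clm_apply contDiff_const).continuous
  have hdc : ∀ v, HasCompactSupport fun y => fderiv ℝ φ y v := fun v => hφc.fderiv_apply ℝ v
  ext J
  have hR : moll b (ext0 f) x J = ∫ y, (φ y : ℂ) * f y J ∂volT := by
    rw [moll_apply']
    exact integral_ext0_apply f hφs.continuous hφc J
  have hL : ∀ j : Fin (q + 1), fderiv ℝ (fun y => moll b (ext0 u) y (face J j)) x (e (J j)) =
      -∫ y, (fderiv ℝ φ y (e (J j)) : ℂ) * u y (face J j) ∂volT := by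
    intro j
    have hm : DifferentiableAt ℝ (moll b (ext0 u)) x :=
      (contDiff_moll b (ext0_locallyIntegrable u)).differentiable (by simp) x
    have h1 : HasFDerivAt (fun y => moll b (ext0 u) y (face J j))
        (((EuclideanSpace.proj (face J j) : Form q →L[ℂ] ℂ).restrictScalars ℝ).comp
          (fderiv ℝ (moll b (ext0 u)) x)) x :=
      ((EuclideanSpace.proj (face J j) : Form q →L[ℂ] ℂ).restrictScalars ℝ).hasFDerivAt.comp x
        hm.hasFDerivAt
    rw [h1.fderiv, ContinuousLinearMap.comp_apply,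
      fderiv_moll b (ext0_locallyIntegrable u) x (e (J j))]
    have h2 : ∫ y, fderiv ℝ (b.normed volume) (x - y) (e (J j)) • ext0 u y =
        ∫ y, (-fderiv ℝ φ y (e (J j))) • ext0 u y := by
      refine integral_congr_ae (Eventually.of_forall fun y => ?_)
      simp only [hφd, neg_neg]
      rfl
    rw [h2]
    change (∫ y, (-fderiv ℝ φ y (e (J j))) • ext0 u y) (face J j) = _
    rw [integral_ext0_apply u (ψ := fun y => -fderiv ℝ φ y (e (J j))) (hd _).neg
      (hdc (e (J j))).neg (face J j), ← integral_neg]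
    refine integral_congr_ae (Eventually.of_forall fun y => ?_)
    simp only
    push_cast
    ring
  rw [hR, h J φ hφs hφc (hφt.trans hx), integral_sum_pair hφs hφc]
  change ∑ j : Fin (q + 1), (-1) ^ (j : ℕ) *
    fderiv ℝ (fun y => moll b (ext0 u) y (face J j)) x (e (J j)) = _
  rw [← Finset.sum_neg_distrib]
  refine Finset.sum_congr rfl fun j _ => ?_
  rw [hL j]
  ring

/-- a form on the Hartogs triangle close to a mollification -/
lemma exists_diff {q : ℕ} (u : L2 q) {U : ℂ × ℂ → Form q} (hU : Continuous U) {η : ℝ}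
    (hη : 0 ≤ η) (h : ∫⁻ x, ‖U x - ext0 u x‖ₑ ^ 2 ≤ ENNReal.ofReal η ^ 2) :
    ∃ w : L2 q, ‖w‖ ≤ η ∧ ∀ᵐ x ∂volT, u x = w x + U x := by
  have h1 : ∫⁻ x, ‖u x - U x‖ₑ ^ 2 ∂volT ≤ ENNReal.ofReal η ^ 2 := by
    refine le_trans (le_of_eq ?_) ((lintegral_mono' (Measure.restrict_le_self (s := hartogs))
      le_rfl).trans h)
    refine lintegral_congr_ae ?_
    filter_upwards [ext0_volT u] with x hx
    rw [hx, ← enorm_neg, neg_sub]
  have hm : AEStronglyMeasurable (fun x => u x - U x) volT :=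
    (Lp.aestronglyMeasurable u).sub hU.aestronglyMeasurable
  have hmem : MemLp (fun x => u x - U x) 2 volT := memLp_two_of_lintegral hm
    (h1.trans_lt (ENNReal.pow_lt_top ENNReal.ofReal_lt_top))
  refine ⟨hmem.toLp _, ?_, ?_⟩
  · rw [Lp.norm_toLp]
    refine ENNReal.toReal_le_of_le_ofReal hη ?_
    rw [← eLpNorm_two_sq] at h1
    exact (ENNReal.pow_le_pow_left_iff two_ne_zero).mp h1
  · filter_upwards [hmem.coeFn_toLp] with x hx
    rw [hx]
    abel

lemma exists_approx {q : ℕ} {u : L2 q} {f : L2 (q + 1)} (h : (u, f) ∈ weakD q)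
    {K : Set (ℂ × ℂ)} (hK : IsCompact K) (hKT : K ⊆ hartogs) {η : ℝ} (hη : 0 < η) :
    ∃ U : ℂ × ℂ → Form q, ContDiff ℝ ∞ U ∧ ∃ (w : L2 q) (w' : L2 (q + 1)), ‖w‖ ≤ η ∧ ‖w'‖ ≤ η ∧
      (∀ᵐ x ∂volT, u x = w x + U x) ∧ ∀ᵐ x ∂volT, x ∈ K → f x = w' x + extD U x := by
  obtain ⟨ε₁, hε₁, h₁⟩ := exists_translation (ext0 u) hη
  obtain ⟨ε₂, hε₂, h₂⟩ := exists_translation (ext0 f) hη
  obtain ⟨ε₃, hε₃, h₃⟩ := hK.exists_cthickening_subset_open isOpen_hartogs hKT
  set ε := min (min ε₁ ε₂) ε₃ with hε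
  have hε0 : 0 < ε := lt_min (lt_min hε₁ hε₂) hε₃
  let b : ContDiffBump (0 : ℂ × ℂ) := ⟨ε / 2, ε, by positivity, by linarith⟩
  have hb : b.rOut = ε := rfl
  have hb1 : ε ≤ ε₁ := (min_le_left _ _).trans (min_le_left _ _)
  have hb2 : ε ≤ ε₂ := (min_le_left _ _).trans (min_le_right _ _)
  have hb3 : ε ≤ ε₃ := min_le_right _ _
  have c1 := mollify_close b (ext0 u) (η := ENNReal.ofReal η)
    (fun t ht => h₁ t (by rw [hb] at ht; exact ht.trans hb1))
  have c2 := mollify_close b (ext0 f) (η := ENNReal.ofReal η)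
    (fun t ht => h₂ t (by rw [hb] at ht; exact ht.trans hb2))
  have s1 := contDiff_moll b (ext0_locallyIntegrable u)
  have s2 := contDiff_moll b (ext0_locallyIntegrable f)
  obtain ⟨w, hw, hw'⟩ := exists_diff u s1.continuous hη.le c1
  obtain ⟨v, hv, hv'⟩ := exists_diff f s2.continuous hη.le c2
  refine ⟨_, s1, w, v, hw, hv, hw', ?_⟩
  filter_upwards [hv'] with x hx hxK
  rw [hx, extD_moll h b]
  rw [hb]
  refine (Metric.closedBall_subset_closedBall hb3).trans ?_
  exact (Metric.closedBall_subset_cthickening hxK ε₃).trans h₃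

end Pool.Agent.helper28.Hartogs
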