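import Mathlib

open MeasureTheory Set Topology ContDiff

namespace Pool.Agent.helper28.Hartogs

section

variable {E P : Type} [NormedAddCommGroup E] [NormedSpace ℝ E] [ProperSpace E]
  [NormedAddCommGroup P] [NormedSpace ℝ P] [MeasurableSpace P] [BorelSpace P]
  [SecondCountableTopology P]
  {s : Set E} {K : Set P} {μ : Measure P} [IsFiniteMeasure μ]

lemma continuous_slice {G : Type} [NormedAddCommGroup G]
    {F : E × P → G} (hF : ContinuousOn F (s ×ˢ univ)) {z : E} (hz : z ∈ s) :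
    Continuous fun θ => F (z, θ) := by
  rw [← continuousOn_univ]
  exact hF.comp (by fun_prop) fun θ _ => ⟨hz, mem_univ _⟩

lemma integrable_slice {G : Type} [NormedAddCommGroup G] (hK : IsCompact K)
    (hμ : ∀ᵐ θ ∂μ, θ ∈ K)
    {F : E × P → G} (hF : ContinuousOn F (s ×ˢ univ)) {z : E} (hz : z ∈ s) :
    Integrable (fun θ => F (z, θ)) μ := by
  have hc := continuous_slice hF hz
  obtain ⟨C, hC⟩ := hK.exists_bound_of_continuousOn hc.continuousOn
  refine Integrable.of_bound hc.aestronglyMeasurable C ?_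
  filter_upwards [hμ] with θ hθ
  exact hC θ hθ

lemma hasFDerivAt_param {G : Type} [NormedAddCommGroup G] [NormedSpace ℝ G]
    (hs : IsOpen s) (hK : IsCompact K) (hμ : ∀ᵐ θ ∂μ, θ ∈ K)
    {F : E × P → G} (hF : ContDiffOn ℝ ∞ F (s ×ˢ univ)) {z : E} (hz : z ∈ s) :
    HasFDerivAt (fun z => ∫ θ, F (z, θ) ∂μ)
      (∫ θ, (fderiv ℝ F (z, θ)).comp (ContinuousLinearMap.inl ℝ E P) ∂μ) z := by
  have hso : IsOpen (s ×ˢ (univ : Set P)) := hs.prod isOpen_univ
  have hF' : ContDiffOn ℝ ∞ (fun y => (fderiv ℝ F y).comp (ContinuousLinearMap.inl ℝ E P))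
      (s ×ˢ univ) :=
    (hF.fderiv_of_isOpen hso (m := ∞) (by simp)).clm_comp contDiffOn_const
  obtain ⟨r, hr, hrs⟩ := Metric.isOpen_iff.mp hs z hz
  have hr2 : Metric.closedBall z (r / 2) ⊆ s :=
    (Metric.closedBall_subset_ball (by linarith)).trans hrs
  have hcomp : IsCompact (Metric.closedBall z (r / 2) ×ˢ K) :=
    (isCompact_closedBall z _).prod hK
  obtain ⟨C, hC⟩ := hcomp.exists_bound_of_continuousOn
    (hF'.continuousOn.mono (prod_mono hr2 (subset_univ _)))
  refine hasFDerivAt_integral_of_dominated_of_fderiv_le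
    (F' := fun z θ => (fderiv ℝ F (z, θ)).comp (ContinuousLinearMap.inl ℝ E P))
    (bound := fun _ => C) (Metric.ball_mem_nhds z (half_pos hr)) ?_ ?_ ?_ ?_ ?_ ?_
  · filter_upwards [hs.mem_nhds hz] with y hy
    exact (continuous_slice hF.continuousOn hy).aestronglyMeasurable
  · exact integrable_slice hK hμ hF.continuousOn hz
  · exact (continuous_slice hF'.continuousOn hz).aestronglyMeasurable
  · filter_upwards [hμ] with θ hθ x hx
    exact hC (x, θ) ⟨Metric.ball_subset_closedBall hx, hθ⟩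
  · exact integrable_const _
  · refine Filter.Eventually.of_forall fun θ x hx => ?_
    have hxs : x ∈ s := hr2 (Metric.ball_subset_closedBall hx)
    have h1 : DifferentiableAt ℝ F (x, θ) :=
      ((hF.contDiffAt (hso.mem_nhds ⟨hxs, mem_univ _⟩)).differentiableAt (by simp))
    have h2 : HasFDerivAt (fun x : E => (x, θ)) (ContinuousLinearMap.inl ℝ E P) x :=
      hasFDerivAt_prodMk_left x θ
    exact h1.hasFDerivAt.comp x h2

lemma contDiffOn_param (hs : IsOpen s) (hK : IsCompact K) (hμ : ∀ᵐ θ ∂μ, θ ∈ K) (n : ℕ) :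
    ∀ (G : Type) [NormedAddCommGroup G] [NormedSpace ℝ G] (F : E × P → G),
      ContDiffOn ℝ ∞ F (s ×ˢ univ) → ContDiffOn ℝ n (fun z => ∫ θ, F (z, θ) ∂μ) s := by
  induction n with
  | zero =>
    intro G _ _ F hF
    refine contDiffOn_zero.mpr ?_
    intro z hz
    exact (hasFDerivAt_param hs hK hμ hF hz).continuousAt.continuousWithinAt
  | succ n ih =>
    intro G _ _ F hF
    have hso : IsOpen (s ×ˢ (univ : Set P)) := hs.prod isOpen_univ
    have hF' : ContDiffOn ℝ ∞ (fun y => (fderiv ℝ F y).comp (ContinuousLinearMap.inl ℝ E P))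
        (s ×ˢ univ) :=
      (hF.fderiv_of_isOpen hso (m := ∞) (by simp)).clm_comp contDiffOn_const
    push_cast
    rw [contDiffOn_succ_iff_fderiv_of_isOpen hs]
    refine ⟨fun z hz => (hasFDerivAt_param hs hK hμ hF hz).differentiableAt.differentiableWithinAt,
      by simp, ?_⟩
    refine (ih _ _ hF').congr fun z hz => ?_
    exact (hasFDerivAt_param hs hK hμ hF hz).fderiv

lemma contDiffOn_param_infty (hs : IsOpen s) (hK : IsCompact K) (hμ : ∀ᵐ θ ∂μ, θ ∈ K)
    {G : Type} [NormedAddCommGroup G] [NormedSpace ℝ G] {F : E × P → G}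
    (hF : ContDiffOn ℝ ∞ F (s ×ˢ univ)) : ContDiffOn ℝ ∞ (fun z => ∫ θ, F (z, θ) ∂μ) s := by
  rw [contDiffOn_infty]
  exact fun n => contDiffOn_param hs hK hμ n G F hF

end

end Pool.Agent.helper28.Hartogs
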