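import Pool.Agent.helper28.Hartogs.Operators
import Pool.Agent.helper28.Hartogs.Param

open MeasureTheory Module Set ContDiff
open scoped ENNReal NNReal

namespace Pool.Agent.helper28.Hartogs

/-- the compact parameter set -/
def parK : Set (ℝ × (ℂ × ℂ)) := Icc (0 : ℝ) 1 ×ˢ Metric.closedBall ((0, 1 / 2) : ℂ × ℂ) (1 / 8)

lemma isCompact_parK : IsCompact parK := isCompact_Icc.prod (isCompact_closedBall _ _)

lemma ae_par {τ : Measure ℝ} [SFinite τ] {s : Set ℝ} (hτ : ∀ᵐ t ∂τ, t ∈ s) :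
    ∀ᵐ θ ∂(par τ), θ.1 ∈ s ∧ θ.2 ∈ ballB := by
  have h1 : Measure.QuasiMeasurePreserving (Prod.fst : ℝ × (ℂ × ℂ) → ℝ) (par τ) τ :=
    Measure.quasiMeasurePreserving_fst
  have h2 : Measure.QuasiMeasurePreserving (Prod.snd : ℝ × (ℂ × ℂ) → ℂ × ℂ) (par τ) kap :=
    Measure.quasiMeasurePreserving_snd
  exact (h1.ae hτ).and (h2.ae ae_kap)

lemma ae_parK {τ : Measure ℝ} [SFinite τ] (hτ : ∀ᵐ t ∂τ, t ∈ Icc (0 : ℝ) 1) :
    ∀ᵐ θ ∂(par τ), θ ∈ parK := by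
  filter_upwards [ae_par hτ] with θ hθ
  exact ⟨hθ.1, Metric.ball_subset_closedBall hθ.2⟩

lemma ae_Ioc : ∀ᵐ t ∂(volume.restrict (Ioc (0 : ℝ) 1)), t ∈ Icc (0 : ℝ) 1 := by
  filter_upwards [ae_restrict_mem (μ := volume) measurableSet_Ioc] with t ht
  exact ⟨ht.1.le, ht.2⟩

lemma ae_dirac : ∀ᵐ t ∂(Measure.dirac (1 : ℝ)), t ∈ Icc (0 : ℝ) 1 := by
  rw [ae_dirac_iff (by exact measurableSet_Icc)]
  exact ⟨zero_le_one, le_rfl⟩

/-- the reordering map as a linear map -/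
noncomputable def toXL : (ℂ × ℂ) × (ℝ × (ℂ × ℂ)) →L[ℝ] ℝ × (ℂ × ℂ) × (ℂ × ℂ) :=
  ((ContinuousLinearMap.fst ℝ ℝ (ℂ × ℂ)).comp (ContinuousLinearMap.snd ℝ (ℂ × ℂ) _)).prod
    (((ContinuousLinearMap.snd ℝ ℝ (ℂ × ℂ)).comp (ContinuousLinearMap.snd ℝ (ℂ × ℂ) _)).prod
      (ContinuousLinearMap.fst ℝ (ℂ × ℂ) _))

lemma toXL_apply (y : (ℂ × ℂ) × (ℝ × (ℂ × ℂ))) : toXL y = toX y := rfl

/-- the set where the second coordinate does not vanish -/
def offAxis : Set (ℂ × ℂ) := {z | z.2 ≠ 0}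

lemma isOpen_offAxis : IsOpen offAxis := isOpen_ne_fun (by fun_prop) continuous_const

lemma hartogs_subset_offAxis : hartogs ⊆ offAxis := fun _ hz => snd_ne_zero hz

lemma contDiffOn_comp_toX {G : Type} [NormedAddCommGroup G] [NormedSpace ℝ G]
    {f : ℝ × (ℂ × ℂ) × (ℂ × ℂ) → G} (hf : ∀ X, X.2.2.2 ≠ 0 → ContDiffAt ℝ ∞ f X) :
    ContDiffOn ℝ ∞ (fun y => f (toX y)) (offAxis ×ˢ univ) := by
  intro y hy
  have h1 : ContDiffAt ℝ ∞ f (toXL y) := hf _ hy.1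
  exact (h1.comp y toXL.contDiff.contDiffAt).contDiffWithinAt

/-- the derivative under the integral sign -/
lemma fderiv_avg {τ : Measure ℝ} [IsFiniteMeasure τ] (hτ : ∀ᵐ t ∂τ, t ∈ Icc (0 : ℝ) 1)
    {f : ℝ × (ℂ × ℂ) × (ℂ × ℂ) → ℂ} (hf : ∀ X, X.2.2.2 ≠ 0 → ContDiffAt ℝ ∞ f X)
    {z : ℂ × ℂ} (hz : z ∈ offAxis) (v : ℂ × ℂ) :
    fderiv ℝ (fun z => ∫ θ, f (toX (z, θ)) ∂(par τ)) z v =
      ∫ θ, fderiv ℝ f (toX (z, θ)) (0, 0, v) ∂(par τ) := by
  have h1 := hasFDerivAt_param isOpen_offAxis isCompact_parK (ae_parK hτ)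
    (contDiffOn_comp_toX hf) hz
  have hso : IsOpen (offAxis ×ˢ (univ : Set (ℝ × (ℂ × ℂ)))) := isOpen_offAxis.prod isOpen_univ
  have hF' : ContDiffOn ℝ ∞ (fun y => (fderiv ℝ (fun y => f (toX y)) y).comp
      (ContinuousLinearMap.inl ℝ (ℂ × ℂ) (ℝ × (ℂ × ℂ)))) (offAxis ×ˢ univ) :=
    ((contDiffOn_comp_toX hf).fderiv_of_isOpen hso (m := ∞) (by simp)).clm_comp contDiffOn_const
  rw [h1.fderiv, ContinuousLinearMap.integral_apply
    (integrable_slice isCompact_parK (ae_parK hτ) hF'.continuousOn hz)]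
  refine integral_congr_ae (Filter.Eventually.of_forall fun θ => ?_)
  have h2 : HasFDerivAt (fun y => f (toX y)) ((fderiv ℝ f (toX (z, θ))).comp toXL) (z, θ) := by
    have h3 : DifferentiableAt ℝ f (toXL (z, θ)) :=
      (hf (toXL (z, θ)) hz).differentiableAt (by simp)
    exact h3.hasFDerivAt.comp (z, θ) toXL.hasFDerivAt
  change (fderiv ℝ (fun y => f (toX y)) (z, θ)) (v, 0) = _
  rw [h2.fderiv, ContinuousLinearMap.comp_apply, toXL_apply]
  rfl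

/-- averaged operators on functions -/
noncomputable def avg {q r : ℕ} (V : ℝ × (ℂ × ℂ) × (ℂ × ℂ) → Idx r → Fin q → ℂ × ℂ)
    (τ : Measure ℝ) (U : ℂ × ℂ → Form q) (z : ℂ × ℂ) : Form r :=
  ∫ θ, evalF (V (toX (z, θ))) (U (Psi (toX (z, θ)))) ∂(par τ)

/-- smoothness of a family of vectors -/
def SmoothV {q r : ℕ} (V : ℝ × (ℂ × ℂ) × (ℂ × ℂ) → Idx r → Fin q → ℂ × ℂ) : Prop :=
  ∀ X, X.2.2.2 ≠ 0 → ∀ I i, ContDiffAt ℝ ∞ (fun X => V X I i) X

lemma smoothV_vecQ (q : ℕ) : SmoothV (vecQ q) := fun _ hX _ _ =>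
  (contDiffAt_Lz hX).clm_apply contDiffAt_const

lemma smoothV_vecS (p : ℕ) : SmoothV (vecS p) := fun X hX I i => by
  refine Fin.cases ?_ (fun j => ?_) i
  · exact contDiffAt_Vel hX
  · exact (contDiffAt_Lz hX).clm_apply contDiffAt_const

section

variable {q r : ℕ} {V : ℝ × (ℂ × ℂ) × (ℂ × ℂ) → Idx r → Fin q → ℂ × ℂ} {τ : Measure ℝ}
  {U : ℂ × ℂ → Form q}

lemma contDiffAt_coord (hV : SmoothV V) (hU : ContDiff ℝ ∞ U) (I : Idx r)
    {X : ℝ × (ℂ × ℂ) × (ℂ × ℂ)} (hX : X.2.2.2 ≠ 0) :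
    ContDiffAt ℝ ∞ (fun X => alt q (U (Psi X)) (V X I)) X := by
  refine contDiffAt_eval (W := fun X => alt q (U (Psi X))) (v := fun i X => V X I i) ?_ ?_
  · exact (alt q).contDiff.contDiffAt.comp X (hU.contDiffAt.comp X (contDiffAt_Psi hX))
  · exact hV X hX I

lemma contDiffAt_evalF (hV : SmoothV V) (hU : ContDiff ℝ ∞ U)
    {X : ℝ × (ℂ × ℂ) × (ℂ × ℂ)} (hX : X.2.2.2 ≠ 0) :
    ContDiffAt ℝ ∞ (fun X => evalF (V X) (U (Psi X))) X := by
  rw [contDiffAt_piLp]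
  exact fun I => contDiffAt_coord hV hU I hX

lemma contDiffOn_avg [IsFiniteMeasure τ] (hτ : ∀ᵐ t ∂τ, t ∈ Icc (0 : ℝ) 1)
    (hV : SmoothV V) (hU : ContDiff ℝ ∞ U) : ContDiffOn ℝ ∞ (avg V τ U) offAxis :=
  contDiffOn_param_infty isOpen_offAxis isCompact_parK (ae_parK hτ)
    (contDiffOn_comp_toX fun _ hX => contDiffAt_evalF hV hU hX)

lemma avg_apply [IsFiniteMeasure τ] (hτ : ∀ᵐ t ∂τ, t ∈ Icc (0 : ℝ) 1)
    (hV : SmoothV V) (hU : ContDiff ℝ ∞ U) {z : ℂ × ℂ} (hz : z ∈ offAxis) (I : Idx r) :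
    avg V τ U z I = ∫ θ, alt q (U (Psi (toX (z, θ)))) (V (toX (z, θ)) I) ∂(par τ) := by
  have h1 : Integrable (fun θ => evalF (V (toX (z, θ))) (U (Psi (toX (z, θ))))) (par τ) :=
    integrable_slice isCompact_parK (ae_parK hτ)
      (contDiffOn_comp_toX (f := fun X => evalF (V X) (U (Psi X)))
        fun _ hX => contDiffAt_evalF hV hU hX).continuousOn hz
  exact ((EuclideanSpace.proj I : Form r →L[ℂ] ℂ).integral_comp_comm h1).symm

end

lemma contDiff_extD {q : ℕ} {U : ℂ × ℂ → Form q} (hU : ContDiff ℝ ∞ U) :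
    ContDiff ℝ ∞ (extD U) := by
  rw [contDiff_piLp]
  intro J
  change ContDiff ℝ ∞ fun x => ∑ j : Fin (q + 1),
    (-1) ^ (j : ℕ) * fderiv ℝ (fun y => U y (face J j)) x (e (J j))
  refine ContDiff.sum fun j _ => contDiff_const.mul ?_
  have h1 : ContDiff ℝ ∞ fun y => U y (face J j) := (contDiff_piLp 2).mp hU (face J j)
  exact (h1.fderiv_right (m := ∞) (by simp)).clm_apply contDiff_const

lemma pull_ftc {q : ℕ} {om : ℂ × ℂ → (ℂ × ℂ) [⋀^Fin q]→L[ℝ] ℂ} (hom : ContDiff ℝ ∞ om)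
    (v : Fin q → ℂ × ℂ) {z : ℂ × ℂ} (hz : z.2 ≠ 0) (ζ : ℂ × ℂ) :
    ∫ t, fderiv ℝ (pull om v) (t, ζ, z) (1, 0, 0) ∂(volume.restrict (Ioc (0 : ℝ) 1)) =
      pull om v (1, ζ, z) - om z v := by
  have hpullc : ∀ X : ℝ × (ℂ × ℂ) × (ℂ × ℂ), X.2.2.2 ≠ 0 → ContDiffAt ℝ ∞ (pull om v) X :=
    fun X hX => contDiffAt_pull hom v hX
  have hder : ∀ t : ℝ, HasDerivAt (fun t => pull om v (t, ζ, z))
      (fderiv ℝ (pull om v) (t, ζ, z) (1, 0, 0)) t := by
    intro t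
    have h2 : HasFDerivAt (pull om v) (fderiv ℝ (pull om v) (t, ζ, z)) (t, ζ, z) :=
      ((hpullc (t, ζ, z) hz).differentiableAt (by simp)).hasFDerivAt
    have h3 : HasDerivAt (fun t : ℝ => (t, ζ, z)) ((1, 0, 0) : ℝ × (ℂ × ℂ) × (ℂ × ℂ)) t :=
      (hasDerivAt_id t).prodMk (hasDerivAt_const t (ζ, z))
    exact h2.comp_hasDerivAt t h3
  have hcont : Continuous fun t : ℝ => fderiv ℝ (pull om v) (t, ζ, z) (1, 0, 0) := by
    rw [continuous_iff_continuousAt]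
    intro t
    have h4 : ContinuousAt (fun X => fderiv ℝ (pull om v) X (1, 0, 0)) (t, ζ, z) :=
      (((hpullc (t, ζ, z) hz).fderiv_right (m := ∞) (by simp)).clm_apply
        contDiffAt_const).continuousAt
    exact ContinuousAt.comp (f := fun t : ℝ => (t, ζ, z)) h4 (by fun_prop)
  have h5 := intervalIntegral.integral_eq_sub_of_hasDerivAt (a := 0) (b := 1)
    (fun t _ => hder t) (hcont.intervalIntegrable _ _)
  rw [intervalIntegral.integral_of_le zero_le_one] at h5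
  have h6 : pull om v (0, ζ, z) = om z v := by
    have e1 : Psi (0, ζ, z) = z := by simp [Psi]
    have e2 : ∀ w, Lz (0, ζ, z) w = w := by intro w; rw [Lz_apply]; simp
    rw [pull, e1]
    simp only [e2]
  rw [h6] at h5
  exact h5

lemma continuous_pull_one {q : ℕ} {om : ℂ × ℂ → (ℂ × ℂ) [⋀^Fin q]→L[ℝ] ℂ}
    (hom : ContDiff ℝ ∞ om) (v : Fin q → ℂ × ℂ) {z : ℂ × ℂ} (hz : z.2 ≠ 0) :
    Continuous fun ζ : ℂ × ℂ => pull om v (1, ζ, z) := by
  rw [continuous_iff_continuousAt]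
  intro ζ
  have h4 : ContinuousAt (pull om v) (1, ζ, z) :=
    (contDiffAt_pull (n := ∞) hom v (X := (1, ζ, z)) hz).continuousAt
  exact ContinuousAt.comp (f := fun ζ : ℂ × ℂ => ((1 : ℝ), ζ, z)) h4 (by fun_prop)

lemma integrable_kap {G : Type} [NormedAddCommGroup G] {f : ℂ × ℂ → G} (hf : Continuous f) :
    Integrable f kap := by
  obtain ⟨C, hC⟩ := (isCompact_closedBall ((0, 1 / 2) : ℂ × ℂ) (1 / 8)).exists_bound_of_continuousOn
    hf.continuousOn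
  refine Integrable.of_bound hf.aestronglyMeasurable C ?_
  filter_upwards [ae_kap] with ζ hζ
  exact hC ζ (Metric.ball_subset_closedBall hζ)

lemma integrable_toX {G : Type} [NormedAddCommGroup G] [NormedSpace ℝ G] {τ : Measure ℝ}
    [IsFiniteMeasure τ] (hτ : ∀ᵐ t ∂τ, t ∈ Icc (0 : ℝ) 1)
    {f : ℝ × (ℂ × ℂ) × (ℂ × ℂ) → G} (hf : ∀ X, X.2.2.2 ≠ 0 → ContDiffAt ℝ ∞ f X)
    {z : ℂ × ℂ} (hz : z ∈ offAxis) : Integrable (fun θ => f (toX (z, θ))) (par τ) :=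
  integrable_slice isCompact_parK (ae_parK hτ) (contDiffOn_comp_toX hf).continuousOn hz

lemma integral_fderiv_pull {q : ℕ} {om : ℂ × ℂ → (ℂ × ℂ) [⋀^Fin q]→L[ℝ] ℂ}
    (hom : ContDiff ℝ ∞ om) (v : Fin q → ℂ × ℂ) {z : ℂ × ℂ} (hz : z ∈ offAxis) :
    ∫ θ, fderiv ℝ (pull om v) (toX (z, θ)) (1, 0, 0) ∂(par (volume.restrict (Ioc (0 : ℝ) 1))) =
      ∫ ζ, pull om v (1, ζ, z) ∂kap - om z v := by
  have hint3 : Integrable (fun θ => fderiv ℝ (pull om v) (toX (z, θ)) (1, 0, 0))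
      (par (volume.restrict (Ioc (0 : ℝ) 1))) :=
    integrable_toX (f := fun X => fderiv ℝ (pull om v) X (1, 0, 0)) ae_Ioc
      (fun X hX => ((contDiffAt_pull (n := ∞) hom v hX).fderiv_right (m := ∞) (by simp)).clm_apply
        contDiffAt_const) hz
  rw [par] at hint3 ⊢
  rw [integral_prod_symm _ hint3]
  have h1 : ∀ ζ : ℂ × ℂ, ∫ t, fderiv ℝ (pull om v) (toX (z, (t, ζ))) (1, 0, 0)
      ∂(volume.restrict (Ioc (0 : ℝ) 1)) = pull om v (1, ζ, z) - om z v :=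
    fun ζ => pull_ftc hom v hz ζ
  simp only [h1]
  rw [integral_sub (integrable_kap (continuous_pull_one hom v hz)) (integrable_const _),
    integral_const, probReal_univ, one_smul]

/-- the derivative of the averaged contraction -/
lemma extD_avgS_apply {p : ℕ} {U : ℂ × ℂ → Form (p + 1)} (hU : ContDiff ℝ ∞ U) {z : ℂ × ℂ}
    (hz : z ∈ offAxis) (J : Idx (p + 1)) (j : Fin (p + 1)) :
    fderiv ℝ (fun y => avg (vecS p) (volume.restrict (Ioc 0 1)) U y (face J j)) z (e (J j)) =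
      ∫ θ, fderiv ℝ (contr (fun y => alt (p + 1) (U y)) (j.removeNth fun i => e (J i)))
        (toX (z, θ)) (0, 0, e (J j)) ∂(par (volume.restrict (Ioc (0 : ℝ) 1))) := by
  have hom : ContDiff ℝ ∞ fun y => alt (p + 1) (U y) := (alt (p + 1)).contDiff.comp hU
  rw [← fderiv_avg ae_Ioc (fun X hX => contDiffAt_contr hom _ hX) hz]
  have he : (fun y => avg (vecS p) (volume.restrict (Ioc 0 1)) U y (face J j)) =ᶠ[nhds z]
      fun z => ∫ θ, contr (fun y => alt (p + 1) (U y)) (j.removeNth fun i => e (J i))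
        (toX (z, θ)) ∂(par (volume.restrict (Ioc (0 : ℝ) 1))) := by
    filter_upwards [isOpen_offAxis.mem_nhds hz] with y hy
    rw [avg_apply ae_Ioc (smoothV_vecS p) hU hy]
    rfl
  rw [he.fderiv_eq]

lemma avgQ_apply {q : ℕ} {U : ℂ × ℂ → Form q} (hU : ContDiff ℝ ∞ U) {z : ℂ × ℂ}
    (hz : z ∈ offAxis) (J : Idx q) :
    avg (vecQ q) (Measure.dirac 1) U z J =
      ∫ ζ, pull (fun y => alt q (U y)) (fun i => e (J i)) (1, ζ, z) ∂kap := by
  have hom : ContDiff ℝ ∞ fun y => alt q (U y) := (alt q).contDiff.comp hU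
  rw [avg_apply ae_dirac (smoothV_vecQ q) hU hz, par, Measure.dirac_prod,
    integral_map (by fun_prop)]
  · rfl
  · have hc : Continuous fun θ => pull (fun y => alt q (U y)) (fun i => e (J i)) (toX (z, θ)) :=
      continuous_slice (contDiffOn_comp_toX
        (f := pull (fun y => alt q (U y)) (fun i => e (J i)))
        (fun X hX => contDiffAt_pull hom _ hX)).continuousOn hz
    exact hc.aestronglyMeasurable

/-- `d s U = q U - U - s d U` for smooth forms, away from the axis -/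
lemma extD_avg {p : ℕ} {U : ℂ × ℂ → Form (p + 1)} (hU : ContDiff ℝ ∞ U) {z : ℂ × ℂ}
    (hz : z ∈ offAxis) :
    extD (avg (vecS p) (volume.restrict (Ioc 0 1)) U) z =
      avg (vecQ (p + 1)) (Measure.dirac 1) U z - U z -
        avg (vecS (p + 1)) (volume.restrict (Ioc 0 1)) (extD U) z := by
  ext J
  have hom : ContDiff ℝ ∞ fun y => alt (p + 1) (U y) := (alt (p + 1)).contDiff.comp hU
  set om : ℂ × ℂ → (ℂ × ℂ) [⋀^Fin (p + 1)]→L[ℝ] ℂ := fun y => alt (p + 1) (U y) with homdef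
  have hdom : extDeriv om = fun y => alt (p + 2) (extD U y) := by
    funext y
    exact (alt_extD (hU.differentiable (by simp) y)).symm
  set v : Fin (p + 1) → ℂ × ℂ := fun i => e (J i) with hv
  set κ := par (volume.restrict (Ioc (0 : ℝ) 1)) with hκ
  have hint1 : ∀ j : Fin (p + 1), Integrable (fun θ => (-1 : ℂ) ^ (j : ℕ) *
      fderiv ℝ (contr om (j.removeNth v)) (toX (z, θ)) (0, 0, v j)) κ := by
    intro j
    refine integrable_toX (f := fun X => (-1 : ℂ) ^ (j : ℕ) *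
        fderiv ℝ (contr om (j.removeNth v)) X (0, 0, v j)) ae_Ioc ?_ hz
    intro X hX
    exact contDiffAt_const.mul (((contDiffAt_contr (n := ∞) hom _ hX).fderiv_right (m := ∞)
      (by simp)).clm_apply contDiffAt_const)
  have hint2 : Integrable (fun θ => contr (extDeriv om) v (toX (z, θ))) κ := by
    refine integrable_toX (f := contr (extDeriv om) v) ae_Ioc ?_ hz
    intro X hX
    refine contDiffAt_contr ?_ v hX
    rw [hdom]
    exact (alt (p + 2)).contDiff.comp (contDiff_extD hU)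
  have hint3 : Integrable (fun θ => fderiv ℝ (pull om v) (toX (z, θ)) (1, 0, 0)) κ :=
    integrable_toX (f := fun X => fderiv ℝ (pull om v) X (1, 0, 0)) ae_Ioc
      (fun X hX => ((contDiffAt_pull (n := ∞) hom v hX).fderiv_right (m := ∞) (by simp)).clm_apply
        contDiffAt_const) hz
  have hLsum : extD (avg (vecS p) (volume.restrict (Ioc 0 1)) U) z J =
      ∫ θ, (fderiv ℝ (pull om v) (toX (z, θ)) (1, 0, 0) -
        contr (extDeriv om) v (toX (z, θ))) ∂κ := by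
    have h1 : extD (avg (vecS p) (volume.restrict (Ioc 0 1)) U) z J =
        ∑ j : Fin (p + 1), ∫ θ, (-1 : ℂ) ^ (j : ℕ) *
          fderiv ℝ (contr om (j.removeNth v)) (toX (z, θ)) (0, 0, v j) ∂κ := by
      change ∑ j : Fin (p + 1), (-1) ^ (j : ℕ) * fderiv ℝ
        (fun y => avg (vecS p) (volume.restrict (Ioc 0 1)) U y (face J j)) z (e (J j)) = _
      refine Finset.sum_congr rfl fun j _ => ?_
      rw [extD_avgS_apply hU hz J j, integral_const_mul]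
    rw [h1, ← integral_finsetSum _ fun j _ => hint1 j]
    refine integral_congr_ae (Filter.Eventually.of_forall fun θ => ?_)
    simp only
    rw [homotopy_formula hom v (X := toX (z, θ)) hz]
    ring
  rw [hLsum, integral_sub hint3 hint2, integral_fderiv_pull hom v hz]
  have hS : avg (vecS (p + 1)) (volume.restrict (Ioc 0 1)) (extD U) z J =
      ∫ θ, contr (extDeriv om) v (toX (z, θ)) ∂κ := by
    rw [avg_apply ae_Ioc (smoothV_vecS (p + 1)) (contDiff_extD hU) hz, hdom]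
    rfl
  change _ = avg (vecQ (p + 1)) (Measure.dirac 1) U z J - U z J -
    avg (vecS (p + 1)) (volume.restrict (Ioc 0 1)) (extD U) z J
  rw [hS, avgQ_apply hU hz J]
  have h7 : om z v = U z J := alt_apply (U z) J
  rw [h7]

/-- comparison with the kernel operators -/
lemma fn_mkKer_eq {q r : ℕ} {V : ℝ × (ℂ × ℂ) × (ℂ × ℂ) → Idx r → Fin q → ℂ × ℂ}
    {K : Ker (ℝ × (ℂ × ℂ)) (ℂ × ℂ) (Form q) (Form r)}
    (hphi : K.phi = fun y => Psi (toX y))
    (hA : ∀ y ∈ good, ∀ w, K.A y w = evalF (V (toX y)) w)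
    {τ : Measure ℝ} [IsFiniteMeasure τ] (hτ : ∀ᵐ t ∂τ, t ∈ Icc (0 : ℝ) 1)
    (U : ℂ × ℂ → Form q) {z : ℂ × ℂ} (hz : z ∈ hartogs) :
    K.fn (par τ) U z = avg V τ U z := by
  refine integral_congr_ae ?_
  filter_upwards [ae_par hτ] with θ hθ
  rw [hphi, hA _ ⟨hz, hθ.1, hθ.2⟩]

lemma fn_kerS_eq (p : ℕ) (U : ℂ × ℂ → Form (p + 1)) {z : ℂ × ℂ} (hz : z ∈ hartogs) :
    (kerS p).fn (par (volume.restrict (Ioc 0 1))) U z =
      avg (vecS p) (volume.restrict (Ioc 0 1)) U z :=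
  fn_mkKer_eq rfl (fun _ hy _ => if_pos hy) ae_Ioc U hz

lemma fn_kerQ_eq (q : ℕ) (U : ℂ × ℂ → Form q) {z : ℂ × ℂ} (hz : z ∈ hartogs) :
    (kerQ q).fn (par (Measure.dirac 1)) U z = avg (vecQ q) (Measure.dirac 1) U z :=
  fn_mkKer_eq rfl (fun _ hy _ => if_pos hy) ae_dirac U hz

end Pool.Agent.helper28.Hartogs
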