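import Pool.Agent.helper28.Hartogs.Domains
import Pool.Agent.helper28.Hartogs.SmoothHom

open MeasureTheory Set ContDiff
open scoped InnerProductSpace

namespace Pool.Agent.helper28.Hartogs

instance instSepL2 (q : ℕ) : TopologicalSpace.SeparableSpace (L2 q) := by
  have h1 : Fact ((2 : ENNReal) ≠ ⊤) := ⟨by norm_num⟩
  have h2 : SecondCountableTopology (Lp (Form q) 2 volT) := Lp.SecondCountableTopology
  have h3 : TopologicalSpace.SeparableSpace (Lp (Form q) 2 volT) := inferInstance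
  exact h3

lemma two_le_infty : (2 : WithTop ℕ∞) ≤ ∞ := ENat.LEInfty.out

lemma isClosed_weakD (q : ℕ) : IsClosed (weakD q : Set (L2 q × L2 (q + 1))) := by
  have : (weakD q : Set (L2 q × L2 (q + 1))) = ⋂ (L : L2 q × L2 (q + 1) →L[ℂ] ℂ)
      (J : Idx (q + 1)) (φ : ℂ × ℂ → ℝ) (_ : ContDiff ℝ ∞ φ) (_ : HasCompactSupport φ)
      (_ : tsupport φ ⊆ hartogs) (_ : ∀ p, L p = ∫ x, φ x * p.2 x J ∂volT +
      ∫ x, ∑ j : Fin (q + 1), (-1) ^ (j : ℕ) *
        (fderiv ℝ φ x (e (J j)) * p.1 x (face J j)) ∂volT), {p | L p = 0} := by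
    ext p
    simp only [mem_iInter]
    exact isWeakD_iff
  rw [this]
  refine isClosed_iInter fun L => isClosed_iInter fun J => isClosed_iInter fun φ =>
    isClosed_iInter fun _ => isClosed_iInter fun _ => isClosed_iInter fun _ =>
    isClosed_iInter fun _ => ?_
  exact isClosed_eq L.continuous continuous_const

lemma isClosed_strongD (q : ℕ) : IsClosed (strongD q : Set (L2 q × L2 (q + 1))) :=
  (smoothPairs q).isClosed_topologicalClosure

/-- `d d = 0` for smooth forms -/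
lemma extD_extD {q : ℕ} {U : ℂ × ℂ → Form q} (hU : ContDiff ℝ ∞ U) (x : ℂ × ℂ) :
    extD (extD U) x = 0 := by
  have h1 : alt (q + 2) (extD (extD U) x) = 0 := by
    rw [alt_extD ((contDiff_extD hU).differentiable (by simp) x)]
    have h2 : (fun y => alt (q + 1) (extD U y)) = extDeriv (fun y => alt q (U y)) := by
      funext y
      exact alt_extD (hU.differentiable (by simp) y)
    rw [h2]
    have h3 : ContDiff ℝ ∞ fun y => alt q (U y) := (alt q).contDiff.comp hU
    have h4 := extDeriv_extDeriv (𝕜 := ℝ) (r := ∞) h3 (by simpa using two_le_infty)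
    exact congrFun h4 x
  ext J
  rw [← alt_apply (extD (extD U) x) J, h1]
  rfl

lemma strongD_comp {q : ℕ} {u : L2 q} {f : L2 (q + 1)} (h : (u, f) ∈ strongD q) :
    (f, (0 : L2 (q + 2))) ∈ strongD (q + 1) := by
  have hcl : IsClosed {p : L2 q × L2 (q + 1) | (p.2, (0 : L2 (q + 2))) ∈ strongD (q + 1)} :=
    (isClosed_strongD (q + 1)).preimage
      (by fun_prop : Continuous fun p : L2 q × L2 (q + 1) => (p.2, (0 : L2 (q + 2))))
  have hsub : (smoothPairs q : Set (L2 q × L2 (q + 1))) ⊆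
      {p | (p.2, (0 : L2 (q + 2))) ∈ strongD (q + 1)} := by
    rintro ⟨a, b⟩ ⟨U, hU, h1, h2⟩
    refine (smoothPairs (q + 1)).le_topologicalClosure ⟨extD U, contDiff_extD hU, h2, ?_⟩
    filter_upwards [Lp.coeFn_zero (Form (q + 2)) 2 volT] with x hx
    change (0 : L2 (q + 2)) x = extD (extD U) x
    rw [hx, extD_extD hU]
    rfl
  exact closure_minimal hsub hcl h

/-- the algebraic identity behind `d d = 0`, tested against constants -/
lemma double_sum {q : ℕ} {φ : ℂ × ℂ → ℝ} (hφ : ContDiff ℝ ∞ φ) (J : Idx (q + 2)) (c : Form q)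
    (x : ℂ × ℂ) :
    ∑ j : Fin (q + 2), (-1 : ℂ) ^ (j : ℕ) * ∑ k : Fin (q + 1), (-1 : ℂ) ^ (k : ℕ) *
      ((fderiv ℝ (fun y => fderiv ℝ φ y (e (J j))) x (e (face J j k)) : ℂ) *
        c (face (face J j) k)) = 0 := by
  have hφc : ContDiff ℝ ∞ fun y => (φ y : ℂ) := Complex.ofRealCLM.contDiff.comp hφ
  have hU : ContDiff ℝ ∞ fun y => (φ y : ℂ) • c := hφc.smul contDiff_const
  have h1 := congrArg (fun w : Form (q + 2) => w J) (extD_extD hU x)
  have h2 : ∀ (j : Fin (q + 2)) (y : ℂ × ℂ), extD (fun y => (φ y : ℂ) • c) y (face J j) =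
      ∑ k : Fin (q + 1), (-1 : ℂ) ^ (k : ℕ) *
        ((fderiv ℝ φ y (e (face J j k)) : ℂ) * c (face (face J j) k)) := by
    intro j y
    change ∑ k : Fin (q + 1), (-1) ^ (k : ℕ) *
      fderiv ℝ (fun y => (φ y : ℂ) * c (face (face J j) k)) y (e (face J j k)) = _
    refine Finset.sum_congr rfl fun k _ => ?_
    have d1 : HasFDerivAt φ (fderiv ℝ φ y) y := (hφ.differentiable (by simp) y).hasFDerivAt
    have d2 : HasFDerivAt (fun y => (φ y : ℂ)) (Complex.ofRealCLM.comp (fderiv ℝ φ y)) y :=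
      Complex.ofRealCLM.hasFDerivAt.comp y d1
    rw [(d2.mul_const (c (face (face J j) k))).fderiv]
    simp [mul_comm]
  have h3 : ∀ j : Fin (q + 2), fderiv ℝ (fun y => extD (fun y => (φ y : ℂ) • c) y (face J j)) x
      (e (J j)) = ∑ k : Fin (q + 1), (-1 : ℂ) ^ (k : ℕ) *
      ((fderiv ℝ (fun y => fderiv ℝ φ y (e (J j))) x (e (face J j k)) : ℂ) *
        c (face (face J j) k)) := by
    intro j
    simp only [h2]
    have hd : ∀ w : ℂ × ℂ, ContDiff ℝ ∞ fun y => fderiv ℝ φ y w := fun w =>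
      (hφ.fderiv_right (m := ∞) (by simp)).clm_apply contDiff_const
    have d3 : ∀ w : ℂ × ℂ, HasFDerivAt (fun y => (fderiv ℝ φ y w : ℂ))
        (Complex.ofRealCLM.comp (fderiv ℝ (fun y => fderiv ℝ φ y w) x)) x := fun w =>
      Complex.ofRealCLM.hasFDerivAt.comp x (((hd w).differentiable (by simp) x).hasFDerivAt)
    have d4 : HasFDerivAt (fun y => ∑ k : Fin (q + 1), (-1 : ℂ) ^ (k : ℕ) *
        ((fderiv ℝ φ y (e (face J j k)) : ℂ) * c (face (face J j) k)))
        (∑ k : Fin (q + 1), ((-1 : ℂ) ^ (k : ℕ)) • (c (face (face J j) k)) •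
          (Complex.ofRealCLM.comp (fderiv ℝ (fun y => fderiv ℝ φ y (e (face J j k))) x))) x := by
      refine HasFDerivAt.fun_sum fun k _ => ?_
      refine HasFDerivAt.const_mul ?_ _
      exact (d3 _).mul_const _
    rw [d4.fderiv, _root_.sum_apply]
    refine Finset.sum_congr rfl fun k _ => ?_
    simp only [_root_.smul_apply, ContinuousLinearMap.comp_apply, Complex.ofRealCLM_apply,
      smul_eq_mul]
    have hsymm : fderiv ℝ (fun y => fderiv ℝ φ y (e (face J j k))) x (e (J j)) =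
        fderiv ℝ (fun y => fderiv ℝ φ y (e (J j))) x (e (face J j k)) := by
      have hs : IsSymmSndFDerivAt ℝ φ x := hφ.contDiffAt.isSymmSndFDerivAt (by simpa using two_le_infty)
      have h5 : ∀ v w : ℂ × ℂ, fderiv ℝ (fun y => fderiv ℝ φ y v) x w =
          fderiv ℝ (fderiv ℝ φ) x w v := by
        intro v w
        have h6 : HasFDerivAt (fderiv ℝ φ) (fderiv ℝ (fderiv ℝ φ) x) x :=
          ((hφ.fderiv_right (m := ∞) (by simp)).differentiable (by simp) x).hasFDerivAt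
        have h7 := h6.clm_apply (hasFDerivAt_const v x)
        rw [h7.fderiv]
        simp
      rw [h5, h5]
      exact hs _ _
    rw [hsymm]
    ring
  have h4 : extD (extD fun y => (φ y : ℂ) • c) x J = ∑ j : Fin (q + 2), (-1 : ℂ) ^ (j : ℕ) *
      ∑ k : Fin (q + 1), (-1 : ℂ) ^ (k : ℕ) *
      ((fderiv ℝ (fun y => fderiv ℝ φ y (e (J j))) x (e (face J j k)) : ℂ) *
        c (face (face J j) k)) := by
    change ∑ j : Fin (q + 2), (-1) ^ (j : ℕ) *
      fderiv ℝ (fun y => extD (fun y => (φ y : ℂ) • c) y (face J j)) x (e (J j)) = _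
    exact Finset.sum_congr rfl fun j _ => by rw [h3]
  rw [← h4]
  exact h1

lemma weakD_comp {q : ℕ} {u : L2 q} {f : L2 (q + 1)} (h : (u, f) ∈ weakD q) :
    (f, (0 : L2 (q + 2))) ∈ weakD (q + 1) := by
  intro J φ h1 h2 h3
  have hz : ∫ x, (φ x : ℂ) * (0 : L2 (q + 2)) x J ∂volT = 0 := by
    have : ∫ x, (φ x : ℂ) * (0 : L2 (q + 2)) x J ∂volT = ∫ _x, (0 : ℂ) ∂volT := by
      refine integral_congr_ae ?_
      filter_upwards [Lp.coeFn_zero (Form (q + 2)) 2 volT] with x hx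
      rw [hx]
      simp
    rw [this, integral_zero]
  have hd : ∀ w : ℂ × ℂ, ContDiff ℝ ∞ fun y => fderiv ℝ φ y w := fun w =>
    (h1.fderiv_right (m := ∞) (by simp)).clm_apply contDiff_const
  have hdc : ∀ w : ℂ × ℂ, HasCompactSupport fun y => fderiv ℝ φ y w := fun w =>
    h2.fderiv_apply ℝ w
  have hds : ∀ w : ℂ × ℂ, tsupport (fun y => fderiv ℝ φ y w) ⊆ hartogs := fun w =>
    (tsupport_fderiv_apply_subset ℝ w).trans h3
  have key : ∀ j : Fin (q + 2), ∫ x, (fderiv ℝ φ x (e (J j)) : ℂ) * f x (face J j) ∂volT =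
      -∫ x, ∑ k : Fin (q + 1), (-1) ^ (k : ℕ) *
        ((fderiv ℝ (fun y => fderiv ℝ φ y (e (J j))) x (e (face J j k)) : ℂ) *
          u x (face (face J j) k)) ∂volT :=
    fun j => h (face J j) _ (hd _) (hdc _) (hds _)
  change ∫ x, (φ x : ℂ) * (0 : L2 (q + 2)) x J ∂volT =
    -∫ x, ∑ j : Fin (q + 2), (-1) ^ (j : ℕ) * (fderiv ℝ φ x (e (J j)) * f x (face J j)) ∂volT
  rw [hz, integral_sum_pair h1 h2]
  simp only [key]
  have hint : ∀ j : Fin (q + 2), Integrable (fun x => ∑ k : Fin (q + 1), (-1 : ℂ) ^ (k : ℕ) *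
        ((fderiv ℝ (fun y => fderiv ℝ φ y (e (J j))) x (e (face J j k)) : ℂ) *
          u x (face (face J j) k))) volT := by
    intro j
    refine integrable_finsetSum _ fun k _ => ?_
    exact (integrable_pair (memLp_fderiv (hd _) (hdc _) _) u _).const_mul _
  have h5 : ∑ j : Fin (q + 2), (-1 : ℂ) ^ (j : ℕ) * ∫ x, ∑ k : Fin (q + 1), (-1) ^ (k : ℕ) *
        ((fderiv ℝ (fun y => fderiv ℝ φ y (e (J j))) x (e (face J j k)) : ℂ) *
          u x (face (face J j) k)) ∂volT = 0 := by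
    simp only [← integral_const_mul]
    rw [← integral_finsetSum _ fun j _ => (hint j).const_mul _]
    have : ∀ x, ∑ j : Fin (q + 2), (-1 : ℂ) ^ (j : ℕ) * ∑ k : Fin (q + 1), (-1 : ℂ) ^ (k : ℕ) *
      ((fderiv ℝ (fun y => fderiv ℝ φ y (e (J j))) x (e (face J j k)) : ℂ) *
        u x (face (face J j) k)) = 0 := fun x => double_sum h1 J (u x) x
    simp only [this, integral_zero]
  simp only [mul_neg, Finset.sum_neg_distrib, h5, neg_zero]

end Pool.Agent.helper28.Hartogs
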