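import Pool.Agent.helper28.Hartogs.Abstract

open Filter Topology Module
open scoped InnerProductSpace

namespace Pool.Agent.helper28.Hartogs

section adj

variable {H K : Type*} [NormedAddCommGroup H] [InnerProductSpace ℂ H]
  [NormedAddCommGroup K] [InnerProductSpace ℂ K]

lemma mem_adjoint {A : Submodule ℂ (H × K)} {u : K} {f : H} :
    (u, f) ∈ A.adjoint ↔ ∀ x y, (x, y) ∈ A → ⟪y, u⟫_ℂ = ⟪x, f⟫_ℂ := by
  rw [Submodule.mem_adjoint_iff]
  simp only [sub_eq_zero]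

lemma isClosed_adjoint (A : Submodule ℂ (H × K)) : IsClosed (A.adjoint : Set (K × H)) := by
  have : (A.adjoint : Set (K × H)) =
      ⋂ (p : H × K) (_ : p ∈ A), {z : K × H | ⟪p.2, z.1⟫_ℂ = ⟪p.1, z.2⟫_ℂ} := by
    ext ⟨u, f⟩
    simp only [SetLike.mem_coe, mem_adjoint, Set.mem_iInter, Set.mem_ofPred_eq, Prod.forall]
  rw [this]
  refine isClosed_biInter fun p _ => isClosed_eq (by fun_prop) (by fun_prop)

lemma mem_of_adjoint [CompleteSpace H] [CompleteSpace K] {A : Submodule ℂ (H × K)}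
    (hA : IsClosed (A : Set (H × K))) {f : H} {y : K}
    (h : ∀ v g, (v, g) ∈ A.adjoint → ⟪g, f⟫_ℂ = ⟪v, y⟫_ℂ) : (f, y) ∈ A := by
  let L : WithLp 2 (H × K) ≃L[ℂ] H × K := WithLp.prodContinuousLinearEquiv 2 ℂ H K
  let A' : Submodule ℂ (WithLp 2 (H × K)) := A.comap (L : WithLp 2 (H × K) →ₗ[ℂ] H × K)
  have hA' : IsClosed (A' : Set (WithLp 2 (H × K))) := hA.preimage L.continuous
  haveI : CompleteSpace A' := hA'.completeSpace_coe
  have h1 : WithLp.toLp 2 (f, y) ∈ A'ᗮᗮ := by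
    rw [Submodule.mem_orthogonal]
    intro w hw
    have h2 : (w.snd, -w.fst) ∈ A.adjoint := by
      rw [mem_adjoint]
      intro x z hxz
      have h3 : WithLp.toLp 2 (x, z) ∈ A' := hxz
      have h4 := (Submodule.mem_orthogonal _ _).mp hw _ h3
      rw [WithLp.prod_inner_apply] at h4
      simp only [WithLp.toLp_fst, WithLp.toLp_snd, WithLp.ofLp_fst, WithLp.ofLp_snd] at h4
      rw [inner_neg_right]
      linear_combination h4
    have h5 := h _ _ h2
    rw [inner_neg_left] at h5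
    rw [WithLp.prod_inner_apply]
    simp only [WithLp.toLp_fst, WithLp.toLp_snd, WithLp.ofLp_fst, WithLp.ofLp_snd]
    linear_combination - h5
  rw [Submodule.orthogonal_orthogonal] at h1
  exact h1

end adj

section complex

variable {H₀ H₁ H₂ : Type*}
  [NormedAddCommGroup H₀] [InnerProductSpace ℂ H₀] [CompleteSpace H₀]
  [NormedAddCommGroup H₁] [InnerProductSpace ℂ H₁] [CompleteSpace H₁]
  [NormedAddCommGroup H₂] [InnerProductSpace ℂ H₂] [CompleteSpace H₂]

/-- abstract form of the main functional-analytic step; `W` is `Dom A* ∩ Dom B` -/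
theorem discrete_of_form {W : Type*} [NormedAddCommGroup W] [InnerProductSpace ℂ W]
    [CompleteSpace W] [TopologicalSpace.SeparableSpace H₁]
    {A : Submodule ℂ (H₀ × H₁)} {B : Submodule ℂ (H₁ × H₂)}
    (hA : IsClosed (A : Set (H₀ × H₁))) (hB : IsClosed (B : Set (H₁ × H₂)))
    (hAB : ∀ x y, (x, y) ∈ A → (y, (0 : H₂)) ∈ B)
    (ι : W →L[ℂ] H₁) (p : W →L[ℂ] H₀) (q : W →L[ℂ] H₂)
    (hin : ∀ v w : W, ⟪v, w⟫_ℂ = ⟪ι v, ι w⟫_ℂ + (⟪p v, p w⟫_ℂ + ⟪q v, q w⟫_ℂ))
    (hW1 : ∀ w, (ι w, p w) ∈ A.adjoint) (hW2 : ∀ w, (ι w, q w) ∈ B)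
    (hW3 : ∀ u f g, (u, f) ∈ A.adjoint → (u, g) ∈ B → ∃ w, ι w = u ∧ p w = f ∧ q w = g)
    (S : H₁ →L[ℂ] H₀) (S' : H₂ →L[ℂ] H₁) (Q : H₁ →L[ℂ] H₁)
    (hS : CC S) (hS' : CC S') (hQ : CC Q)
    (hom : ∀ u g, (u, g) ∈ B → (S u, Q u - u - S' g) ∈ A) :
    HasDiscreteSpectrum (laplacianOf A B) := by
  -- the inclusion is completely continuous
  have hcc : CC ι := by
    intro w hw
    have h0 : WeaklyNull fun n => ι (w n) := hw.map ι
    have hf : WeaklyNull fun n => p (w n) := hw.map p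
    have hg : WeaklyNull fun n => q (w n) := hw.map q
    have key : ∀ n, ‖ι (w n)‖ ^ 2 ≤ ‖ι (w n)‖ * (‖Q (ι (w n))‖ + ‖S' (q (w n))‖) +
        ‖p (w n)‖ * ‖S (ι (w n))‖ := by
      intro n
      have h1 := hW1 (w n)
      have h2 := hW2 (w n)
      have h3 := hom _ _ h2
      have h4 := mem_adjoint.mp h1 _ _ h3
      set u := ι (w n)
      set f := p (w n)
      set g := q (w n)
      -- ⟪Q u - u - S' g, u⟫ = ⟪S u, f⟫
      rw [inner_sub_left, inner_sub_left] at h4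
      have h5 : (⟪u, u⟫_ℂ) = ⟪Q u, u⟫_ℂ - ⟪S' g, u⟫_ℂ - ⟪S u, f⟫_ℂ := by
        linear_combination - h4
      have h6 : ‖u‖ ^ 2 = ‖⟪u, u⟫_ℂ‖ := by
        rw [inner_self_eq_norm_sq_to_K]; simp
      rw [h6, h5]
      calc ‖⟪Q u, u⟫_ℂ - ⟪S' g, u⟫_ℂ - ⟪S u, f⟫_ℂ‖
          ≤ ‖⟪Q u, u⟫_ℂ‖ + ‖⟪S' g, u⟫_ℂ‖ + ‖⟪S u, f⟫_ℂ‖ :=
            (norm_sub_le _ _).trans (by gcongr; exact norm_sub_le _ _)
        _ ≤ ‖Q u‖ * ‖u‖ + ‖S' g‖ * ‖u‖ + ‖S u‖ * ‖f‖ := by
            gcongr <;> exact norm_inner_le_norm _ _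
        _ = ‖u‖ * (‖Q u‖ + ‖S' g‖) + ‖f‖ * ‖S u‖ := by ring
    obtain ⟨C, hC⟩ := h0.1
    obtain ⟨C', hC'⟩ := hf.1
    have lim : Tendsto (fun n => C * (‖Q (ι (w n))‖ + ‖S' (q (w n))‖) +
        C' * ‖S (ι (w n))‖) atTop (𝓝 0) := by
      have := (((hQ _ h0).add (hS' _ hg)).const_mul C).add ((hS _ h0).const_mul C')
      simpa using this
    have lim2 : Tendsto (fun n => ‖ι (w n)‖ ^ 2) atTop (𝓝 0) := by
      refine squeeze_zero (fun n => by positivity) (fun n => (key n).trans ?_) lim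
      gcongr
      · exact hC n
      · exact hC' n
    have := lim2.sqrt
    simpa using this
  -- the resolvent
  let ιa : H₁ →L[ℂ] W := ContinuousLinearMap.adjoint ι
  have adl : ∀ (y : H₁) (w : W), ⟪ιa y, w⟫_ℂ = ⟪y, ι w⟫_ℂ := fun y w =>
    ContinuousLinearMap.adjoint_inner_left ι w y
  have adr : ∀ (w : W) (y : H₁), ⟪w, ιa y⟫_ℂ = ⟪ι w, y⟫_ℂ := fun w y =>
    ContinuousLinearMap.adjoint_inner_right ι w y
  set T : H₁ →L[ℂ] H₁ := ι.comp ιa with hT
  have hTa : ∀ y, T y = ι (ιa y) := fun y => rfl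
  have hTcc : CC T := by
    intro x hx
    exact hcc _ (hx.map ιa)
  refine discrete_of_compact (T := T) hTcc.isCompactOperator ?_ ?_
  · intro x y
    change ⟪ι (ιa x), y⟫_ℂ = ⟪x, ι (ιa y)⟫_ℂ
    rw [← adr, adl]
  -- characterisation of `T`
  have char : ∀ (w : W) (y : H₁), w = ιa y ↔
      ∀ v : W, ⟪ι v, ι w⟫_ℂ + (⟪p v, p w⟫_ℂ + ⟪q v, q w⟫_ℂ) = ⟪ι v, y⟫_ℂ := by
    intro w y
    constructor
    · intro h v
      rw [← hin, h, adr]
    · intro h
      apply ext_inner_left ℂ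
      intro v
      rw [hin, h, adr]
  intro u z
  constructor
  · rintro ⟨f, g, y₁, y₂, h1, h2, h3, h4, h5⟩
    simp only at h1 h2 h3 h4 h5
    obtain ⟨w, hwu, hwf, hwg⟩ := hW3 u f g h1 h3
    have hw : w = ιa (z + u) := by
      rw [char]
      intro v
      have e1 := mem_adjoint.mp (hW1 v) _ _ h2
      have e2 := mem_adjoint.mp h4 _ _ (hW2 v)
      have e1' : ⟪p v, f⟫_ℂ = ⟪ι v, y₁⟫_ℂ := by
        rw [← inner_conj_symm, ← e1, inner_conj_symm]
      rw [hwu, hwf, hwg, e1', e2, h5, inner_add_right, inner_add_right]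
      ring
    rw [hTa, ← hw, hwu]
  · intro hu
    set w := ιa (z + u) with hw
    have hwu : ι w = u := by rw [hu, hTa]
    have hchar := (char w (z + u)).mp rfl
    have hchar' : ∀ v : W, ⟪p v, p w⟫_ℂ + ⟪q v, q w⟫_ℂ = ⟪ι v, z⟫_ℂ := by
      intro v
      have := hchar v
      rw [hwu, inner_add_right] at this
      linear_combination this
    -- closure of the range of `A`
    let R : Submodule ℂ H₁ := A.map (LinearMap.snd ℂ H₀ H₁)
    let M : Submodule ℂ H₁ := R.topologicalClosure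
    have hMc : IsClosed (M : Set H₁) := R.isClosed_topologicalClosure
    haveI : CompleteSpace M := hMc.completeSpace_coe
    have hMB : ∀ y ∈ M, (y, (0 : H₂)) ∈ B := by
      have hcl : IsClosed {y : H₁ | (y, (0 : H₂)) ∈ B} :=
        hB.preimage (by fun_prop : Continuous fun y : H₁ => (y, (0 : H₂)))
      have hsub : (R : Set H₁) ⊆ {y : H₁ | (y, (0 : H₂)) ∈ B} := by
        rintro y ⟨⟨a, b⟩, hab, rfl⟩
        exact hAB _ _ hab
      intro y hy
      have : y ∈ closure (R : Set H₁) := hy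
      exact closure_minimal hsub hcl this
    have hMA : ∀ y ∈ Mᗮ, (y, (0 : H₀)) ∈ A.adjoint := by
      intro y hy
      rw [mem_adjoint]
      intro a b hab
      rw [inner_zero_right]
      exact (Submodule.mem_orthogonal _ _).mp hy b
        (R.le_topologicalClosure ⟨(a, b), hab, rfl⟩)
    have hw1 := hW1 w
    have hw2 := hW2 w
    rw [hwu] at hw1 hw2
    refine ⟨p w, q w, M.starProjection z, z - M.starProjection z, hw1, ?_, hw2, ?_,
      by simp⟩
    · apply mem_of_adjoint hA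
      intro v f' hv
      -- replace v by its projection on M
      have h1 : v - M.starProjection v ∈ Mᗮ := by
        exact M.sub_starProjection_mem_orthogonal v
      have h2 : (M.starProjection v, f') ∈ A.adjoint := by
        have := A.adjoint.sub_mem hv (hMA _ h1)
        simpa using this
      have h3 : (M.starProjection v, (0 : H₂)) ∈ B :=
        hMB _ (M.starProjection_apply_mem v)
      obtain ⟨w', e1, e2, e3⟩ := hW3 _ _ _ h2 h3
      have h4 := hchar' w'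
      rw [e1, e2, e3, inner_zero_left, add_zero] at h4
      rw [h4]
      exact M.inner_starProjection_left_eq_right v z
    · rw [mem_adjoint]
      intro v g' hv
      have h1 : v - M.starProjection v ∈ Mᗮ := by
        exact M.sub_starProjection_mem_orthogonal v
      have h2 : (v - M.starProjection v, g') ∈ B := by
        have := B.sub_mem hv (hMB _ (M.starProjection_apply_mem v))
        simpa using this
      obtain ⟨w', e1, e2, e3⟩ := hW3 _ _ _ (hMA _ h1) h2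
      have h4 := hchar' w'
      rw [e1, e2, e3, inner_zero_left, zero_add] at h4
      rw [h4, inner_sub_left, inner_sub_right, M.inner_starProjection_left_eq_right v z]

/-- the form domain `Dom A* ∩ Dom B` with its graph norm -/
noncomputable def formDom (A : Submodule ℂ (H₀ × H₁)) (B : Submodule ℂ (H₁ × H₂)) :
    Submodule ℂ (WithLp 2 (H₁ × WithLp 2 (H₀ × H₂))) where
  carrier := {w | (w.fst, w.snd.fst) ∈ A.adjoint ∧ (w.fst, w.snd.snd) ∈ B}
  add_mem' := by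
    rintro a b ⟨h1, h2⟩ ⟨h3, h4⟩
    exact ⟨A.adjoint.add_mem h1 h3, B.add_mem h2 h4⟩
  zero_mem' := ⟨A.adjoint.zero_mem, B.zero_mem⟩
  smul_mem' := by
    rintro c a ⟨h1, h2⟩
    exact ⟨A.adjoint.smul_mem c h1, B.smul_mem c h2⟩

lemma isClosed_formDom (A : Submodule ℂ (H₀ × H₁)) {B : Submodule ℂ (H₁ × H₂)}
    (hB : IsClosed (B : Set (H₁ × H₂))) :
    IsClosed (formDom A B : Set (WithLp 2 (H₁ × WithLp 2 (H₀ × H₂)))) := by
  have c1 : Continuous fun w : WithLp 2 (H₁ × WithLp 2 (H₀ × H₂)) => (w.fst, w.snd.fst) :=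
    (WithLp.continuous_fst 2 _ _).prodMk
      ((WithLp.continuous_fst 2 _ _).comp (WithLp.continuous_snd 2 _ _))
  have c2 : Continuous fun w : WithLp 2 (H₁ × WithLp 2 (H₀ × H₂)) => (w.fst, w.snd.snd) :=
    (WithLp.continuous_fst 2 _ _).prodMk
      ((WithLp.continuous_snd 2 _ _).comp (WithLp.continuous_snd 2 _ _))
  exact ((isClosed_adjoint A).preimage c1).inter (hB.preimage c2)

/-- A Hilbert complex with a compact homotopy has a Laplacian with discrete spectrum. -/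
theorem discrete_of_homotopy [TopologicalSpace.SeparableSpace H₁]
    {A : Submodule ℂ (H₀ × H₁)} {B : Submodule ℂ (H₁ × H₂)}
    (hA : IsClosed (A : Set (H₀ × H₁))) (hB : IsClosed (B : Set (H₁ × H₂)))
    (hAB : ∀ x y, (x, y) ∈ A → (y, (0 : H₂)) ∈ B)
    (S : H₁ →L[ℂ] H₀) (S' : H₂ →L[ℂ] H₁) (Q : H₁ →L[ℂ] H₁)
    (hS : CC S) (hS' : CC S') (hQ : CC Q)
    (hom : ∀ u g, (u, g) ∈ B → (S u, Q u - u - S' g) ∈ A) :
    HasDiscreteSpectrum (laplacianOf A B) := by
  haveI : CompleteSpace (formDom A B) := (isClosed_formDom A hB).completeSpace_coe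
  refine discrete_of_form (W := ↥(formDom A B)) hA hB hAB
    ((WithLp.fstL 2 ℂ H₁ (WithLp 2 (H₀ × H₂))).comp (formDom A B).subtypeL)
    (((WithLp.fstL 2 ℂ H₀ H₂).comp (WithLp.sndL 2 ℂ H₁ (WithLp 2 (H₀ × H₂)))).comp
        (formDom A B).subtypeL)
    (((WithLp.sndL 2 ℂ H₀ H₂).comp (WithLp.sndL 2 ℂ H₁ (WithLp 2 (H₀ × H₂)))).comp
        (formDom A B).subtypeL)
    ?_ ?_ ?_ ?_ S S' Q hS hS' hQ hom
  · intro v w
    rw [Submodule.coe_inner, WithLp.prod_inner_apply, WithLp.prod_inner_apply]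
    rfl
  · exact fun w => w.2.1
  · exact fun w => w.2.2
  · exact fun u f g hf hg => ⟨⟨WithLp.toLp 2 (u, WithLp.toLp 2 (f, g)), hf, hg⟩, rfl, rfl, rfl⟩

end complex

end Pool.Agent.helper28.Hartogs
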