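import Pool.Agent.helper28.Hartogs.Spectrum

open MeasureTheory ContDiff

namespace Pool.Agent.helper28.Hartogs

/-- Increasing multi-indices `I = (i₁ < ⋯ < i_q)` in `{0, 1, 2, 3}`. -/
abbrev Idx (q : ℕ) : Type := Fin q ↪o Fin 4

/-- Coefficient vectors `(u_I)_I` of `q`-forms `∑ u_I dx^I` at a point, with the Euclidean
inner product (for which the `dx^I` are orthonormal). -/
abbrev Form (q : ℕ) : Type := EuclideanSpace ℂ (Idx q)

/-- The multi-index `J` with its `j`-th entry removed. -/
def face {q : ℕ} (J : Idx (q + 1)) (j : Fin (q + 1)) : Idx q := (Fin.succAboveOrderEmb j).trans J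

section generic

variable {E : Type} [NormedAddCommGroup E] [NormedSpace ℝ E] [MeasurableSpace E]

/-- The exterior derivative of a smooth form in the coordinates with coordinate vectors `b`:
`(dU)_J = ∑ j, (-1)^j ∂_{J j} U_{J without J j}`. -/
noncomputable def extDer (b : Fin 4 → E) {q : ℕ} (U : E → Form q) (x : E) : Form (q + 1) :=
  WithLp.toLp 2 fun J =>
    ∑ j : Fin (q + 1), (-1) ^ (j : ℕ) * fderiv ℝ (fun y => U y (face J j)) x (b (J j))

/-- `f = d u` on the open set `Ω` in the sense of distributions: for all smooth real functions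
`φ` with compact support in `Ω` and all multi-indices `J`,
`∫ φ f_J = - ∫ ∑ j, (-1)^j (∂_{J j} φ) u_{J without J j}`. -/
def IsWeakDer (b : Fin 4 → E) (Ω : Set E) (μ : Measure E) {q : ℕ} (u : E → Form q)
    (f : E → Form (q + 1)) : Prop :=
  ∀ (J : Idx (q + 1)) (φ : E → ℝ), ContDiff ℝ ∞ φ → HasCompactSupport φ → tsupport φ ⊆ Ω →
    ∫ x, φ x * f x J ∂μ =
      -∫ x, ∑ j : Fin (q + 1), (-1) ^ (j : ℕ) * (fderiv ℝ φ x (b (J j)) * u x (face J j)) ∂μ

/-- `u = U` and `f = dU` almost everywhere for a form `U` with smooth coefficients on the whole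
space. -/
def IsSmoothDer (b : Fin 4 → E) (μ : Measure E) {q : ℕ} (u : E → Form q)
    (f : E → Form (q + 1)) : Prop :=
  ∃ U : E → Form q, ContDiff ℝ ∞ U ∧ u =ᵐ[μ] U ∧ f =ᵐ[μ] extDer b U

end generic

/-- The Hartogs triangle `{(z₁, z₂) : |z₁| < |z₂| < 1}`. -/
def hartogs : Set (ℂ × ℂ) := {z | ‖z.1‖ < ‖z.2‖ ∧ ‖z.2‖ < 1}

/-- Lebesgue measure on the Hartogs triangle. -/
noncomputable def volT : Measure (ℂ × ℂ) := (volume : Measure (ℂ × ℂ)).restrict hartogs

/-- The standard basis `∂/∂x₁, ∂/∂y₁, ∂/∂x₂, ∂/∂y₂` of the real vector space `ℂ²`. -/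
noncomputable def e : Fin 4 → ℂ × ℂ := ![(1, 0), (Complex.I, 0), (0, 1), (0, Complex.I)]

/-- Square-integrable functions. -/
abbrev Ltwo {X : Type} [MeasurableSpace X] (μ : Measure X) (F : Type) [NormedAddCommGroup F] :
    Type := Lp F 2 μ

/-- A square-integrable function as a function. -/
noncomputable abbrev fnOf {X : Type} [MeasurableSpace X] {μ : Measure X} {F : Type}
    [NormedAddCommGroup F] (u : Ltwo μ F) : X → F := u

/-- The Hilbert space of `q`-forms on the Hartogs triangle with square-integrable coefficients. -/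
abbrev L2 (q : ℕ) : Type := Ltwo volT (Form q)

noncomputable instance instNormL2 (q : ℕ) : NormedAddCommGroup (L2 q) := Lp.instNormedAddCommGroup

noncomputable instance instInnerL2 (q : ℕ) : InnerProductSpace ℂ (L2 q) := L2.innerProductSpace

/-- The exterior derivative of smooth forms on `ℂ²`. -/
noncomputable def extD {q : ℕ} (U : ℂ × ℂ → Form q) (x : ℂ × ℂ) : Form (q + 1) := extDer e U x

/-- `f = d u` on the Hartogs triangle in the sense of distributions. -/
def IsWeakD {q : ℕ} (u : L2 q) (f : L2 (q + 1)) : Prop :=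
  IsWeakDer e hartogs volT (fnOf u) (fnOf f)

/-- `(u, f)` is the restriction to the Hartogs triangle of `(U, dU)` with `U` smooth on `ℂ²`. -/
def IsSmoothD {q : ℕ} (u : L2 q) (f : L2 (q + 1)) : Prop :=
  IsSmoothDer e volT (fnOf u) (fnOf f)

end Pool.Agent.helper28.Hartogs
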