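import Pool.Agent.helper28.Hartogs.Pair

open MeasureTheory Set ContDiff
open scoped InnerProductSpace

namespace Pool.Agent.helper28.Hartogs

section lemmas

variable {q : ℕ} {J : Idx (q + 1)} {φ : ℂ × ℂ → ℝ}

lemma integral_sum_pair (h1 : ContDiff ℝ ∞ φ) (h2 : HasCompactSupport φ) (u : L2 q) :
    ∫ x, ∑ j : Fin (q + 1), (-1) ^ (j : ℕ) * (fderiv ℝ φ x (e (J j)) * u x (face J j)) ∂volT =
      ∑ j : Fin (q + 1), (-1) ^ (j : ℕ) *
        ∫ x, (fderiv ℝ φ x (e (J j)) : ℂ) * u x (face J j) ∂volT := by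
  rw [integral_finsetSum]
  · exact Finset.sum_congr rfl fun j _ => integral_const_mul _ _
  · exact fun j _ => (integrable_pair (memLp_fderiv h1 h2 _) u _).const_mul _

/-- the functional defining the weak exterior derivative -/
lemma exists_functional (J : Idx (q + 1)) (h1 : ContDiff ℝ ∞ φ) (h2 : HasCompactSupport φ) :
    ∃ L : L2 q × L2 (q + 1) →L[ℂ] ℂ, ∀ p, L p = ∫ x, φ x * p.2 x J ∂volT +
      ∫ x, ∑ j : Fin (q + 1), (-1) ^ (j : ℕ) *
        (fderiv ℝ φ x (e (J j)) * p.1 x (face J j)) ∂volT := by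
  obtain ⟨L₀, hL₀⟩ := exists_pair (memLp_ofReal h1.continuous h2) J
  choose M hM using fun j : Fin (q + 1) => exists_pair (memLp_fderiv h1 h2 (e (J j))) (face J j)
  refine ⟨L₀.comp (ContinuousLinearMap.snd ℂ _ _) +
    (∑ j : Fin (q + 1), ((-1 : ℂ) ^ (j : ℕ)) • M j).comp (ContinuousLinearMap.fst ℂ _ _),
    fun p => ?_⟩
  rw [integral_sum_pair h1 h2]
  simp only [_root_.add_apply, ContinuousLinearMap.comp_apply, ContinuousLinearMap.coe_snd',
    ContinuousLinearMap.coe_fst', _root_.sum_apply, _root_.smul_apply, smul_eq_mul,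
    hL₀, hM]

lemma isWeakD_iff {u : L2 q} {f : L2 (q + 1)} :
    IsWeakD u f ↔ ∀ (L : L2 q × L2 (q + 1) →L[ℂ] ℂ) (J : Idx (q + 1)) (φ : ℂ × ℂ → ℝ),
      ContDiff ℝ ∞ φ → HasCompactSupport φ → tsupport φ ⊆ hartogs →
      (∀ p, L p = ∫ x, φ x * p.2 x J ∂volT +
      ∫ x, ∑ j : Fin (q + 1), (-1) ^ (j : ℕ) *
        (fderiv ℝ φ x (e (J j)) * p.1 x (face J j)) ∂volT) → L (u, f) = 0 := by
  constructor
  · intro h L J φ h1 h2 h3 hL
    rw [hL, h J φ h1 h2 h3]
    ring
  · intro h J φ h1 h2 h3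
    obtain ⟨L, hL⟩ := exists_functional J h1 h2
    have h4 := h L J φ h1 h2 h3 hL
    rw [hL] at h4
    exact eq_neg_of_add_eq_zero_left h4

end lemmas

/-- The weak maximal extension `d` of the exterior derivative from `q`-forms to `(q+1)`-forms on
the Hartogs triangle, as a graph. -/
noncomputable def weakD (q : ℕ) : Gr (L2 q) (L2 (q + 1)) := graphOf IsWeakD
  (by
    rw [isWeakD_iff]
    intro L J φ h1 h2 h3 hL
    exact map_zero L)
  (by
    intro a b a' b' ha hb
    rw [isWeakD_iff] at *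
    intro L J φ h1 h2 h3 hL
    have := congrArg₂ (· + ·) (ha L J φ h1 h2 h3 hL) (hb L J φ h1 h2 h3 hL)
    simp only [← map_add, add_zero] at this
    exact this)
  (by
    intro c a b ha
    rw [isWeakD_iff] at *
    intro L J φ h1 h2 h3 hL
    have := congrArg (c • ·) (ha L J φ h1 h2 h3 hL)
    simp only [← map_smul, smul_zero] at this
    exact this)

lemma isSmoothD_iff {q : ℕ} {u : L2 q} {f : L2 (q + 1)} : IsSmoothD u f ↔
    ∃ U : ℂ × ℂ → Form q, ContDiff ℝ ∞ U ∧ (u : ℂ × ℂ → Form q) =ᵐ[volT] U ∧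
      (f : ℂ × ℂ → Form (q + 1)) =ᵐ[volT] extD U := Iff.rfl

/-- Pairs `(U, dU)` where `U` is the restriction to the Hartogs triangle of a form with smooth
coefficients on `ℂ²`. -/
noncomputable def smoothPairs (q : ℕ) : Gr (L2 q) (L2 (q + 1)) := graphOf IsSmoothD
  (by
    rw [isSmoothD_iff]
    refine ⟨0, contDiff_const, Lp.coeFn_zero _ _ _, ?_⟩
    filter_upwards [Lp.coeFn_zero (Form (q + 1)) 2 volT] with x e1
    rw [e1]
    ext J
    change (0 : ℂ) = ∑ j : Fin (q + 1), (-1) ^ (j : ℕ) *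
      fderiv ℝ (fun y => (0 : ℂ)) x (e (J j))
    simp)
  (by
    intro a b a' b' hab hab'
    rw [isSmoothD_iff] at *
    obtain ⟨U, hU, h1, h2⟩ := hab
    obtain ⟨V, hV, h3, h4⟩ := hab'
    refine ⟨U + V, hU.add hV, ?_, ?_⟩
    · filter_upwards [Lp.coeFn_add a a', h1, h3] with x e1 e2 e3
      rw [e1, Pi.add_apply, Pi.add_apply, e2, e3]
    · filter_upwards [Lp.coeFn_add b b', h2, h4] with x e1 e2 e3
      rw [e1, Pi.add_apply, e2, e3]
      ext J
      change ∑ j : Fin (q + 1), (-1) ^ (j : ℕ) * fderiv ℝ (fun y => U y (face J j)) x (e (J j)) +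
        ∑ j : Fin (q + 1), (-1) ^ (j : ℕ) * fderiv ℝ (fun y => V y (face J j)) x (e (J j)) =
        ∑ j : Fin (q + 1), (-1) ^ (j : ℕ) *
          fderiv ℝ (fun y => U y (face J j) + V y (face J j)) x (e (J j))
      rw [← Finset.sum_add_distrib]
      refine Finset.sum_congr rfl fun j _ => ?_
      have d1 : DifferentiableAt ℝ (fun y => U y (face J j)) x :=
        ((contDiff_piLp 2).mp hU (face J j)).differentiable (by simp) x
      have d2 : DifferentiableAt ℝ (fun y => V y (face J j)) x :=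
        ((contDiff_piLp 2).mp hV (face J j)).differentiable (by simp) x
      rw [fderiv_fun_add d1 d2, _root_.add_apply]
      ring)
  (by
    intro c a b hab
    rw [isSmoothD_iff] at *
    obtain ⟨U, hU, h1, h2⟩ := hab
    refine ⟨c • U, contDiff_const.smul hU, ?_, ?_⟩
    · filter_upwards [Lp.coeFn_smul c a, h1] with x e1 e2
      rw [e1, Pi.smul_apply, Pi.smul_apply, e2]
    · filter_upwards [Lp.coeFn_smul c b, h2] with x e1 e2
      rw [e1, Pi.smul_apply, e2]
      ext J
      change c * ∑ j : Fin (q + 1), (-1) ^ (j : ℕ) * fderiv ℝ (fun y => U y (face J j)) x (e (J j)) =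
        ∑ j : Fin (q + 1), (-1) ^ (j : ℕ) *
          fderiv ℝ (fun y => c * U y (face J j)) x (e (J j))
      rw [Finset.mul_sum]
      refine Finset.sum_congr rfl fun j _ => ?_
      have d1 : DifferentiableAt ℝ (fun y => U y (face J j)) x :=
        ((contDiff_piLp 2).mp hU (face J j)).differentiable (by simp) x
      rw [fderiv_const_mul d1, _root_.smul_apply, smul_eq_mul]
      ring)

/-- The strong maximal extension `d_s` of the exterior derivative from `q`-forms to
`(q+1)`-forms on the Hartogs triangle, as a graph: the closure of the pairs `(U, dU)` with `U`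
smooth up to the boundary. -/
noncomputable def strongD (q : ℕ) : Gr (L2 q) (L2 (q + 1)) := (smoothPairs q).topologicalClosure

end Pool.Agent.helper28.Hartogs
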