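import Pool.Agent.helper28.Hartogs.Homotopy

open MeasureTheory Module Set
open scoped ENNReal NNReal

namespace Pool.Agent.helper28.Hartogs

noncomputable instance instHaarCC : (volume : Measure (ℂ × ℂ)).IsAddHaarMeasure :=
  Measure.prod.instIsAddHaarMeasure _ _

lemma isOpen_hartogs : IsOpen hartogs := by
  have h1 : IsOpen {z : ℂ × ℂ | ‖z.1‖ < ‖z.2‖} := isOpen_lt (by fun_prop) (by fun_prop)
  have h2 : IsOpen {z : ℂ × ℂ | ‖z.2‖ < 1} := isOpen_lt (by fun_prop) (by fun_prop)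
  exact h1.inter h2

lemma measurableSet_hartogs : MeasurableSet hartogs := isOpen_hartogs.measurableSet

lemma snd_ne_zero {z : ℂ × ℂ} (hz : z ∈ hartogs) : z.2 ≠ 0 := by
  intro h
  have := hz.1
  rw [h, norm_zero] at this
  exact absurd this (not_lt.mpr (norm_nonneg _))

lemma norm_lt_one {z : ℂ × ℂ} (hz : z ∈ hartogs) : ‖z‖ < 1 := by
  rw [Prod.norm_def]
  exact max_lt (hz.1.trans hz.2) hz.2

lemma hartogs_subset_ball : hartogs ⊆ Metric.ball 0 1 := fun z hz => by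
  rw [mem_ball_zero_iff]; exact norm_lt_one hz

/-- averaging set for the parameter -/
def ballB : Set (ℂ × ℂ) := Metric.ball ((0, 1 / 2) : ℂ × ℂ) (1 / 8)

lemma ballB_fst {ζ : ℂ × ℂ} (h : ζ ∈ ballB) : ‖ζ.1‖ < 1 / 8 := by
  have := h
  rw [ballB, mem_ball_iff_norm, Prod.norm_def] at this
  have h1 := lt_of_le_of_lt (le_max_left _ _) this
  simpa using h1

lemma ballB_snd {ζ : ℂ × ℂ} (h : ζ ∈ ballB) : ‖ζ.2 - 1 / 2‖ < 1 / 8 := by
  have := h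
  rw [ballB, mem_ball_iff_norm, Prod.norm_def] at this
  exact lt_of_le_of_lt (le_max_right _ _) this

lemma ballB_re {ζ : ℂ × ℂ} (h : ζ ∈ ballB) : 3 / 8 < ζ.2.re := by
  have h1 := ballB_snd h
  have h2 := (Complex.abs_re_le_norm (ζ.2 - 1 / 2)).trans_lt h1
  rw [abs_lt] at h2
  have h3 : (ζ.2 - 1 / 2).re = ζ.2.re - 1 / 2 := by simp
  rw [h3] at h2
  linarith [h2.1]

lemma ballB_norm_snd {ζ : ℂ × ℂ} (h : ζ ∈ ballB) : ‖ζ.2‖ < 5 / 8 := by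
  have h1 := ballB_snd h
  have h2 : ‖ζ.2‖ ≤ ‖ζ.2 - 1 / 2‖ + ‖(1 / 2 : ℂ)‖ := by
    calc ‖ζ.2‖ = ‖(ζ.2 - 1 / 2) + 1 / 2‖ := by congr 1; ring
      _ ≤ _ := norm_add_le _ _
  have h3 : ‖(1 / 2 : ℂ)‖ = 1 / 2 := by simp
  rw [h3] at h2
  linarith

lemma ballB_norm {ζ : ℂ × ℂ} (h : ζ ∈ ballB) : ‖ζ‖ < 5 / 8 := by
  rw [Prod.norm_def]
  exact max_lt ((ballB_fst h).trans (by norm_num)) (ballB_norm_snd h)

lemma nu_mul_norm {z : ℂ × ℂ} (hz : z.2 ≠ 0) : nu z * (‖z.2‖ : ℂ) = z.2 := by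
  have : (‖z.2‖ : ℂ) ≠ 0 := by simpa using hz
  rw [nu, mul_assoc, inv_mul_cancel₀ this, mul_one]

lemma Psi_mem {z ζ : ℂ × ℂ} {t : ℝ} (hz : z ∈ hartogs) (h0 : 0 ≤ t) (h1 : t ≤ 1)
    (hζ : ζ ∈ ballB) : Psi (t, ζ, z) ∈ hartogs := by
  have hz2 := snd_ne_zero hz
  have hz1 := hz.1
  have hzz := hz.2
  have hn := norm_nu hz2
  have e1 : (Psi (t, ζ, z)).1 = ((1 - t : ℝ) : ℂ) * z.1 + (t : ℂ) * (nu z * ζ.1) := by
    simp [Psi]
  have e2 : (Psi (t, ζ, z)).2 = nu z * (((1 - t) * ‖z.2‖ : ℝ) + (t : ℂ) * ζ.2) := by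
    have : (Psi (t, ζ, z)).2 = ((1 - t : ℝ) : ℂ) * z.2 + (t : ℂ) * (nu z * ζ.2) := by
      simp [Psi]
    rw [this]
    conv_lhs => rw [← nu_mul_norm hz2]
    push_cast
    ring
  have n1 : ‖(Psi (t, ζ, z)).1‖ ≤ (1 - t) * ‖z.1‖ + t * ‖ζ.1‖ := by
    rw [e1]
    refine (norm_add_le _ _).trans ?_
    rw [norm_mul, norm_mul, norm_mul, hn, Complex.norm_real, Complex.norm_real, one_mul,
      Real.norm_of_nonneg (by linarith), Real.norm_of_nonneg h0]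
  have n2 : ‖(Psi (t, ζ, z)).2‖ = ‖(((1 - t) * ‖z.2‖ : ℝ) : ℂ) + (t : ℂ) * ζ.2‖ := by
    rw [e2, norm_mul, hn, one_mul]
  have n3 : (1 - t) * ‖z.2‖ + t * ζ.2.re ≤ ‖(Psi (t, ζ, z)).2‖ := by
    rw [n2]
    have := Complex.re_le_norm ((((1 - t) * ‖z.2‖ : ℝ) : ℂ) + (t : ℂ) * ζ.2)
    rw [Complex.add_re, Complex.ofReal_re, Complex.re_ofReal_mul] at this
    exact this
  have n4 : ‖(Psi (t, ζ, z)).2‖ ≤ (1 - t) * ‖z.2‖ + t * ‖ζ.2‖ := by
    rw [n2]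
    refine (norm_add_le _ _).trans ?_
    rw [norm_mul, Complex.norm_real, Complex.norm_real, Real.norm_of_nonneg h0,
      Real.norm_of_nonneg (by have := norm_nonneg z.2; nlinarith)]
  have b1 := ballB_fst hζ
  have b2 := ballB_re hζ
  have b3 := ballB_norm_snd hζ
  constructor
  · refine lt_of_le_of_lt n1 (lt_of_lt_of_le ?_ n3)
    rcases h0.eq_or_lt with rfl | ht
    · simpa using hz1
    · have : t * ‖ζ.1‖ < t * ζ.2.re := by
        apply mul_lt_mul_of_pos_left _ ht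
        linarith
      have : (1 - t) * ‖z.1‖ ≤ (1 - t) * ‖z.2‖ := by
        apply mul_le_mul_of_nonneg_left hz1.le
        linarith
      linarith
  · refine lt_of_le_of_lt n4 ?_
    rcases h0.eq_or_lt with rfl | ht
    · simpa using hzz
    · have : t * ‖ζ.2‖ < t * 1 := by
        apply mul_lt_mul_of_pos_left _ ht
        linarith
      have : (1 - t) * ‖z.2‖ ≤ (1 - t) * 1 := by
        apply mul_le_mul_of_nonneg_left hzz.le
        linarith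
      linarith

lemma norm_Vel_le {z ζ : ℂ × ℂ} {t : ℝ} (hz : z ∈ hartogs) (hζ : ζ ∈ ballB) :
    ‖Vel (t, ζ, z)‖ ≤ 2 := by
  have hn := norm_nu (snd_ne_zero hz)
  calc ‖Vel (t, ζ, z)‖ ≤ ‖nu z • ζ‖ + ‖z‖ := norm_sub_le _ _
    _ ≤ 1 + 1 := by
        rw [norm_smul, hn, one_mul]
        have := ballB_norm hζ
        have := norm_lt_one hz
        linarith
    _ = 2 := by norm_num

lemma Psi_sub {z ζ : ℂ × ℂ} {t : ℝ} : Psi (t, ζ, z) - z = t • Vel (t, ζ, z) := by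
  simp only [Psi, Vel]
  rw [smul_sub, sub_smul, one_smul]
  abel

lemma norm_Psi_sub {z ζ : ℂ × ℂ} {t : ℝ} (hz : z ∈ hartogs) (h0 : 0 ≤ t)
    (hζ : ζ ∈ ballB) : ‖Psi (t, ζ, z) - z‖ ≤ 2 * t := by
  rw [Psi_sub, norm_smul, Real.norm_of_nonneg h0]
  have := norm_Vel_le (t := t) hz hζ
  nlinarith

end Pool.Agent.helper28.Hartogs
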