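import Pool.Agent.helper28.Hartogs.HomWeak

open MeasureTheory Set ContDiff Filter Topology
open scoped InnerProductSpace ENNReal NNReal

namespace Pool.Agent.helper28.Hartogs

section cutoff

/-- a bump function -/
noncomputable def bmp : ContDiffBump (0 : ℂ) := ⟨1, 2, one_pos, by norm_num⟩

/-- cut-off near the axis -/
noncomputable def chi (n : ℕ) (z : ℂ × ℂ) : ℝ := 1 - bmp ((n + 1 : ℝ) • z.2)

lemma contDiff_chi (n : ℕ) : ContDiff ℝ ∞ (chi n) := by
  have h1 : ContDiff ℝ ∞ fun z : ℂ × ℂ => (n + 1 : ℝ) • z.2 := by fun_prop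
  exact contDiff_const.sub (bmp.contDiff.comp h1)

/-- the region where the cut-off is not one -/
def strip (n : ℕ) : Set (ℂ × ℂ) := {z | z.2 ∈ Metric.closedBall (0 : ℂ) (2 / (n + 1))}

lemma measurableSet_strip (n : ℕ) : MeasurableSet (strip n) :=
  measurable_snd Metric.isClosed_closedBall.measurableSet

lemma isClosed_strip (n : ℕ) : IsClosed (strip n) :=
  Metric.isClosed_closedBall.preimage continuous_snd

lemma chi_of_notMem {n : ℕ} {z : ℂ × ℂ} (hz : z ∉ strip n) : chi n z = 1 := by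
  have h0 : (0 : ℝ) < n + 1 := by positivity
  have h1 : 2 / ((n : ℝ) + 1) < ‖z.2‖ := by
    simpa [strip] using hz
  have h2 : (2 : ℝ) ≤ ‖((n + 1 : ℝ) • z.2 : ℂ)‖ := by
    rw [norm_smul, Real.norm_of_nonneg h0.le]
    rw [div_lt_iff₀ h0] at h1
    linarith
  have h3 : bmp ((n + 1 : ℝ) • z.2) = 0 := by
    refine bmp.zero_of_le_dist ?_
    rw [dist_zero_right]
    exact h2
  rw [chi, h3, sub_zero]

lemma chi_eq_zero_near {n : ℕ} {z : ℂ × ℂ} (hz : z.2 = 0) : ∀ᶠ y in 𝓝 z, chi n y = 0 := by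
  have h0 : (0 : ℝ) < n + 1 := by positivity
  have h1 : ∀ᶠ y : ℂ × ℂ in 𝓝 z, ‖((n + 1 : ℝ) • y.2 : ℂ)‖ < 1 := by
    have hc : Continuous fun y : ℂ × ℂ => ‖((n + 1 : ℝ) • y.2 : ℂ)‖ := by fun_prop
    have := hc.tendsto z
    rw [hz, smul_zero, norm_zero] at this
    exact this.eventually (gt_mem_nhds one_pos)
  filter_upwards [h1] with y hy
  have h3 : bmp ((n + 1 : ℝ) • y.2) = 1 := by
    refine bmp.one_of_mem_closedBall ?_
    rw [mem_closedBall_zero_iff]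
    exact hy.le
  rw [chi, h3, sub_self]

lemma chi_sub_one (n : ℕ) (z : ℂ × ℂ) : |chi n z - 1| ≤ 1 := by
  rw [chi, sub_sub_cancel_left, abs_neg, abs_of_nonneg bmp.nonneg]
  exact bmp.le_one

lemma fderiv_chi (n : ℕ) (z v : ℂ × ℂ) :
    fderiv ℝ (chi n) z v = -fderiv ℝ bmp ((n + 1 : ℝ) • z.2) ((n + 1 : ℝ) • v.2) := by
  have h1 : HasFDerivAt bmp (fderiv ℝ bmp ((n + 1 : ℝ) • z.2)) ((n + 1 : ℝ) • z.2) :=
    ((bmp.contDiff (n := 1)).differentiable (by simp) _).hasFDerivAt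
  have h2 : HasFDerivAt (fun y : ℂ × ℂ => (n + 1 : ℝ) • y.2)
      ((n + 1 : ℝ) • ContinuousLinearMap.snd ℝ ℂ ℂ) z :=
    (hasFDerivAt_snd (𝕜 := ℝ) (p := z)).const_smul (n + 1 : ℝ)
  have h3 : HasFDerivAt (chi n) _ z := (h1.comp z h2).const_sub 1
  rw [h3.fderiv]
  rfl

lemma exists_fderiv_chi_bound : ∃ C : ℝ, 0 ≤ C ∧ ∀ (n : ℕ) (z v : ℂ × ℂ), ‖v‖ ≤ 1 →
    |fderiv ℝ (chi n) z v| ≤ C * (n + 1) := by
  obtain ⟨C, hC⟩ := (bmp.hasCompactSupport.fderiv ℝ).exists_bound_of_continuous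
    ((bmp.contDiff (n := 1)).continuous_fderiv (by simp))
  refine ⟨max C 0, le_max_right _ _, fun n z v hv => ?_⟩
  have h0 : (0 : ℝ) < n + 1 := by positivity
  rw [fderiv_chi, abs_neg, ← Real.norm_eq_abs]
  refine (ContinuousLinearMap.le_opNorm _ _).trans ?_
  rw [norm_smul, Real.norm_of_nonneg h0.le]
  have h1 : ‖v.2‖ ≤ 1 := (le_max_right _ _).trans hv
  calc ‖fderiv ℝ bmp ((n + 1 : ℝ) • z.2)‖ * ((n + 1) * ‖v.2‖)
      ≤ max C 0 * ((n + 1) * 1) := by
        gcongr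
        exact (hC _).trans (le_max_left _ _)
    _ = _ := by ring

lemma fderiv_chi_of_notMem {n : ℕ} {z : ℂ × ℂ} (hz : z ∉ strip n) (v : ℂ × ℂ) :
    fderiv ℝ (chi n) z v = 0 := by
  have h1 : chi n =ᶠ[𝓝 z] fun _ => 1 := by
    filter_upwards [(isClosed_strip n).isOpen_compl.mem_nhds hz] with y hy
    exact chi_of_notMem hy
  rw [h1.fderiv_eq]
  simp

end cutoff

section measure

lemma one_le_inv {z : ℂ × ℂ} (hz : z ∈ hartogs) : 1 ≤ (‖z.2‖ₑ)⁻¹ := by
  rw [ENNReal.one_le_inv, ← ofReal_norm, ← ENNReal.ofReal_one]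
  exact ENNReal.ofReal_le_ofReal hz.2.le

lemma lintegral_strip (n : ℕ) :
    ∫⁻ z, ((strip n).indicator (fun z => (‖z.2‖ₑ⁻¹) ^ 2) z) ∂volT ≤
      ENNReal.ofReal (2 / (n + 1)) ^ 2 * (NNReal.pi * NNReal.pi) := by
  refine (lintegral_weight Metric.isClosed_closedBall.measurableSet).trans (le_of_eq ?_)
  rw [Complex.volume_closedBall]
  ring

lemma volT_strip (n : ℕ) :
    volT (strip n) ≤ ENNReal.ofReal (2 / (n + 1)) ^ 2 * (NNReal.pi * NNReal.pi) := by
  refine le_trans ?_ (lintegral_strip n)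
  rw [← lintegral_indicator_one (measurableSet_strip n)]
  refine lintegral_mono_ae ?_
  filter_upwards [ae_restrict_mem (μ := volume) measurableSet_hartogs] with z hz
  by_cases h : z ∈ strip n
  · rw [indicator_of_mem h, indicator_of_mem h]
    exact one_le_pow₀ (one_le_inv hz)
  · rw [indicator_of_notMem h, indicator_of_notMem h]

lemma tendsto_volT_strip : Tendsto (fun n => volT (strip n)) atTop (𝓝 0) := by
  have h1 : Tendsto (fun n : ℕ => ENNReal.ofReal (2 / ((n : ℝ) + 1)) ^ 2 *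
      ((NNReal.pi : ℝ≥0∞) * NNReal.pi)) atTop
      (𝓝 (ENNReal.ofReal 0 ^ 2 * ((NNReal.pi : ℝ≥0∞) * NNReal.pi))) := by
    refine ENNReal.Tendsto.mul_const ?_ (Or.inr (by simp [ENNReal.mul_eq_top]))
    refine ((ENNReal.continuous_pow 2).tendsto _).comp ?_
    refine (ENNReal.continuous_ofReal.tendsto 0).comp ?_
    have := (tendsto_one_div_add_atTop_nhds_zero_nat (𝕜 := ℝ)).const_mul 2
    simpa [div_eq_mul_inv] using this
  rw [ENNReal.ofReal_zero, zero_pow two_ne_zero, zero_mul] at h1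
  exact tendsto_of_tendsto_of_tendsto_of_le_of_le tendsto_const_nhds h1 (fun _ => bot_le)
    volT_strip

/-- bounded sequences supported in the shrinking strips tend weakly to zero -/
lemma tendsto_inner_of_strip {q : ℕ} {a : ℕ → L2 q} {B : ℝ} (hB : ∀ n, ‖a n‖ ≤ B)
    (hs : ∀ n, ∀ᵐ x ∂volT, x ∉ strip n → a n x = 0) (v : L2 q) :
    Tendsto (fun n => ⟪a n, v⟫_ℂ) atTop (𝓝 0) := by
  have hB0 : 0 ≤ B := (norm_nonneg _).trans (hB 0)
  have hmem : ∀ n, MemLp ((strip n).indicator (v : ℂ × ℂ → Form q)) 2 volT := fun n =>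
    (Lp.memLp v).indicator (measurableSet_strip n)
  have h1 : ∀ n, ⟪a n, v⟫_ℂ = ⟪a n, (hmem n).toLp _⟫_ℂ := by
    intro n
    rw [L2.inner_def, L2.inner_def]
    refine integral_congr_ae ?_
    filter_upwards [hs n, (hmem n).coeFn_toLp] with x h2 h3
    rw [h3]
    by_cases hx : x ∈ strip n
    · rw [indicator_of_mem hx]
    · rw [indicator_of_notMem hx, h2 hx, inner_zero_left, inner_zero_left]
  have h2 : ∀ n, ‖(hmem n).toLp _‖ₑ ^ 2 = ∫⁻ x in strip n, ‖v x‖ₑ ^ 2 ∂volT := by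
    intro n
    rw [Lp.enorm_def, eLpNorm_two_sq, ← lintegral_indicator (measurableSet_strip n)]
    refine lintegral_congr_ae ?_
    filter_upwards [(hmem n).coeFn_toLp] with x h3
    rw [h3]
    by_cases hx : x ∈ strip n
    · rw [indicator_of_mem hx, indicator_of_mem hx]
    · rw [indicator_of_notMem hx, indicator_of_notMem hx]; simp
  have h3 : Tendsto (fun n => ‖(hmem n).toLp _‖ₑ ^ 2) atTop (𝓝 0) := by
    simp only [h2]
    exact tendsto_setLIntegral_zero (Ker.coe_lint v).ne tendsto_volT_strip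
  have h4 : Tendsto (fun n => ‖(hmem n).toLp _‖) atTop (𝓝 0) := by
    have h5 : Tendsto (fun n => (‖(hmem n).toLp _‖ₑ ^ 2).toReal) atTop (𝓝 (0 : ℝ≥0∞).toReal) :=
      (ENNReal.tendsto_toReal ENNReal.zero_ne_top).comp h3
    simp only [ENNReal.toReal_pow, toReal_enorm, ENNReal.toReal_zero] at h5
    simpa using h5.sqrt
  refine squeeze_zero_norm (a := fun n => B * ‖(hmem n).toLp _‖) (fun n => ?_) ?_
  · rw [h1]
    refine (norm_inner_le_norm _ _).trans ?_
    gcongr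
    exact hB n
  · simpa using h4.const_mul B

lemma add_sq_le (a b : ℝ≥0∞) : (a + b) ^ 2 ≤ 4 * (a ^ 2 + b ^ 2) := by
  rcases le_total a b with h | h
  · calc (a + b) ^ 2 ≤ (b + b) ^ 2 := by gcongr
      _ = 4 * b ^ 2 := by ring
      _ ≤ 4 * (a ^ 2 + b ^ 2) := by gcongr; exact le_add_self
  · calc (a + b) ^ 2 ≤ (a + a) ^ 2 := by gcongr
      _ = 4 * a ^ 2 := by ring
      _ ≤ 4 * (a ^ 2 + b ^ 2) := by gcongr; exact le_self_add

lemma norm_le_of_lintegral {q : ℕ} {a : L2 q} {B : ℝ≥0∞} (hB : B ≠ ⊤)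
    (h : ∫⁻ x, ‖a x‖ₑ ^ 2 ∂volT ≤ B) : ‖a‖ ≤ Real.sqrt B.toReal := by
  rw [← eLpNorm_two_sq, ← Lp.enorm_def] at h
  have h1 := ENNReal.toReal_mono hB h
  rw [ENNReal.toReal_pow, toReal_enorm] at h1
  exact Real.le_sqrt_of_sq_le h1

lemma lintegral_coe_sq {q : ℕ} (a : L2 q) : ∫⁻ x, ‖a x‖ₑ ^ 2 ∂volT = ‖a‖ₑ ^ 2 := by
  rw [← eLpNorm_two_sq, ← Lp.enorm_def]

/-- restriction of a continuous form -/
lemma exists_restrict {q : ℕ} {U : ℂ × ℂ → Form q} (hU : Continuous U) :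
    ∃ v : L2 q, v =ᵐ[volT] U := by
  obtain ⟨v, hv⟩ := exists_cut hU (isCompact_closedBall (0 : ℂ × ℂ) 1)
  refine ⟨v, ?_⟩
  filter_upwards [hv, ae_restrict_mem (μ := volume) measurableSet_hartogs] with x h1 h2
  rw [h1, indicator_of_mem]
  rw [mem_closedBall_zero_iff]
  exact (norm_lt_one h2).le

end measure

section product

variable {p : ℕ} {V : ℂ × ℂ → Form p}

/-- the commutator of the exterior derivative with the cut-off -/
noncomputable def rest (n : ℕ) (V : ℂ × ℂ → Form p) (x : ℂ × ℂ) : Form (p + 1) :=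
  WithLp.toLp 2 fun J => ∑ j : Fin (p + 1), (-1) ^ (j : ℕ) *
    ((fderiv ℝ (chi n) x (e (J j)) : ℂ) * V x (face J j))

lemma extD_cut (n : ℕ) (hV : ContDiffOn ℝ ∞ V offAxis) {x : ℂ × ℂ} (hx : x ∈ offAxis) :
    extD (fun y => chi n y • V y) x = chi n x • extD V x + rest n V x := by
  ext J
  change ∑ j : Fin (p + 1), (-1) ^ (j : ℕ) *
      fderiv ℝ (fun y => chi n y • V y (face J j)) x (e (J j)) =
    chi n x • (∑ j : Fin (p + 1), (-1) ^ (j : ℕ) * fderiv ℝ (fun y => V y (face J j)) x (e (J j)))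
      + ∑ j : Fin (p + 1), (-1) ^ (j : ℕ) *
    ((fderiv ℝ (chi n) x (e (J j)) : ℂ) * V x (face J j))
  rw [Finset.smul_sum, ← Finset.sum_add_distrib]
  refine Finset.sum_congr rfl fun j _ => ?_
  have h1 : HasFDerivAt (fun y => V y (face J j)) (fderiv ℝ (fun y => V y (face J j)) x) x :=
    ((((contDiffOn_piLp 2).mp hV (face J j)).contDiffAt
      (isOpen_offAxis.mem_nhds hx)).differentiableAt (by simp)).hasFDerivAt
  have h2 : HasFDerivAt (chi n) (fderiv ℝ (chi n) x) x :=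
    ((contDiff_chi n).differentiable (by simp) x).hasFDerivAt
  have h3 : HasFDerivAt (fun y => chi n y • V y (face J j)) _ x := h2.smul h1
  rw [h3.fderiv]
  simp only [_root_.add_apply, _root_.smul_apply, ContinuousLinearMap.smulRight_apply,
    Complex.real_smul]
  ring

lemma contDiff_cut (n : ℕ) (hV : ContDiffOn ℝ ∞ V offAxis) :
    ContDiff ℝ ∞ fun y => chi n y • V y := by
  rw [contDiff_iff_contDiffAt]
  intro x
  by_cases hx : x.2 = 0
  · have h1 : (fun y => chi n y • V y) =ᶠ[𝓝 x] fun _ => 0 := by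
      filter_upwards [chi_eq_zero_near (n := n) hx] with y hy
      rw [hy, zero_smul]
    exact contDiffAt_const.congr_of_eventuallyEq h1
  · exact (contDiff_chi n).contDiffAt.smul (hV.contDiffAt (isOpen_offAxis.mem_nhds hx))

lemma rest_of_notMem {n : ℕ} {x : ℂ × ℂ} (hx : x ∉ strip n) : rest n V x = 0 := by
  ext J
  change ∑ j : Fin (p + 1), (-1) ^ (j : ℕ) *
    ((fderiv ℝ (chi n) x (e (J j)) : ℂ) * V x (face J j)) = 0
  simp [fderiv_chi_of_notMem hx]

lemma exists_rest_bound (p : ℕ) : ∃ C : ℝ≥0, ∀ (n : ℕ) (V : ℂ × ℂ → Form p) (x : ℂ × ℂ),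
    ‖rest n V x‖ₑ ≤ C * ENNReal.ofReal (n + 1) * ‖V x‖ₑ := by
  obtain ⟨C, hC, h⟩ := exists_fderiv_chi_bound
  obtain ⟨D, hD, h'⟩ := exists_toLp_bound (p + 1)
  refine ⟨⟨D * ((p + 1) * C), by positivity⟩, fun n V x => ?_⟩
  have h0 : (0 : ℝ) ≤ (n : ℝ) + 1 := by positivity
  have h1 : ‖rest n V x‖ ≤ D * ((p + 1) * C) * (n + 1) * ‖V x‖ := by
    have h2 := h' (fun J => ∑ j : Fin (p + 1), (-1) ^ (j : ℕ) *
      ((fderiv ℝ (chi n) x (e (J j)) : ℂ) * V x (face J j)))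
      ((p + 1) * (C * (n + 1) * ‖V x‖)) (by positivity) ?_
    · refine h2.trans (le_of_eq ?_)
      ring
    · intro J
      calc ‖∑ j : Fin (p + 1), (-1 : ℂ) ^ (j : ℕ) *
            ((fderiv ℝ (chi n) x (e (J j)) : ℂ) * V x (face J j))‖
          ≤ ∑ _j : Fin (p + 1), C * (n + 1) * ‖V x‖ := by
            refine (norm_sum_le _ _).trans (Finset.sum_le_sum fun j _ => ?_)
            rw [norm_mul, norm_pow, norm_neg, norm_one, one_pow, one_mul, norm_mul,
              Complex.norm_real]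
            gcongr
            · exact h n x _ (norm_e _)
            · exact PiLp.norm_apply_le (V x) (face J j)
        _ = _ := by simp
  rw [← ofReal_norm, ← ofReal_norm]
  refine (ENNReal.ofReal_le_ofReal h1).trans (le_of_eq ?_)
  rw [ENNReal.ofReal_mul (by positivity), ENNReal.ofReal_mul (by positivity)]
  congr 2
  exact ENNReal.ofReal_eq_coe_nnreal _

end product

end Pool.Agent.helper28.Hartogs
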