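import Pool.Agent.helper28.Hartogs.HomStrong
import Pool.Agent.helper28.Hartogs.Complex

open MeasureTheory Set ContDiff Filter Topology
open scoped InnerProductSpace ENNReal NNReal

namespace Pool.Agent.helper28.Hartogs

/-- the homotopy operator on continuous forms is bounded by a multiple of `1 / |z₂|` -/
lemma exists_avgS_bound (p : ℕ) {U : ℂ × ℂ → Form (p + 1)} (hU : Continuous U) :
    ∃ C : ℝ≥0, ∀ z ∈ hartogs,
      ‖avg (vecS p) (volume.restrict (Ioc 0 1)) U z‖ₑ ≤ C * ‖z.2‖ₑ⁻¹ := by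
  obtain ⟨M, hM⟩ := (isCompact_closedBall (0 : ℂ × ℂ) 1).exists_bound_of_continuousOn
    hU.continuousOn
  obtain ⟨C, hC⟩ : ∃ C : ℝ≥0, (kerS p).m = wgt C := ⟨_, rfl⟩
  set κ := par (volume.restrict (Ioc (0 : ℝ) 1)) with hκ
  refine ⟨2 * C * M.toNNReal * (κ univ).toNNReal, fun z hz => ?_⟩
  rw [← fn_kerS_eq p U hz]
  have h1 : ∀ᵐ θ ∂κ, ‖(kerS p).A (z, θ) (U ((kerS p).phi (z, θ)))‖ₑ ≤
      2 * C * M.toNNReal * ‖z.2‖ₑ⁻¹ := by
    filter_upwards [ae_par ae_Ioc] with θ hθ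
    refine ((kerS p).bound _ _).trans ?_
    have e1 : (kerS p).m (z, θ) ≤ 2 * C * ‖z.2‖ₑ⁻¹ := by
      rw [hC, wgt]
      calc (C : ℝ≥0∞) * (1 + ENNReal.ofReal θ.1 * ‖z.2‖ₑ⁻¹)
          ≤ C * (‖z.2‖ₑ⁻¹ + 1 * ‖z.2‖ₑ⁻¹) := by
            gcongr
            · exact one_le_inv hz
            · rw [← ENNReal.ofReal_one]
              exact ENNReal.ofReal_le_ofReal hθ.1.2
        _ = _ := by ring
    have e2 : ‖U ((kerS p).phi (z, θ))‖ₑ ≤ M.toNNReal := by
      have h2 : (kerS p).phi (z, θ) ∈ hartogs := Psi_mem hz hθ.1.1 hθ.1.2 hθ.2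
      have h3 := hM _ (show (kerS p).phi (z, θ) ∈ Metric.closedBall (0 : ℂ × ℂ) 1 by
        rw [mem_closedBall_zero_iff]; exact (norm_lt_one h2).le)
      rw [← ofReal_norm]
      exact ENNReal.ofReal_le_ofReal h3
    calc (kerS p).m (z, θ) * ‖U ((kerS p).phi (z, θ))‖ₑ
        ≤ (2 * C * ‖z.2‖ₑ⁻¹) * M.toNNReal := by gcongr
      _ = _ := by ring
  calc ‖(kerS p).fn κ U z‖ₑ ≤ ∫⁻ θ, ‖(kerS p).A (z, θ) (U ((kerS p).phi (z, θ)))‖ₑ ∂κ :=
        enorm_integral_le_lintegral_enorm _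
    _ ≤ ∫⁻ _θ, 2 * C * M.toNNReal * ‖z.2‖ₑ⁻¹ ∂κ := lintegral_mono_ae h1
    _ = _ := by
        rw [lintegral_const]
        push_cast
        rw [ENNReal.coe_toNNReal (measure_ne_top κ _)]
        ring

/-- uniform bound for the commutator terms -/
lemma exists_rest_lintegral {p : ℕ} {V : ℂ × ℂ → Form p} {C : ℝ≥0}
    (hV : ∀ z ∈ hartogs, ‖V z‖ₑ ≤ C * ‖z.2‖ₑ⁻¹) :
    ∃ B : ℝ≥0∞, B ≠ ⊤ ∧ ∀ n, ∫⁻ x, ‖rest n V x‖ₑ ^ 2 ∂volT ≤ B := by
  obtain ⟨D, hD⟩ := exists_rest_bound p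
  refine ⟨(D * C : ℝ≥0∞) ^ 2 * (4 * ((NNReal.pi : ℝ≥0∞) * NNReal.pi)), ?_, fun n => ?_⟩
  · refine ENNReal.mul_ne_top (ENNReal.pow_ne_top (ENNReal.mul_ne_top ENNReal.coe_ne_top
      ENNReal.coe_ne_top)) (ENNReal.mul_ne_top (by norm_num) (ENNReal.mul_ne_top
      ENNReal.coe_ne_top ENNReal.coe_ne_top))
  · have h0 : (0 : ℝ) < (n : ℝ) + 1 := by positivity
    calc ∫⁻ x, ‖rest n V x‖ₑ ^ 2 ∂volT
        ≤ ∫⁻ x, (D * C * ENNReal.ofReal (n + 1)) ^ 2 *
            ((strip n).indicator (fun z => (‖z.2‖ₑ⁻¹) ^ 2) x) ∂volT := by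
          refine lintegral_mono_ae ?_
          filter_upwards [ae_restrict_mem (μ := volume) measurableSet_hartogs] with x hx
          by_cases hs : x ∈ strip n
          · rw [indicator_of_mem hs, ← mul_pow]
            gcongr
            calc ‖rest n V x‖ₑ ≤ D * ENNReal.ofReal (n + 1) * ‖V x‖ₑ := hD n V x
              _ ≤ D * ENNReal.ofReal (n + 1) * (C * ‖x.2‖ₑ⁻¹) := by gcongr; exact hV x hx
              _ = _ := by ring
          · rw [rest_of_notMem hs]
            simp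
      _ = (D * C * ENNReal.ofReal (n + 1)) ^ 2 *
            ∫⁻ x, ((strip n).indicator (fun z => (‖z.2‖ₑ⁻¹) ^ 2) x) ∂volT := by
          rw [lintegral_const_mul]
          exact Measurable.indicator (by fun_prop) (measurableSet_strip n)
      _ ≤ (D * C * ENNReal.ofReal (n + 1)) ^ 2 *
            (ENNReal.ofReal (2 / (n + 1)) ^ 2 * (NNReal.pi * NNReal.pi)) := by
          gcongr
          exact lintegral_strip n
      _ = (D * C : ℝ≥0∞) ^ 2 * ((ENNReal.ofReal (n + 1) * ENNReal.ofReal (2 / (n + 1))) ^ 2 *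
            (NNReal.pi * NNReal.pi)) := by ring
      _ = _ := by
          rw [← ENNReal.ofReal_mul h0.le, mul_div_cancel₀ _ h0.ne']
          have : ENNReal.ofReal 2 = 2 := by simp
          rw [this]
          norm_num

/-- the homotopy property for smooth forms, with values in the strong domain -/
lemma hom_strong_smooth (p : ℕ) {u : L2 (p + 1)} {f : L2 (p + 2)}
    (h : (u, f) ∈ smoothPairs (p + 1)) :
    (opS p u, opQ (p + 1) u - u - opS (p + 1) f) ∈ strongD p := by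
  obtain ⟨U, hU, hu, hf⟩ := h
  simp only at hu hf
  replace hf : (f : ℂ × ℂ → Form (p + 2)) =ᵐ[volT] extD U := hf
  replace hu : (u : ℂ × ℂ → Form (p + 1)) =ᵐ[volT] U := hu
  set V := avg (vecS p) (volume.restrict (Ioc 0 1)) U with hV
  have hVs : ContDiffOn ℝ ∞ V offAxis := contDiffOn_avg ae_Ioc (smoothV_vecS p) hU
  set s := opS p u with hs
  set G := opQ (p + 1) u - u - opS (p + 1) f with hG
  -- identification of the operators with the averages
  have hsV : ∀ᵐ x ∂volT, s x = V x := by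
    filter_upwards [Ker.op_coeFn (schurS p).choose_spec u, (schurS p).choose_spec.fn_congr hu,
      ae_restrict_mem (μ := volume) measurableSet_hartogs] with x a b hx
    rw [hV, ← fn_kerS_eq p U hx, ← b, ← a]
    rfl
  have hGV : ∀ᵐ x ∂volT, G x = extD V x := by
    filter_upwards [Ker.op_coeFn (schurQ (p + 1)).choose_spec u,
      (schurQ (p + 1)).choose_spec.fn_congr hu,
      Ker.op_coeFn (schurS (p + 1)).choose_spec f, (schurS (p + 1)).choose_spec.fn_congr hf,
      hu, Lp.coeFn_sub (opQ (p + 1) u - u) (opS (p + 1) f),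
      Lp.coeFn_sub (opQ (p + 1) u) u,
      ae_restrict_mem (μ := volume) measurableSet_hartogs] with x a1 b1 a2 b2 hux a4 a5 hx
    rw [hG, a4, Pi.sub_apply, a5, Pi.sub_apply, hux, hV,
      extD_avg hU (hartogs_subset_offAxis hx)]
    have c1 : opQ (p + 1) u x = avg (vecQ (p + 1)) (Measure.dirac 1) U x := by
      rw [← fn_kerQ_eq (p + 1) U hx, ← b1, ← a1]; rfl
    have c2 : opS (p + 1) f x = avg (vecS (p + 1)) (volume.restrict (Ioc 0 1)) (extD U) x := by
      rw [← fn_kerS_eq (p + 1) (extD U) hx, ← b2, ← a2]; rfl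
    rw [c1, c2]
  -- the approximating smooth pairs
  have hcs : ∀ n, ContDiff ℝ ∞ fun y => chi n y • V y := fun n => contDiff_cut n hVs
  choose x hx using fun n => exists_restrict (hcs n).continuous
  choose y hy using fun n => exists_restrict (contDiff_extD (hcs n)).continuous
  have hxy : ∀ n, (x n, y n) ∈ strongD p := fun n =>
    (smoothPairs p).le_topologicalClosure ⟨_, hcs n, hx n, hy n⟩
  obtain ⟨C, hC⟩ := exists_avgS_bound p hU.continuous
  obtain ⟨B, hB, hB'⟩ := exists_rest_lintegral hC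
  -- differences
  have dx : ∀ n, ∀ᵐ z ∂volT, (x n - s) z = (chi n z - 1) • s z := by
    intro n
    filter_upwards [Lp.coeFn_sub (x n) s, hx n, hsV] with z a b c
    rw [a, Pi.sub_apply, b, c, sub_smul, one_smul]
  have dy : ∀ n, ∀ᵐ z ∂volT, (y n - G) z = (chi n z - 1) • G z + rest n V z := by
    intro n
    filter_upwards [Lp.coeFn_sub (y n) G, hy n, hGV,
      ae_restrict_mem (μ := volume) measurableSet_hartogs] with z a b c hz
    rw [a, Pi.sub_apply, b, c, extD_cut n hVs (hartogs_subset_offAxis hz), sub_smul, one_smul]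
    abel
  have hchi : ∀ (n : ℕ) (z : ℂ × ℂ), ‖chi n z - 1‖ₑ ≤ 1 := by
    intro n z
    rw [← ofReal_norm, Real.norm_eq_abs, ← ENNReal.ofReal_one]
    exact ENNReal.ofReal_le_ofReal (chi_sub_one n z)
  apply mem_of_adjoint (isClosed_strongD p)
  intro v g hvg
  have key : ∀ n, ⟪y n, v⟫_ℂ = ⟪x n, g⟫_ℂ := fun n => mem_adjoint.mp hvg _ _ (hxy n)
  have t1 : Tendsto (fun n => ⟪x n - s, g⟫_ℂ) atTop (𝓝 0) := by
    refine tendsto_inner_of_strip (B := Real.sqrt (‖s‖ₑ ^ 2).toReal) (fun n => ?_)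
      (fun n => ?_) g
    · refine norm_le_of_lintegral (ENNReal.pow_ne_top enorm_ne_top) ?_
      rw [← lintegral_coe_sq s]
      refine lintegral_mono_ae ?_
      filter_upwards [dx n] with z hz
      rw [hz, enorm_smul]
      gcongr
      calc ‖chi n z - 1‖ₑ * ‖s z‖ₑ ≤ 1 * ‖s z‖ₑ := by gcongr; exact hchi n z
        _ = _ := one_mul _
    · filter_upwards [dx n] with z hz hzs
      rw [hz, chi_of_notMem hzs, sub_self, zero_smul]
  have t2 : Tendsto (fun n => ⟪y n - G, v⟫_ℂ) atTop (𝓝 0) := by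
    refine tendsto_inner_of_strip (B := Real.sqrt (4 * (‖G‖ₑ ^ 2 + B)).toReal) (fun n => ?_)
      (fun n => ?_) v
    · refine norm_le_of_lintegral (ENNReal.mul_ne_top (by norm_num)
        (ENNReal.add_ne_top.mpr ⟨ENNReal.pow_ne_top enorm_ne_top, hB⟩)) ?_
      calc ∫⁻ z, ‖(y n - G) z‖ₑ ^ 2 ∂volT
          ≤ ∫⁻ z, 4 * (‖G z‖ₑ ^ 2 + ‖rest n V z‖ₑ ^ 2) ∂volT := by
            refine lintegral_mono_ae ?_
            filter_upwards [dy n] with z hz
            rw [hz]
            refine le_trans ?_ (add_sq_le _ _)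
            gcongr
            refine (enorm_add_le _ _).trans ?_
            gcongr
            rw [enorm_smul]
            calc ‖chi n z - 1‖ₑ * ‖G z‖ₑ ≤ 1 * ‖G z‖ₑ := by gcongr; exact hchi n z
              _ = _ := one_mul _
        _ = 4 * (∫⁻ z, ‖G z‖ₑ ^ 2 ∂volT + ∫⁻ z, ‖rest n V z‖ₑ ^ 2 ∂volT) := by
            rw [lintegral_const_mul' _ _ (by norm_num), lintegral_add_left]
            exact (Ker.coe_measurable G).enorm.pow_const 2
        _ ≤ 4 * (‖G‖ₑ ^ 2 + B) := by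
            rw [lintegral_coe_sq G]
            gcongr
            exact hB' n
    · filter_upwards [dy n] with z hz hzs
      rw [hz, chi_of_notMem hzs, sub_self, zero_smul, rest_of_notMem hzs, add_zero]
  have t3 : Tendsto (fun n => ⟪y n - G, v⟫_ℂ - ⟪x n - s, g⟫_ℂ) atTop (𝓝 0) := by
    simpa using t2.sub t1
  have t4 : ∀ n, ⟪y n - G, v⟫_ℂ - ⟪x n - s, g⟫_ℂ = ⟪s, g⟫_ℂ - ⟪G, v⟫_ℂ := by
    intro n
    rw [inner_sub_left (y n) G v, inner_sub_left (x n) s g, key n]
    ring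
  simp only [t4] at t3
  have t5 : ⟪s, g⟫_ℂ - ⟪G, v⟫_ℂ = 0 := tendsto_nhds_unique tendsto_const_nhds t3
  rw [← inner_conj_symm, ← inner_conj_symm v G, sub_eq_zero.mp t5]

/-- the homotopy property for the strong exterior derivative -/
theorem hom_strong (p : ℕ) (u : L2 (p + 1)) (f : L2 (p + 2)) (h : (u, f) ∈ strongD (p + 1)) :
    (opS p u, opQ (p + 1) u - u - opS (p + 1) f) ∈ strongD p := by
  have hc : Continuous fun w : L2 (p + 1) × L2 (p + 2) =>
      (opS p w.1, opQ (p + 1) w.1 - w.1 - opS (p + 1) w.2) :=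
    ((opS p).continuous.comp continuous_fst).prodMk
      ((((opQ (p + 1)).continuous.comp continuous_fst).sub continuous_fst).sub
        ((opS (p + 1)).continuous.comp continuous_snd))
  have hcl : IsClosed {w : L2 (p + 1) × L2 (p + 2) |
      (opS p w.1, opQ (p + 1) w.1 - w.1 - opS (p + 1) w.2) ∈ strongD p} :=
    (isClosed_strongD p).preimage hc
  have hsub : (smoothPairs (p + 1) : Set (L2 (p + 1) × L2 (p + 2))) ⊆
      {w : L2 (p + 1) × L2 (p + 2) |
      (opS p w.1, opQ (p + 1) w.1 - w.1 - opS (p + 1) w.2) ∈ strongD p} := by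
    rintro ⟨a, b⟩ hab
    exact hom_strong_smooth p hab
  have h' : (u, f) ∈ closure (smoothPairs (p + 1) : Set (L2 (p + 1) × L2 (p + 2))) := h
  have h2 := closure_minimal hsub hcl h'
  exact h2

end Pool.Agent.helper28.Hartogs
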