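import Pool.Agent.helper28.Hartogs.Approx

open MeasureTheory Set ContDiff Filter Topology
open scoped InnerProductSpace ENNReal NNReal

namespace Pool.Agent.helper28.Hartogs

section geometry

lemma closedB_fst {ζ : ℂ × ℂ} (h : ζ ∈ Metric.closedBall ((0, 1 / 2) : ℂ × ℂ) (1 / 8)) :
    ‖ζ.1‖ ≤ 1 / 8 := by
  rw [mem_closedBall_iff_norm, Prod.norm_def] at h
  have h1 := (le_max_left _ _).trans h
  simpa using h1

lemma closedB_snd {ζ : ℂ × ℂ} (h : ζ ∈ Metric.closedBall ((0, 1 / 2) : ℂ × ℂ) (1 / 8)) :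
    ‖ζ.2 - 1 / 2‖ ≤ 1 / 8 := by
  rw [mem_closedBall_iff_norm, Prod.norm_def] at h
  exact (le_max_right _ _).trans h

lemma closedB_re {ζ : ℂ × ℂ} (h : ζ ∈ Metric.closedBall ((0, 1 / 2) : ℂ × ℂ) (1 / 8)) :
    3 / 8 ≤ ζ.2.re := by
  have h1 := closedB_snd h
  have h2 := (Complex.abs_re_le_norm (ζ.2 - 1 / 2)).trans h1
  rw [abs_le] at h2
  have h3 : (ζ.2 - 1 / 2).re = ζ.2.re - 1 / 2 := by simp
  rw [h3] at h2
  linarith [h2.1]

lemma closedB_norm {ζ : ℂ × ℂ} (h : ζ ∈ Metric.closedBall ((0, 1 / 2) : ℂ × ℂ) (1 / 8)) :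
    ‖ζ.2‖ ≤ 5 / 8 := by
  have h1 := closedB_snd h
  have h2 : ‖ζ.2‖ ≤ ‖ζ.2 - 1 / 2‖ + ‖(1 / 2 : ℂ)‖ := by
    calc ‖ζ.2‖ = ‖(ζ.2 - 1 / 2) + 1 / 2‖ := by congr 1; ring
      _ ≤ _ := norm_add_le _ _
  have h3 : ‖(1 / 2 : ℂ)‖ = 1 / 2 := by simp
  rw [h3] at h2
  linarith

lemma Psi_mem_closed {z ζ : ℂ × ℂ} {t : ℝ} (hz : z ∈ hartogs) (h0 : 0 ≤ t) (h1 : t ≤ 1)
    (hζ : ζ ∈ Metric.closedBall ((0, 1 / 2) : ℂ × ℂ) (1 / 8)) : Psi (t, ζ, z) ∈ hartogs := by
  have hz2 := snd_ne_zero hz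
  have hz1 := hz.1
  have hzz := hz.2
  have hn := norm_nu hz2
  have e1 : (Psi (t, ζ, z)).1 = ((1 - t : ℝ) : ℂ) * z.1 + (t : ℂ) * (nu z * ζ.1) := by
    simp [Psi]
  have e2 : (Psi (t, ζ, z)).2 = nu z * (((1 - t) * ‖z.2‖ : ℝ) + (t : ℂ) * ζ.2) := by
    have : (Psi (t, ζ, z)).2 = ((1 - t : ℝ) : ℂ) * z.2 + (t : ℂ) * (nu z * ζ.2) := by
      simp [Psi]
    rw [this]
    conv_lhs => rw [← nu_mul_norm hz2]
    push_cast
    ring
  have n1 : ‖(Psi (t, ζ, z)).1‖ ≤ (1 - t) * ‖z.1‖ + t * ‖ζ.1‖ := by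
    rw [e1]
    refine (norm_add_le _ _).trans ?_
    rw [norm_mul, norm_mul, norm_mul, hn, Complex.norm_real, Complex.norm_real, one_mul,
      Real.norm_of_nonneg (by linarith), Real.norm_of_nonneg h0]
  have n2 : ‖(Psi (t, ζ, z)).2‖ = ‖(((1 - t) * ‖z.2‖ : ℝ) : ℂ) + (t : ℂ) * ζ.2‖ := by
    rw [e2, norm_mul, hn, one_mul]
  have n3 : (1 - t) * ‖z.2‖ + t * ζ.2.re ≤ ‖(Psi (t, ζ, z)).2‖ := by
    rw [n2]
    have := Complex.re_le_norm ((((1 - t) * ‖z.2‖ : ℝ) : ℂ) + (t : ℂ) * ζ.2)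
    rw [Complex.add_re, Complex.ofReal_re, Complex.re_ofReal_mul] at this
    exact this
  have n4 : ‖(Psi (t, ζ, z)).2‖ ≤ (1 - t) * ‖z.2‖ + t * ‖ζ.2‖ := by
    rw [n2]
    refine (norm_add_le _ _).trans ?_
    rw [norm_mul, Complex.norm_real, Complex.norm_real, Real.norm_of_nonneg h0,
      Real.norm_of_nonneg (by have := norm_nonneg z.2; nlinarith)]
  have b1 := closedB_fst hζ
  have b2 := closedB_re hζ
  have b3 := closedB_norm hζ
  constructor
  · refine lt_of_le_of_lt n1 (lt_of_lt_of_le ?_ n3)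
    rcases h0.eq_or_lt with rfl | ht
    · simpa using hz1
    · have : t * ‖ζ.1‖ < t * ζ.2.re := by
        apply mul_lt_mul_of_pos_left _ ht
        linarith
      have : (1 - t) * ‖z.1‖ ≤ (1 - t) * ‖z.2‖ := by
        apply mul_le_mul_of_nonneg_left hz1.le
        linarith
      linarith
  · refine lt_of_le_of_lt n4 ?_
    rcases h0.eq_or_lt with rfl | ht
    · simpa using hzz
    · have : t * ‖ζ.2‖ < t * 1 := by
        apply mul_lt_mul_of_pos_left _ ht
        linarith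
      have : (1 - t) * ‖z.2‖ ≤ (1 - t) * 1 := by
        apply mul_le_mul_of_nonneg_left hzz.le
        linarith
      linarith

/-- the compact set swept out by the homotopy -/
def sweep (K : Set (ℂ × ℂ)) : Set (ℂ × ℂ) := (fun y => Psi (toX y)) '' (K ×ˢ parK)

lemma sweep_subset {K : Set (ℂ × ℂ)} (hKT : K ⊆ hartogs) : sweep K ⊆ hartogs := by
  rintro x ⟨⟨z, t, ζ⟩, ⟨hz, ht, hζ⟩, rfl⟩
  exact Psi_mem_closed (hKT hz) ht.1 ht.2 hζ

lemma isCompact_sweep {K : Set (ℂ × ℂ)} (hK : IsCompact K) (hKT : K ⊆ hartogs) :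
    IsCompact (sweep K) := by
  refine (hK.prod isCompact_parK).image_of_continuousOn ?_
  refine (contDiffOn_comp_toX (f := Psi) fun X hX => contDiffAt_Psi hX).continuousOn.mono ?_
  exact prod_mono (hKT.trans hartogs_subset_offAxis) (subset_univ _)

end geometry

section locality

variable {q r : ℕ} {K : Ker (ℝ × (ℂ × ℂ)) (ℂ × ℂ) (Form q) (Form r)}

/-- locality of the kernel operators -/
lemma fn_local (hphi : K.phi = fun y => Psi (toX y)) (hA : ∀ y ∉ good, ∀ w, K.A y w = 0)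
    {κ : Measure (ℝ × (ℂ × ℂ))} {K₀ : Set (ℂ × ℂ)} (u : ℂ × ℂ → Form q) {z : ℂ × ℂ}
    (hz : z ∈ K₀) : K.fn κ ((sweep K₀).indicator u) z = K.fn κ u z := by
  refine integral_congr_ae (Eventually.of_forall fun θ => ?_)
  by_cases hy : (z, θ) ∈ good
  · have : K.phi (z, θ) ∈ sweep K₀ := by
      rw [hphi]
      exact ⟨(z, θ), ⟨hz, hy.2.1, Metric.ball_subset_closedBall hy.2.2⟩, rfl⟩
    simp only
    rw [indicator_of_mem this]
  · simp only
    rw [hA _ hy, hA _ hy]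

lemma op_local (hphi : K.phi = fun y => Psi (toX y)) (hA : ∀ y ∉ good, ∀ w, K.A y w = 0)
    {κ : Measure (ℝ × (ℂ × ℂ))} [IsFiniteMeasure κ] {C : ℝ≥0} (h : K.Schur volT κ C)
    {K₀ : Set (ℂ × ℂ)} {u : L2 q} {v : ℂ × ℂ → Form q}
    (huv : ∀ᵐ x ∂volT, x ∈ sweep K₀ → u x = v x) :
    ∀ᵐ z ∂volT, z ∈ K₀ → Ker.op h u z = K.fn κ v z := by
  have h1 : (sweep K₀).indicator (u : ℂ × ℂ → Form q) =ᵐ[volT] (sweep K₀).indicator v := by
    filter_upwards [huv] with x hx
    by_cases hxs : x ∈ sweep K₀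
    · rw [indicator_of_mem hxs, indicator_of_mem hxs, hx hxs]
    · rw [indicator_of_notMem hxs, indicator_of_notMem hxs]
  filter_upwards [Ker.op_coeFn h u, h.fn_congr h1] with z e1 e2 hz
  rw [e1, ← fn_local hphi hA (u : ℂ × ℂ → Form q) hz, e2, fn_local hphi hA v hz]

lemma fn_add {κ : Measure (ℝ × (ℂ × ℂ))} [IsFiniteMeasure κ] {C : ℝ≥0} (h : K.Schur volT κ C)
    (u v : L2 q) : K.fn κ (fun x => u x + v x) =ᵐ[volT] fun z => Ker.op h u z + Ker.op h v z := by
  filter_upwards [h.fn_congr (Lp.coeFn_add u v), Ker.op_coeFn h (u + v), Ker.op_coeFn h u,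
    Ker.op_coeFn h v, Lp.coeFn_add (Ker.op h u) (Ker.op h v)] with z e1 e2 e3 e4 e5
  have e6 : K.fn κ (fun x => u x + v x) z = Ker.op h (u + v) z := by
    rw [e2, e1]; rfl
  rw [e6, map_add, e5]
  rfl

end locality

lemma kerS_zero (p : ℕ) : ∀ y ∉ good, ∀ w, (kerS p).A y w = 0 := fun _ hy _ => if_neg hy

lemma kerQ_zero (q : ℕ) : ∀ y ∉ good, ∀ w, (kerQ q).A y w = 0 := fun _ hy _ => if_neg hy

/-- restriction of a continuous form to a compact set, as an element of `L²` -/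
lemma exists_cut {q : ℕ} {U : ℂ × ℂ → Form q} (hU : Continuous U) {K : Set (ℂ × ℂ)}
    (hK : IsCompact K) : ∃ v : L2 q, v =ᵐ[volT] K.indicator U := by
  obtain ⟨C, hC⟩ := hK.exists_bound_of_continuousOn hU.continuousOn
  have h1 : MemLp (K.indicator U) 2 volT := by
    refine MemLp.of_bound ((hU.aestronglyMeasurable).indicator hK.measurableSet) (max C 0)
      (Eventually.of_forall fun x => ?_)
    by_cases hx : x ∈ K
    · rw [indicator_of_mem hx]; exact (hC x hx).trans (le_max_left _ _)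
    · rw [indicator_of_notMem hx, norm_zero]; exact le_max_right _ _
  exact ⟨h1.toLp _, h1.coeFn_toLp⟩

/-- a test function vanishes outside its support, so integrals against it are local -/
lemma integral_congr_on {φ : ℂ × ℂ → ℝ} {g h : ℂ × ℂ → ℂ}
    (hgh : ∀ᵐ z ∂volT, z ∈ tsupport φ → g z = h z) :
    ∫ x, (φ x : ℂ) * g x ∂volT = ∫ x, (φ x : ℂ) * h x ∂volT := by
  refine integral_congr_ae ?_
  filter_upwards [hgh] with z hz
  by_cases hzs : z ∈ tsupport φ
  · rw [hz hzs]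
  · rw [image_eq_zero_of_notMem_tsupport hzs]; simp

/-- the homotopy property for the weak exterior derivative -/
theorem hom_weak (p : ℕ) (u : L2 (p + 1)) (f : L2 (p + 2)) (h : (u, f) ∈ weakD (p + 1)) :
    (opS p u, opQ (p + 1) u - u - opS (p + 1) f) ∈ weakD p := by
  change IsWeakD (opS p u) (opQ (p + 1) u - u - opS (p + 1) f)
  rw [isWeakD_iff]
  intro L J φ h1 h2 h3 hL
  -- the functional of `(u, f)`
  let M : L2 (p + 1) × L2 (p + 2) →L[ℂ] ℂ := L.comp (((opS p).comp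
    (ContinuousLinearMap.fst ℂ _ _)).prod
    ((opQ (p + 1)).comp (ContinuousLinearMap.fst ℂ _ _) - ContinuousLinearMap.fst ℂ _ _ -
      (opS (p + 1)).comp (ContinuousLinearMap.snd ℂ _ _)))
  have hM : ∀ u f, M (u, f) = L (opS p u, opQ (p + 1) u - u - opS (p + 1) f) := fun _ _ => rfl
  rw [← hM]
  set K₀ := tsupport φ with hK₀
  have hK₀c : IsCompact K₀ := h2
  -- support of the derivatives
  have hdt : ∀ v, tsupport (fun y => fderiv ℝ φ y v) ⊆ K₀ := fun v =>
    tsupport_fderiv_apply_subset ℝ v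
  -- formula for `M` when `u = U` and `f = dU` on the swept set
  have hzero : ∀ (v : L2 (p + 1)) (g : L2 (p + 2)) (U : ℂ × ℂ → Form (p + 1)),
      ContDiff ℝ ∞ U → (∀ᵐ x ∂volT, x ∈ sweep K₀ ∪ K₀ → v x = U x) →
      (∀ᵐ x ∂volT, x ∈ sweep K₀ ∪ K₀ → g x = extD U x) → M (v, g) = 0 := by
    intro v g U hU hv hg
    have hv1 : ∀ᵐ x ∂volT, x ∈ sweep K₀ → v x = U x := by
      filter_upwards [hv] with x hx hxs using hx (Or.inl hxs)
    have hv2 : ∀ᵐ x ∂volT, x ∈ K₀ → v x = U x := by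
      filter_upwards [hv] with x hx hxs using hx (Or.inr hxs)
    have hg1 : ∀ᵐ x ∂volT, x ∈ sweep K₀ → g x = extD U x := by
      filter_upwards [hg] with x hx hxs using hx (Or.inl hxs)
    have s1 := op_local (K := kerS p) rfl (kerS_zero p) (schurS p).choose_spec hv1
    have s2 := op_local (K := kerQ (p + 1)) rfl (kerQ_zero (p + 1))
      (schurQ (p + 1)).choose_spec hv1
    have s3 := op_local (K := kerS (p + 1)) rfl (kerS_zero (p + 1))
      (schurS (p + 1)).choose_spec hg1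
    set V := avg (vecS p) (volume.restrict (Ioc 0 1)) U with hV
    have hVs : ContDiffOn ℝ ∞ V hartogs :=
      (contDiffOn_avg ae_Ioc (smoothV_vecS p) hU).mono hartogs_subset_offAxis
    rw [hM, hL]
    have key := ibp_form J h1 h2 h3 hVs
    have e1 : ∫ x, (φ x : ℂ) * (opQ (p + 1) v - v - opS (p + 1) g) x J ∂volT =
        ∫ x, (φ x : ℂ) * extD V x J ∂volT := by
      refine integral_congr_on ?_
      filter_upwards [s2, s3, hv2, Lp.coeFn_sub (opQ (p + 1) v - v) (opS (p + 1) g),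
        Lp.coeFn_sub (opQ (p + 1) v) v,
        ae_restrict_mem (μ := volume) measurableSet_hartogs] with x a1 a2 a3 a4 a5 hxT hx
      rw [a4, Pi.sub_apply, a5, Pi.sub_apply, a3 hx]
      change (opQ (p + 1) v x - U x - opS (p + 1) g x) J = _
      have b1 : opQ (p + 1) v x = avg (vecQ (p + 1)) (Measure.dirac 1) U x := by
        rw [← fn_kerQ_eq (p + 1) U hxT]; exact a1 hx
      have b2 : opS (p + 1) g x = avg (vecS (p + 1)) (volume.restrict (Ioc 0 1)) (extD U) x := by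
        rw [← fn_kerS_eq (p + 1) (extD U) hxT]; exact a2 hx
      rw [b1, b2, hV, extD_avg hU (hartogs_subset_offAxis hxT)]
    have e2 : ∫ x, ∑ j : Fin (p + 1), (-1) ^ (j : ℕ) *
        (fderiv ℝ φ x (e (J j)) * opS p v x (face J j)) ∂volT =
        ∫ x, ∑ j : Fin (p + 1), (-1) ^ (j : ℕ) *
        (fderiv ℝ φ x (e (J j)) * V x (face J j)) ∂volT := by
      refine integral_congr_ae ?_
      filter_upwards [s1, ae_restrict_mem (μ := volume) measurableSet_hartogs] with x a1 hxT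
      refine Finset.sum_congr rfl fun j _ => ?_
      by_cases hx : x ∈ K₀
      · have b1 : opS p v x = V x := by
          rw [hV, ← fn_kerS_eq p U hxT]; exact a1 hx
        rw [b1]
      · have : fderiv ℝ φ x (e (J j)) = 0 :=
          image_eq_zero_of_notMem_tsupport (f := fun y => fderiv ℝ φ y (e (J j)))
            fun hc => hx (hdt _ hc)
        rw [this]
        simp
    change ∫ x, (φ x : ℂ) * (opQ (p + 1) v - v - opS (p + 1) g) x J ∂volT +
      ∫ x, ∑ j : Fin (p + 1), (-1) ^ (j : ℕ) *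
        (fderiv ℝ φ x (e (J j)) * opS p v x (face J j)) ∂volT = 0
    rw [e1, e2, key]
    ring
  -- `M` only depends on the values on the swept set
  have hloc : ∀ (v v' : L2 (p + 1)) (g g' : L2 (p + 2)),
      (∀ᵐ x ∂volT, x ∈ sweep K₀ ∪ K₀ → v x = v' x) →
      (∀ᵐ x ∂volT, x ∈ sweep K₀ ∪ K₀ → g x = g' x) → M (v, g) = M (v', g') := by
    intro v v' g g' hv hg
    have h0 : M (v - v', g - g') = 0 := by
      refine hzero _ _ (fun _ => 0) contDiff_const ?_ ?_
      · filter_upwards [hv, Lp.coeFn_sub v v'] with x a b hx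
        rw [b, Pi.sub_apply, a hx, sub_self]
      · filter_upwards [hg, Lp.coeFn_sub g g'] with x a b hx
        rw [b, Pi.sub_apply, a hx, sub_self]
        ext J
        change (0 : ℂ) = ∑ j : Fin (p + 2), (-1) ^ (j : ℕ) *
          fderiv ℝ (fun y => (0 : ℂ)) x (e (J j))
        simp
    have h4 : M (v, g) - M (v', g') = 0 := by
      rw [← map_sub]; exact h0
    exact sub_eq_zero.mp h4
  -- approximation
  have hKc : IsCompact (sweep K₀ ∪ K₀) := (isCompact_sweep hK₀c h3).union hK₀c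
  have hKT : sweep K₀ ∪ K₀ ⊆ hartogs := union_subset (sweep_subset h3) h3
  have hbound : ∀ η : ℝ, 0 < η → ‖M (u, f)‖ ≤ ‖M‖ * η := by
    intro η hη
    obtain ⟨U, hU, w, w', hw, hw', hu, hf⟩ := exists_approx h hKc hKT hη
    obtain ⟨v, hv⟩ := exists_cut hU.continuous hKc
    obtain ⟨g, hg⟩ := exists_cut (contDiff_extD hU).continuous hKc
    have e0 : M (v, g) = 0 := by
      refine hzero v g U hU ?_ ?_
      · filter_upwards [hv] with x hx hxs
        rw [hx, indicator_of_mem hxs]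
      · filter_upwards [hg] with x hx hxs
        rw [hx, indicator_of_mem hxs]
    have e1 : M (u, f) = M (w + v, w' + g) := by
      refine hloc _ _ _ _ ?_ ?_
      · filter_upwards [hu, hv, Lp.coeFn_add w v] with x a b c hx
        rw [a, c, Pi.add_apply, b, indicator_of_mem hx]
      · filter_upwards [hf, hg, Lp.coeFn_add w' g] with x a b c hx
        rw [a hx, c, Pi.add_apply, b, indicator_of_mem hx]
    have e2 : M (w + v, w' + g) = M (w, w') := by
      have : ((w + v, w' + g) : L2 (p + 1) × L2 (p + 2)) = (w, w') + (v, g) := rfl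
      rw [this, map_add, e0, add_zero]
    rw [e1, e2]
    refine (M.le_opNorm _).trans ?_
    gcongr
    rw [Prod.norm_def]
    exact max_le hw hw'
  have hlim : ‖M (u, f)‖ ≤ 0 := by
    have ht : Tendsto (fun η : ℝ => ‖M‖ * η) (𝓝[>] 0) (𝓝 (‖M‖ * 0)) :=
      ((continuous_const.mul continuous_id).tendsto 0).mono_left nhdsWithin_le_nhds
    rw [mul_zero] at ht
    exact ge_of_tendsto ht (eventually_mem_nhdsWithin.mono fun η hη => hbound η hη)
  exact norm_le_zero_iff.mp hlim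

end Pool.Agent.helper28.Hartogs
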