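import Pool.Agent.helper28.Hartogs.Alt

open MeasureTheory Module Set ContDiff

namespace Pool.Agent.helper28.Hartogs

/-- `z₂ / |z₂|` -/
noncomputable def nu (z : ℂ × ℂ) : ℂ := z.2 * ((‖z.2‖ : ℝ) : ℂ)⁻¹

/-- the angular form `Im (dz₂ / z₂)` -/
noncomputable def dth (z : ℂ × ℂ) : ℂ × ℂ →L[ℝ] ℝ :=
  Complex.imCLM.comp ((ContinuousLinearMap.mul ℝ ℂ (z.2)⁻¹).comp (ContinuousLinearMap.snd ℝ ℂ ℂ))

lemma dth_apply (z v : ℂ × ℂ) : dth z v = (z.2⁻¹ * v.2).im := rfl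

lemma norm_nu {z : ℂ × ℂ} (hz : z.2 ≠ 0) : ‖nu z‖ = 1 := by
  have : ‖z.2‖ ≠ 0 := norm_ne_zero_iff.mpr hz
  rw [nu, norm_mul, norm_inv, Complex.norm_real, norm_norm, mul_inv_cancel₀ this]

lemma contDiffAt_norm_snd {n : ℕ∞ω} {z : ℂ × ℂ} (hz : z.2 ≠ 0) :
    ContDiffAt ℝ n (fun z : ℂ × ℂ => ‖z.2‖) z :=
  (contDiffAt_norm ℝ hz).comp z contDiffAt_snd

lemma contDiffAt_nu {n : ℕ∞ω} {z : ℂ × ℂ} (hz : z.2 ≠ 0) : ContDiffAt ℝ n nu z := by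
  have h1 : ContDiffAt ℝ n (fun z : ℂ × ℂ => ((‖z.2‖ : ℝ) : ℂ)) z :=
    Complex.ofRealCLM.contDiff.contDiffAt.comp z (contDiffAt_norm_snd hz)
  exact contDiffAt_snd.mul (h1.inv (by simpa using hz))

lemma contDiffAt_dth {n : ℕ∞ω} {z : ℂ × ℂ} (hz : z.2 ≠ 0) : ContDiffAt ℝ n dth z := by
  have h1 : ContDiffAt ℝ n (fun z : ℂ × ℂ => (z.2)⁻¹) z := contDiffAt_snd.inv hz
  have h2 : ContDiffAt ℝ n (fun z : ℂ × ℂ => ContinuousLinearMap.mul ℝ ℂ (z.2)⁻¹) z :=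
    (ContinuousLinearMap.mul ℝ ℂ).contDiff.contDiffAt.comp z h1
  exact contDiffAt_const.clm_comp (h2.clm_comp contDiffAt_const)

lemma hasFDerivAt_nu {z : ℂ × ℂ} (hz : z.2 ≠ 0) :
    HasFDerivAt nu ((dth z).smulRight (Complex.I * nu z)) z := by
  have hr : ‖z.2‖ ≠ 0 := norm_ne_zero_iff.mpr hz
  have hs : HasFDerivAt (fun z : ℂ × ℂ => z.2) (ContinuousLinearMap.snd ℝ ℂ ℂ) z := hasFDerivAt_snd
  have h0 : HasFDerivAt (fun z : ℂ × ℂ => ‖z.2‖ ^ 2)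
      ((2 : ℕ) • (innerSL ℝ z.2).comp (ContinuousLinearMap.snd ℝ ℂ ℂ)) z := hs.norm_sq
  have h1 := h0.sqrt (pow_ne_zero 2 hr)
  simp only [Real.sqrt_sq (norm_nonneg _)] at h1
  have h2 := (hasDerivAt_inv hr).comp_hasFDerivAt z h1
  have h3 := h2.smul hs
  have h4 : nu = fun z : ℂ × ℂ => ((fun y => y⁻¹) ∘ fun y : ℂ × ℂ => ‖y.2‖) z • z.2 := by
    funext z
    rw [nu, Function.comp_apply, Complex.real_smul, Complex.ofReal_inv, mul_comm]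
  rw [h4]
  refine h3.congr_fderiv ?_
  apply ContinuousLinearMap.ext
  intro v
  have hsq : ‖z.2‖ ^ 2 = z.2.re ^ 2 + z.2.im ^ 2 := by
    rw [← Complex.normSq_eq_norm_sq, Complex.normSq_apply]; ring
  have him : ((z.2)⁻¹ * v.2).im = (z.2.re * v.2.im - z.2.im * v.2.re) / ‖z.2‖ ^ 2 := by
    rw [Complex.mul_im, Complex.inv_re, Complex.inv_im, Complex.normSq_eq_norm_sq]
    ring
  simp only [_root_.add_apply, _root_.smul_apply,
    ContinuousLinearMap.smulRight_apply, ContinuousLinearMap.comp_apply, innerSL_apply_apply,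
    ContinuousLinearMap.coe_snd', dth_apply, Function.comp_apply]
  have hin : inner ℝ z.2 v.2 = z.2.re * v.2.re + z.2.im * v.2.im := by
    rw [Complex.inner]; simp; ring
  rw [hin, him]
  generalize ‖z.2‖ = r at *
  apply Complex.ext
  · simp only [Complex.add_re, Complex.smul_re, Complex.smul_im, Complex.mul_re,
      Complex.I_re, Complex.I_im, nsmul_eq_mul, smul_eq_mul, zero_mul,
      one_mul, zero_sub, Nat.cast_ofNat]
    field_simp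
    linear_combination (v.2.re) * hsq
  · simp only [Complex.add_im, Complex.smul_re, Complex.smul_im, Complex.mul_im,
      Complex.I_re, Complex.I_im, nsmul_eq_mul, smul_eq_mul, zero_mul,
      one_mul, zero_add, Nat.cast_ofNat]
    field_simp
    linear_combination (v.2.im) * hsq

/-- the homotopy `(t, ζ, z) ↦ (1 - t) z + t (z₂ / |z₂|) ζ` -/
noncomputable def Psi (X : ℝ × (ℂ × ℂ) × (ℂ × ℂ)) : ℂ × ℂ :=
  (1 - X.1) • X.2.2 + X.1 • (nu X.2.2 • X.2.1)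

/-- its velocity -/
noncomputable def Vel (X : ℝ × (ℂ × ℂ) × (ℂ × ℂ)) : ℂ × ℂ := nu X.2.2 • X.2.1 - X.2.2

/-- its derivative in the space variable -/
noncomputable def Lz (X : ℝ × (ℂ × ℂ) × (ℂ × ℂ)) : ℂ × ℂ →L[ℝ] ℂ × ℂ :=
  (1 - X.1) • ContinuousLinearMap.id ℝ (ℂ × ℂ) +
    X.1 • (dth X.2.2).smulRight ((Complex.I * nu X.2.2) • X.2.1)

lemma Lz_apply (X : ℝ × (ℂ × ℂ) × (ℂ × ℂ)) (v : ℂ × ℂ) :
    Lz X v = (1 - X.1) • v + (X.1 * dth X.2.2 v) • ((Complex.I * nu X.2.2) • X.2.1) := by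
  rw [mul_smul]; rfl

/-- the full derivative of the homotopy -/
noncomputable def DPsi (X : ℝ × (ℂ × ℂ) × (ℂ × ℂ)) : ℝ × (ℂ × ℂ) × (ℂ × ℂ) →L[ℝ] ℂ × ℂ :=
  (ContinuousLinearMap.fst ℝ ℝ ((ℂ × ℂ) × (ℂ × ℂ))).smulRight (Vel X) +
    (X.1 • (nu X.2.2 • ContinuousLinearMap.id ℝ (ℂ × ℂ))).comp
      ((ContinuousLinearMap.fst ℝ (ℂ × ℂ) (ℂ × ℂ)).comp
        (ContinuousLinearMap.snd ℝ ℝ ((ℂ × ℂ) × (ℂ × ℂ)))) +
    (Lz X).comp ((ContinuousLinearMap.snd ℝ (ℂ × ℂ) (ℂ × ℂ)).comp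
        (ContinuousLinearMap.snd ℝ ℝ ((ℂ × ℂ) × (ℂ × ℂ))))

lemma DPsi_apply (X Y : ℝ × (ℂ × ℂ) × (ℂ × ℂ)) :
    DPsi X Y = Y.1 • Vel X + X.1 • (nu X.2.2 • Y.2.1) + Lz X Y.2.2 := rfl

section smooth

variable {n : ℕ∞ω} {X : ℝ × (ℂ × ℂ) × (ℂ × ℂ)}

lemma contDiffAt_nuX (hX : X.2.2.2 ≠ 0) :
    ContDiffAt ℝ n (fun X : ℝ × (ℂ × ℂ) × (ℂ × ℂ) => nu X.2.2) X :=
  ContDiffAt.comp (g := nu) (f := fun X : ℝ × (ℂ × ℂ) × (ℂ × ℂ) => X.2.2) X
    (contDiffAt_nu hX) (by fun_prop)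

lemma contDiffAt_dthX (hX : X.2.2.2 ≠ 0) :
    ContDiffAt ℝ n (fun X : ℝ × (ℂ × ℂ) × (ℂ × ℂ) => dth X.2.2) X :=
  ContDiffAt.comp (g := dth) (f := fun X : ℝ × (ℂ × ℂ) × (ℂ × ℂ) => X.2.2) X
    (contDiffAt_dth hX) (by fun_prop)

lemma contDiffAt_Vel (hX : X.2.2.2 ≠ 0) : ContDiffAt ℝ n Vel X := by
  have h1 : ContDiffAt ℝ n (fun X : ℝ × (ℂ × ℂ) × (ℂ × ℂ) => X.2.1) X := by fun_prop
  have h2 : ContDiffAt ℝ n (fun X : ℝ × (ℂ × ℂ) × (ℂ × ℂ) => X.2.2) X := by fun_prop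
  exact ((contDiffAt_nuX hX).smul h1).sub h2

lemma contDiffAt_Psi (hX : X.2.2.2 ≠ 0) : ContDiffAt ℝ n Psi X := by
  have h1 : ContDiffAt ℝ n (fun X : ℝ × (ℂ × ℂ) × (ℂ × ℂ) => X.2.1) X := by fun_prop
  have h2 : ContDiffAt ℝ n (fun X : ℝ × (ℂ × ℂ) × (ℂ × ℂ) => X.2.2) X := by fun_prop
  have h3 : ContDiffAt ℝ n (fun X : ℝ × (ℂ × ℂ) × (ℂ × ℂ) => X.1) X := by fun_prop
  exact ((contDiffAt_const.sub h3).smul h2).add (h3.smul ((contDiffAt_nuX hX).smul h1))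

lemma contDiffAt_Lz (hX : X.2.2.2 ≠ 0) : ContDiffAt ℝ n Lz X := by
  have h1 : ContDiffAt ℝ n (fun X : ℝ × (ℂ × ℂ) × (ℂ × ℂ) => X.2.1) X := by fun_prop
  have h3 : ContDiffAt ℝ n (fun X : ℝ × (ℂ × ℂ) × (ℂ × ℂ) => X.1) X := by fun_prop
  have h4 := (contDiffAt_dthX (n := n) hX).smulRight
    ((contDiffAt_const (c := Complex.I)).mul (contDiffAt_nuX hX) |>.smul h1)
  exact ((contDiffAt_const.sub h3).smul contDiffAt_const).add (h3.smul h4)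

lemma hasFDerivAt_Psi (hX : X.2.2.2 ≠ 0) : HasFDerivAt Psi (DPsi X) X := by
  have h1 : HasFDerivAt (fun X : ℝ × (ℂ × ℂ) × (ℂ × ℂ) => X.2.1)
      ((ContinuousLinearMap.fst ℝ (ℂ × ℂ) (ℂ × ℂ)).comp
        (ContinuousLinearMap.snd ℝ ℝ ((ℂ × ℂ) × (ℂ × ℂ)))) X :=
    hasFDerivAt_fst.comp X hasFDerivAt_snd
  have h2 : HasFDerivAt (fun X : ℝ × (ℂ × ℂ) × (ℂ × ℂ) => X.2.2)
      ((ContinuousLinearMap.snd ℝ (ℂ × ℂ) (ℂ × ℂ)).comp
        (ContinuousLinearMap.snd ℝ ℝ ((ℂ × ℂ) × (ℂ × ℂ)))) X :=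
    hasFDerivAt_snd.comp X hasFDerivAt_snd
  have h3 : HasFDerivAt (fun X : ℝ × (ℂ × ℂ) × (ℂ × ℂ) => X.1)
      (ContinuousLinearMap.fst ℝ ℝ ((ℂ × ℂ) × (ℂ × ℂ))) X := hasFDerivAt_fst
  have h4 := (hasFDerivAt_nu (z := X.2.2) hX).comp X h2
  have h5 := ((h3.const_sub 1).smul h2).add (h3.smul (h4.smul h1))
  refine h5.congr_fderiv ?_
  apply ContinuousLinearMap.ext
  intro Y
  rw [DPsi_apply, Lz_apply]
  simp only [Vel, _root_.add_apply, _root_.smul_apply, _root_.neg_apply,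
    ContinuousLinearMap.smulRight_apply, ContinuousLinearMap.comp_apply,
    ContinuousLinearMap.coe_snd', ContinuousLinearMap.coe_fst', Function.comp_apply]
  ext
  all_goals simp [smul_sub, mul_assoc]
  all_goals ring

end smooth

section formula

/-- evaluation of smooth families of alternating forms on smooth vectors is smooth -/
lemma contDiffAt_eval {Z : Type*} [NormedAddCommGroup Z] [NormedSpace ℝ Z] {q : ℕ} {n : ℕ∞ω}
    {x : Z} {W : Z → (ℂ × ℂ) [⋀^Fin q]→L[ℝ] ℂ} {v : Fin q → Z → ℂ × ℂ}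
    (hW : ContDiffAt ℝ n W x) (hv : ∀ i, ContDiffAt ℝ n (v i) x) :
    ContDiffAt ℝ n (fun y => W y (fun i => v i y)) x := by
  have h : (fun y => W y (fun i => v i y)) = fun y => ∑ r : Fin q → Fin 4,
      (∏ i, bas.repr (v i y) (r i)) • W y (fun i => e (r i)) := by
    funext y
    exact multilinear_expand (W y).toMultilinearMap _
  rw [h]
  refine ContDiffAt.sum fun r _ => ?_
  have h1 : ContDiffAt ℝ n (fun y => ∏ i, bas.repr (v i y) (r i)) x := by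
    refine contDiffAt_prod fun i _ => ?_
    let c : ℂ × ℂ →L[ℝ] ℝ := LinearMap.toContinuousLinearMap (bas.coord (r i))
    exact c.contDiff.contDiffAt.comp x (hv i)
  have h2 : ContDiffAt ℝ n (fun y => W y (fun i => e (r i))) x :=
    (ContinuousAlternatingMap.apply ℝ (ℂ × ℂ) ℂ
      (fun i => e (r i))).contDiff.contDiffAt.comp x hW
  exact h1.smul h2

/-- pull-back of a form by the homotopy, in the space variables only -/
noncomputable def pull {q : ℕ} (om : ℂ × ℂ → (ℂ × ℂ) [⋀^Fin q]→L[ℝ] ℂ)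
    (v : Fin q → ℂ × ℂ) (X : ℝ × (ℂ × ℂ) × (ℂ × ℂ)) : ℂ :=
  om (Psi X) (fun i => Lz X (v i))

/-- pull-back of the form contracted with the velocity -/
noncomputable def contr {p : ℕ} (om : ℂ × ℂ → (ℂ × ℂ) [⋀^Fin (p + 1)]→L[ℝ] ℂ)
    (w : Fin p → ℂ × ℂ) (X : ℝ × (ℂ × ℂ) × (ℂ × ℂ)) : ℂ :=
  om (Psi X) (Fin.cons (Vel X) fun i => Lz X (w i))

lemma contDiffAt_pull {q : ℕ} {om : ℂ × ℂ → (ℂ × ℂ) [⋀^Fin q]→L[ℝ] ℂ} {n : ℕ∞ω}
    (hω : ContDiff ℝ n om) (v : Fin q → ℂ × ℂ) {X : ℝ × (ℂ × ℂ) × (ℂ × ℂ)} (hX : X.2.2.2 ≠ 0) :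
    ContDiffAt ℝ n (pull om v) X := by
  refine contDiffAt_eval (W := fun X => om (Psi X)) (v := fun i X => Lz X (v i)) ?_ ?_
  · exact hω.contDiffAt.comp X (contDiffAt_Psi hX)
  · intro i
    exact (contDiffAt_Lz hX).clm_apply contDiffAt_const

lemma contDiffAt_contr {p : ℕ} {om : ℂ × ℂ → (ℂ × ℂ) [⋀^Fin (p + 1)]→L[ℝ] ℂ} {n : ℕ∞ω}
    (hω : ContDiff ℝ n om) (w : Fin p → ℂ × ℂ) {X : ℝ × (ℂ × ℂ) × (ℂ × ℂ)} (hX : X.2.2.2 ≠ 0) :
    ContDiffAt ℝ n (contr om w) X := by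
  refine contDiffAt_eval (W := fun X => om (Psi X))
    (v := fun i X => (Fin.cons (Vel X) (fun i => Lz X (w i)) : Fin (p + 1) → ℂ × ℂ) i) ?_ ?_
  · exact hω.contDiffAt.comp X (contDiffAt_Psi hX)
  · intro i
    refine Fin.cases ?_ (fun j => ?_) i
    · simp only [Fin.cons_zero]
      exact contDiffAt_Vel hX
    · simp only [Fin.cons_succ]
      exact (contDiffAt_Lz hX).clm_apply contDiffAt_const

/-- Cartan's homotopy formula for the homotopy `Psi`. -/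
lemma homotopy_formula {p : ℕ} {om : ℂ × ℂ → (ℂ × ℂ) [⋀^Fin (p + 1)]→L[ℝ] ℂ}
    (hω : ContDiff ℝ ∞ om) (v : Fin (p + 1) → ℂ × ℂ) {X : ℝ × (ℂ × ℂ) × (ℂ × ℂ)}
    (hX : X.2.2.2 ≠ 0) :
    fderiv ℝ (pull om v) X (1, 0, 0) =
      (∑ j : Fin (p + 1), (-1) ^ (j : ℕ) *
        fderiv ℝ (contr om (j.removeNth v)) X (0, 0, v j)) + contr (extDeriv om) v X := by
  have hopen : IsOpen {Y : ℝ × (ℂ × ℂ) × (ℂ × ℂ) | Y.2.2.2 ≠ 0} :=
    isOpen_ne_fun (by fun_prop) continuous_const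
  have hev : ∀ᶠ Y in nhds X, Y.2.2.2 ≠ 0 := hopen.mem_nhds hX
  set F : ℝ × (ℂ × ℂ) × (ℂ × ℂ) → (ℝ × (ℂ × ℂ) × (ℂ × ℂ)) [⋀^Fin (p + 1)]→L[ℝ] ℂ :=
    fun Y => (om (Psi Y)).compContinuousLinearMap (DPsi Y) with hF
  have hFe : F =ᶠ[nhds X] fun Y => (om (Psi Y)).compContinuousLinearMap (fderiv ℝ Psi Y) := by
    filter_upwards [hev] with Y hY
    rw [hF, (hasFDerivAt_Psi hY).fderiv]
  have hd := extDeriv_pullback (𝕜 := ℝ) (f := Psi) (x := X) (r := 2)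
    (hω.differentiable (by simp) _) (contDiffAt_Psi hX) (by simp)
  rw [← hFe.extDeriv_eq, (hasFDerivAt_Psi hX).fderiv] at hd
  have hFdiff : DifferentiableAt ℝ F X := by
    have h1 : DifferentiableAt ℝ (fun Y => om (Psi Y)) X :=
      (hω.differentiable (by simp) _).comp X (hasFDerivAt_Psi hX).differentiableAt
    have h2 : DifferentiableAt ℝ DPsi X := by
      have h3 : DifferentiableAt ℝ (fderiv ℝ Psi) X :=
        ((contDiffAt_Psi (n := 2) hX).fderiv_right (m := 1) (by norm_num)).differentiableAt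
          one_ne_zero
      refine h3.congr_of_eventuallyEq ?_
      filter_upwards [hev] with Y hY
      rw [(hasFDerivAt_Psi hY).fderiv]
    exact h1.continuousAlternatingMapCompContinuousLinearMap h2
  set V : Fin (p + 2) → ℝ × (ℂ × ℂ) × (ℂ × ℂ) :=
    Fin.cons (1, 0, 0) (fun i => (0, 0, v i)) with hV
  have h1 := congrArg (fun A => A V) hd
  rw [extDeriv_apply hFdiff, Fin.sum_univ_succ] at h1
  have eL : ∀ (Y : ℝ × (ℂ × ℂ) × (ℂ × ℂ)) (w : ℂ × ℂ), DPsi Y (0, 0, w) = Lz Y w := by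
    intro Y w; rw [DPsi_apply]; simp
  have eV : ∀ (Y : ℝ × (ℂ × ℂ) × (ℂ × ℂ)), DPsi Y (1, 0, 0) = Vel Y := by
    intro Y; rw [DPsi_apply]; simp
  have e0 : (fun Y => F Y ((0 : Fin (p + 2)).removeNth V)) = pull om v := by
    funext Y
    rw [hF, pull, ContinuousAlternatingMap.compContinuousLinearMap_apply]
    congr 1
    funext i
    simp [hV, Fin.removeNth, eL]
  have es : ∀ j : Fin (p + 1), (fun Y => F Y (j.succ.removeNth V)) =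
      contr om (j.removeNth v) := by
    intro j
    funext Y
    rw [hF, contr, ContinuousAlternatingMap.compContinuousLinearMap_apply]
    congr 1
    funext i
    refine Fin.cases ?_ (fun k => ?_) i
    · simp [hV, Fin.removeNth, eV]
    · simp [hV, Fin.removeNth, eL]
  have er : (extDeriv om (Psi X)).compContinuousLinearMap (DPsi X) V =
      contr (extDeriv om) v X := by
    rw [contr, ContinuousAlternatingMap.compContinuousLinearMap_apply]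
    congr 1
    funext i
    refine Fin.cases ?_ (fun k => ?_) i
    · simp [hV, eV]
    · simp [hV, eL]
  rw [er, e0] at h1
  simp only [es] at h1
  have hV0 : V 0 = (1, 0, 0) := rfl
  have hVs : ∀ j : Fin (p + 1), V j.succ = (0, 0, v j) := fun j => rfl
  rw [hV0] at h1
  simp only [hVs, Fin.val_zero, pow_zero, one_smul, Fin.val_succ] at h1
  rw [← h1]
  have : ∀ j : Fin (p + 1), (-1 : ℤ) ^ ((j : ℕ) + 1) •
      fderiv ℝ (contr om (j.removeNth v)) X (0, 0, v j) =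
      - ((-1 : ℂ) ^ (j : ℕ) * fderiv ℝ (contr om (j.removeNth v)) X (0, 0, v j)) := by
    intro j
    rw [zsmul_eq_mul]
    push_cast
    ring
  simp only [this, Finset.sum_neg_distrib]
  ring

end formula

end Pool.Agent.helper28.Hartogs
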