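import Pool.Agent.helper28.Hartogs.Closed

open MeasureTheory Set ContDiff
open scoped InnerProductSpace

namespace Pool.Agent.helper28.Hartogs

section

variable {φ : ℂ × ℂ → ℝ}

/-- products with a test function are continuous with compact support -/
lemma integrable_test (h1 : Continuous φ) (h2 : HasCompactSupport φ) (h3 : tsupport φ ⊆ hartogs)
    {g : ℂ × ℂ → ℂ} (hg : ContinuousOn g hartogs) : Integrable (fun x => φ x • g x) volume := by
  have hc : Continuous fun x => φ x • g x := by
    refine ContinuousOn.continuous_of_tsupport_subset (s := hartogs)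
      (h1.continuousOn.smul hg) isOpen_hartogs ?_
    exact (tsupport_smul_subset_left φ g).trans h3
  exact hc.integrable_of_hasCompactSupport (h2.smul_right)

lemma integral_test (h3 : tsupport φ ⊆ hartogs) (g : ℂ × ℂ → ℂ) :
    ∫ x, φ x • g x = ∫ x, (φ x : ℂ) * g x ∂volT := by
  rw [volT, setIntegral_eq_integral_of_forall_compl_eq_zero]
  · rfl
  · intro x hx
    have : φ x = 0 := image_eq_zero_of_notMem_tsupport fun h => hx (h3 h)
    rw [this]; simp

lemma ibp_scalar (h1 : ContDiff ℝ ∞ φ) (h2 : HasCompactSupport φ) (h3 : tsupport φ ⊆ hartogs)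
    {g : ℂ × ℂ → ℂ} (hg : ContDiffOn ℝ ∞ g hartogs) (v : ℂ × ℂ) :
    ∫ x, (φ x : ℂ) * fderiv ℝ g x v ∂volT = -∫ x, (fderiv ℝ φ x v : ℂ) * g x ∂volT := by
  have hd : ContDiff ℝ ∞ fun y => fderiv ℝ φ y v :=
    (h1.fderiv_right (m := ∞) (by simp)).clm_apply contDiff_const
  have hdc : HasCompactSupport fun y => fderiv ℝ φ y v := h2.fderiv_apply ℝ v
  have hds : tsupport (fun y => fderiv ℝ φ y v) ⊆ hartogs :=
    (tsupport_fderiv_apply_subset ℝ v).trans h3
  have hg' : ContDiffOn ℝ ∞ (fun y => fderiv ℝ g y v) hartogs :=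
    (hg.fderiv_of_isOpen isOpen_hartogs (m := ∞) (by simp)).clm_apply contDiffOn_const
  have key := integral_smul_fderiv_eq_neg_fderiv_smul_of_integrable (μ := volume) (f := φ) (g := g)
    (v := v) (integrable_test hd.continuous hdc hds hg.continuousOn)
    (integrable_test h1.continuous h2 h3 hg'.continuousOn)
    (integrable_test h1.continuous h2 h3 hg.continuousOn)
    (fun x _ => h1.differentiable (by simp) x)
    (fun x hx => (hg.contDiffAt (isOpen_hartogs.mem_nhds (h3 hx))).differentiableAt (by simp))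
  rw [integral_test h3, integral_test hds] at key
  exact key

lemma integrable_volT (h1 : Continuous φ) (h2 : HasCompactSupport φ) (h3 : tsupport φ ⊆ hartogs)
    {g : ℂ × ℂ → ℂ} (hg : ContinuousOn g hartogs) :
    Integrable (fun x => (φ x : ℂ) * g x) volT :=
  (integrable_test h1 h2 h3 hg).mono_measure Measure.restrict_le_self

/-- smooth forms on the Hartogs triangle satisfy the weak identity -/
lemma ibp_form {q : ℕ} (J : Idx (q + 1)) (h1 : ContDiff ℝ ∞ φ) (h2 : HasCompactSupport φ)
    (h3 : tsupport φ ⊆ hartogs) {V : ℂ × ℂ → Form q} (hV : ContDiffOn ℝ ∞ V hartogs) :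
    ∫ x, φ x * extD V x J ∂volT =
      -∫ x, ∑ j : Fin (q + 1), (-1) ^ (j : ℕ) * (fderiv ℝ φ x (e (J j)) * V x (face J j)) ∂volT := by
  have hVI : ∀ I : Idx q, ContDiffOn ℝ ∞ (fun y => V y I) hartogs := (contDiffOn_piLp 2).mp hV
  have hd : ∀ v, ContDiff ℝ ∞ fun y => fderiv ℝ φ y v := fun v =>
    (h1.fderiv_right (m := ∞) (by simp)).clm_apply contDiff_const
  have hdc : ∀ v, HasCompactSupport fun y => fderiv ℝ φ y v := fun v => h2.fderiv_apply ℝ v
  have hds : ∀ v, tsupport (fun y => fderiv ℝ φ y v) ⊆ hartogs := fun v =>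
    (tsupport_fderiv_apply_subset ℝ v).trans h3
  rw [integral_finsetSum]
  · simp only [integral_const_mul]
    have e1 : ∫ x, (φ x : ℂ) * extD V x J ∂volT = ∑ j : Fin (q + 1), (-1) ^ (j : ℕ) *
        ∫ x, (φ x : ℂ) * fderiv ℝ (fun y => V y (face J j)) x (e (J j)) ∂volT := by
      simp only [← integral_const_mul]
      rw [← integral_finsetSum]
      · refine integral_congr_ae (Filter.Eventually.of_forall fun x => ?_)
        change (φ x : ℂ) * ∑ j : Fin (q + 1), (-1) ^ (j : ℕ) *
          fderiv ℝ (fun y => V y (face J j)) x (e (J j)) = _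
        rw [Finset.mul_sum]
        exact Finset.sum_congr rfl fun j _ => by ring
      · intro j _
        refine (integrable_volT h1.continuous h2 h3 ?_).const_mul _
        exact (((hVI _).fderiv_of_isOpen isOpen_hartogs (m := ∞) (by simp)).clm_apply
          contDiffOn_const).continuousOn
    rw [e1, ← Finset.sum_neg_distrib]
    refine Finset.sum_congr rfl fun j _ => ?_
    rw [ibp_scalar h1 h2 h3 (hVI _)]
    ring
  · intro j _
    exact (integrable_volT (hd _).continuous (hdc _) (hds _) (hVI _).continuousOn).const_mul _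

end

end Pool.Agent.helper28.Hartogs
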