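import Pool.Agent.helper28.Hartogs.Abstract

open MeasureTheory Filter Topology
open scoped ENNReal NNReal InnerProductSpace

namespace Pool.Agent.helper28.Hartogs

section prelim

variable {X F : Type*} [MeasurableSpace X] [NormedAddCommGroup F] {μ : Measure X}

lemma eLpNorm_two_sq (f : X → F) : eLpNorm f 2 μ ^ 2 = ∫⁻ x, ‖f x‖ₑ ^ 2 ∂μ := by
  have h := eLpNorm_nnreal_pow_eq_lintegral (μ := μ) (f := f) (p := 2) two_ne_zero
  have e2 : ((2 : ℝ≥0) : ℝ) = ((2 : ℕ) : ℝ) := by norm_num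
  rw [e2] at h
  simp only [ENNReal.rpow_natCast] at h
  exact_mod_cast h

lemma memLp_two_of_lintegral {f : X → F} (hf : AEStronglyMeasurable f μ)
    (h : ∫⁻ x, ‖f x‖ₑ ^ 2 ∂μ < ∞) : MemLp f 2 μ := by
  refine ⟨hf, ?_⟩
  rw [← eLpNorm_two_sq] at h
  by_contra hc
  rw [not_lt, top_le_iff] at hc
  rw [hc] at h
  simp at h

lemma lintegral_sq_lt_top {f : X → F} (hf : MemLp f 2 μ) : ∫⁻ x, ‖f x‖ₑ ^ 2 ∂μ < ∞ := by
  rw [← eLpNorm_two_sq]
  exact ENNReal.pow_lt_top hf.2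

/-- Cauchy-Schwarz -/
lemma lintegral_sq_le (κ : Measure X) {g : X → ℝ≥0∞} (hg : AEMeasurable g κ) :
    (∫⁻ x, g x ∂κ) ^ 2 ≤ κ Set.univ * ∫⁻ x, g x ^ 2 ∂κ := by
  have h := ENNReal.lintegral_mul_le_Lp_mul_Lq κ (p := 2) (q := 2)
    (Real.HolderConjugate.two_two) (f := fun _ => 1) (g := g) aemeasurable_const hg
  simp only [Pi.mul_apply, one_mul, ENNReal.one_rpow, lintegral_const] at h
  calc (∫⁻ x, g x ∂κ) ^ 2 ≤ ((κ Set.univ) ^ (1 / (2 : ℝ)) * (∫⁻ x, g x ^ (2 : ℝ) ∂κ) ^ (1 / (2 : ℝ))) ^ 2 := by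
        gcongr
    _ = κ Set.univ * ∫⁻ x, g x ^ 2 ∂κ := by
        rw [mul_pow, ← ENNReal.rpow_natCast, ← ENNReal.rpow_natCast, ← ENNReal.rpow_mul,
          ← ENNReal.rpow_mul]
        norm_num

end prelim

/-- data of an averaged transfer operator `(K u)(z) = ∫ A(z,θ) [u (phi (z,θ))] dκ(θ)` -/
structure Ker (P X F G : Type*) [MeasurableSpace P] [MeasurableSpace X]
    [NormedAddCommGroup F] [InnerProductSpace ℂ F] [MeasurableSpace F]
    [NormedAddCommGroup G] [InnerProductSpace ℂ G] [MeasurableSpace G] where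
  phi : X × P → X
  A : X × P → F → G
  m : X × P → ℝ≥0∞
  meas_phi : Measurable phi
  meas_A : Measurable (Function.uncurry A)
  meas_m : Measurable m
  add : ∀ y v w, A y (v + w) = A y v + A y w
  smul : ∀ y (c : ℂ) v, A y (c • v) = c • A y v
  bound : ∀ y v, ‖A y v‖ₑ ≤ m y * ‖v‖ₑ
  one_le : ∀ y, 1 ≤ m y

namespace Ker

variable {P X F G : Type*} [MeasurableSpace P] [MeasurableSpace X]
    [NormedAddCommGroup F] [InnerProductSpace ℂ F] [MeasurableSpace F] [BorelSpace F]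
    [SecondCountableTopology F] [CompleteSpace F]
    [NormedAddCommGroup G] [InnerProductSpace ℂ G] [MeasurableSpace G] [BorelSpace G]
    [SecondCountableTopology G] [CompleteSpace G]

variable (K : Ker P X F G)

/-- the Schur bound -/
def Schur (μ : Measure X) (κ : Measure P) (C : ℝ≥0) : Prop :=
  ∀ g : X → ℝ≥0∞, Measurable g →
    ∫⁻ y, K.m y ^ 2 * g (K.phi y) ∂(μ.prod κ) ≤ C * ∫⁻ x, g x ∂μ

/-- the operator on functions -/
noncomputable def fn (κ : Measure P) (u : X → F) (z : X) : G :=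
  ∫ θ, K.A (z, θ) (u (K.phi (z, θ))) ∂κ

variable {K} {μ : Measure X} {κ : Measure P} {C : ℝ≥0}

lemma Schur.quasi (h : K.Schur μ κ C) : Measure.QuasiMeasurePreserving K.phi (μ.prod κ) μ := by
  refine ⟨K.meas_phi, ?_⟩
  refine Measure.AbsolutelyContinuous.mk fun s hs h0 => ?_
  rw [Measure.map_apply K.meas_phi hs]
  have h1 := h (s.indicator 1) (measurable_one.indicator hs)
  rw [lintegral_indicator_one hs, h0, mul_zero, nonpos_iff_eq_zero] at h1
  have h2 : ∫⁻ y, (K.phi ⁻¹' s).indicator 1 y ∂(μ.prod κ) ≤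
      ∫⁻ y, K.m y ^ 2 * s.indicator 1 (K.phi y) ∂(μ.prod κ) := by
    refine lintegral_mono fun y => ?_
    by_cases hy : K.phi y ∈ s
    · rw [Set.indicator_of_mem (by exact hy), Set.indicator_of_mem hy]
      simpa using one_le_pow₀ (K.one_le y)
    · rw [Set.indicator_of_notMem (by exact hy)]
      exact bot_le
  rw [h1, lintegral_indicator_one (K.meas_phi hs)] at h2
  exact le_antisymm h2 bot_le

lemma measurable_H {f : X → F} (hf : Measurable f) :
    Measurable fun y => K.A y (f (K.phi y)) :=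
  K.meas_A.comp (measurable_id.prodMk (hf.comp K.meas_phi))

lemma Schur.lint (h : K.Schur μ κ C) {f : X → F} (hf : Measurable f) :
    ∫⁻ y, ‖K.A y (f (K.phi y))‖ₑ ^ 2 ∂(μ.prod κ) ≤ C * ∫⁻ x, ‖f x‖ₑ ^ 2 ∂μ := by
  refine le_trans (lintegral_mono fun y => ?_) (h (fun x => ‖f x‖ₑ ^ 2) (hf.enorm.pow_const 2))
  calc ‖K.A y (f (K.phi y))‖ₑ ^ 2 ≤ (K.m y * ‖f (K.phi y)‖ₑ) ^ 2 := by
        gcongr; exact K.bound _ _
    _ = _ := by rw [mul_pow]

variable [IsFiniteMeasure μ] [IsFiniteMeasure κ]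

lemma Schur.integrable (h : K.Schur μ κ C) {f : X → F} (hf : Measurable f)
    (hf2 : ∫⁻ x, ‖f x‖ₑ ^ 2 ∂μ < ∞) :
    Integrable (fun y => K.A y (f (K.phi y))) (μ.prod κ) := by
  have h1 : MemLp (fun y => K.A y (f (K.phi y))) 2 (μ.prod κ) :=
    memLp_two_of_lintegral (measurable_H hf).aestronglyMeasurable
      ((h.lint hf).trans_lt (ENNReal.mul_lt_top ENNReal.coe_lt_top hf2))
  exact h1.integrable one_le_two

lemma Schur.ae_integrable (h : K.Schur μ κ C) {f : X → F} (hf : Measurable f)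
    (hf2 : ∫⁻ x, ‖f x‖ₑ ^ 2 ∂μ < ∞) :
    ∀ᵐ z ∂μ, Integrable (fun θ => K.A (z, θ) (f (K.phi (z, θ)))) κ :=
  (h.integrable hf hf2).prod_right_ae

lemma aesm_fn {f : X → F} (hf : Measurable f) :
    AEStronglyMeasurable (K.fn κ f) μ := by
  have : AEStronglyMeasurable (fun y => K.A y (f (K.phi y))) (μ.prod κ) :=
    (measurable_H hf).aestronglyMeasurable
  exact this.integral_prod_right'

lemma fn_enorm_sq (f : X → F) (hf : Measurable f) (z : X) :
    ‖K.fn κ f z‖ₑ ^ 2 ≤ κ Set.univ * ∫⁻ θ, ‖K.A (z, θ) (f (K.phi (z, θ)))‖ₑ ^ 2 ∂κ := by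
  refine le_trans ?_ (lintegral_sq_le κ
    ((measurable_H (K := K) hf).comp measurable_prodMk_left).enorm.aemeasurable)
  gcongr
  exact enorm_integral_le_lintegral_enorm _

lemma Schur.fn_bound (h : K.Schur μ κ C) {f : X → F} (hf : Measurable f) :
    ∫⁻ z, ‖K.fn κ f z‖ₑ ^ 2 ∂μ ≤ κ Set.univ * (C * ∫⁻ x, ‖f x‖ₑ ^ 2 ∂μ) := by
  calc ∫⁻ z, ‖K.fn κ f z‖ₑ ^ 2 ∂μ
      ≤ ∫⁻ z, κ Set.univ * ∫⁻ θ, ‖K.A (z, θ) (f (K.phi (z, θ)))‖ₑ ^ 2 ∂κ ∂μ :=
        lintegral_mono fun z => fn_enorm_sq f hf z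
    _ = κ Set.univ * ∫⁻ z, ∫⁻ θ, ‖K.A (z, θ) (f (K.phi (z, θ)))‖ₑ ^ 2 ∂κ ∂μ := by
        rw [lintegral_const_mul]
        exact ((measurable_H (K := K) hf).enorm.pow_const 2).lintegral_prod_right'
    _ = κ Set.univ * ∫⁻ y, ‖K.A y (f (K.phi y))‖ₑ ^ 2 ∂(μ.prod κ) := by
        rw [lintegral_prod _ ((measurable_H (K := K) hf).enorm.pow_const 2).aemeasurable]
    _ ≤ _ := by gcongr; exact h.lint hf

lemma Schur.memLp (h : K.Schur μ κ C) {f : X → F} (hf : Measurable f)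
    (hf2 : ∫⁻ x, ‖f x‖ₑ ^ 2 ∂μ < ∞) : MemLp (K.fn κ f) 2 μ :=
  memLp_two_of_lintegral (aesm_fn hf) ((h.fn_bound hf).trans_lt
    (ENNReal.mul_lt_top (measure_lt_top κ _) (ENNReal.mul_lt_top ENNReal.coe_lt_top hf2)))

/-- the operator only depends on the almost-everywhere class -/
lemma Schur.fn_congr (h : K.Schur μ κ C) {f g : X → F} (hfg : f =ᵐ[μ] g) :
    K.fn κ f =ᵐ[μ] K.fn κ g := by
  have h1 : ∀ᵐ y ∂(μ.prod κ), f (K.phi y) = g (K.phi y) := h.quasi.ae hfg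
  have h2 := Measure.ae_ae_of_ae_prod h1
  filter_upwards [h2] with z hz
  refine integral_congr_ae ?_
  filter_upwards [hz] with θ hθ
  rw [hθ]

lemma coe_measurable (u : Lp F 2 μ) : Measurable (u : X → F) :=
  (Lp.stronglyMeasurable u).measurable

lemma coe_lint (u : Lp F 2 μ) : ∫⁻ x, ‖u x‖ₑ ^ 2 ∂μ < ∞ := lintegral_sq_lt_top (Lp.memLp u)

/-- the operator on `L²` as a linear map -/
noncomputable def lin (h : K.Schur μ κ C) : Lp F 2 μ →ₗ[ℂ] Lp G 2 μ where
  toFun u := (h.memLp (coe_measurable u) (coe_lint u)).toLp _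
  map_add' u v := by
    apply Lp.ext
    refine (MemLp.coeFn_toLp _).trans ?_
    refine EventuallyEq.trans ?_ (Lp.coeFn_add _ _).symm
    have h1 := h.fn_congr (Lp.coeFn_add u v)
    refine h1.trans ?_
    filter_upwards [h.ae_integrable (coe_measurable u) (coe_lint u),
      h.ae_integrable (coe_measurable v) (coe_lint v),
      MemLp.coeFn_toLp (h.memLp (coe_measurable u) (coe_lint u)),
      MemLp.coeFn_toLp (h.memLp (coe_measurable v) (coe_lint v))] with z hu hv hu' hv'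
    rw [Pi.add_apply, hu', hv']
    simp only [fn, Pi.add_apply, K.add]
    exact integral_add hu hv
  map_smul' c u := by
    apply Lp.ext
    refine (MemLp.coeFn_toLp _).trans ?_
    refine EventuallyEq.trans ?_ (Lp.coeFn_smul _ _).symm
    have h1 := h.fn_congr (Lp.coeFn_smul c u)
    refine h1.trans ?_
    filter_upwards [MemLp.coeFn_toLp (h.memLp (coe_measurable u) (coe_lint u))] with z hu'
    rw [Pi.smul_apply, RingHom.id_apply, hu']
    simp only [fn, Pi.smul_apply, K.smul]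
    exact integral_smul c _

lemma lin_coeFn (h : K.Schur μ κ C) (u : Lp F 2 μ) : lin h u =ᵐ[μ] K.fn κ u :=
  MemLp.coeFn_toLp (h.memLp (coe_measurable u) (coe_lint u))

lemma lin_norm (h : K.Schur μ κ C) (u : Lp F 2 μ) :
    ‖lin h u‖ ^ 2 ≤ ((κ Set.univ).toReal * C) * ‖u‖ ^ 2 := by
  have h1 : ‖lin h u‖ₑ ^ 2 ≤ κ Set.univ * (C * ‖u‖ₑ ^ 2) := by
    rw [Lp.enorm_def, Lp.enorm_def, eLpNorm_two_sq, eLpNorm_two_sq]
    refine le_trans (le_of_eq (lintegral_congr_ae ?_)) (h.fn_bound (coe_measurable u))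
    filter_upwards [lin_coeFn h u] with z hz
    rw [hz]
  have h2 := ENNReal.toReal_mono (ENNReal.mul_ne_top (measure_ne_top κ _)
    (ENNReal.mul_ne_top ENNReal.coe_ne_top (ENNReal.pow_ne_top enorm_ne_top))) h1
  simp only [ENNReal.toReal_pow, ENNReal.toReal_mul, toReal_enorm, ENNReal.coe_toReal] at h2
  linarith

/-- the operator on `L²` -/
noncomputable def op (h : K.Schur μ κ C) : Lp F 2 μ →L[ℂ] Lp G 2 μ :=
  (lin h).mkContinuous (Real.sqrt ((κ Set.univ).toReal * C)) fun u => by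
    have h1 := lin_norm h u
    have h2 : 0 ≤ (κ Set.univ).toReal * C := by positivity
    calc ‖lin h u‖ = Real.sqrt (‖lin h u‖ ^ 2) := (Real.sqrt_sq (norm_nonneg _)).symm
      _ ≤ Real.sqrt (((κ Set.univ).toReal * C) * ‖u‖ ^ 2) := Real.sqrt_le_sqrt h1
      _ = _ := by rw [Real.sqrt_mul h2, Real.sqrt_sq (norm_nonneg _)]

lemma op_coeFn (h : K.Schur μ κ C) (u : Lp F 2 μ) : op h u =ᵐ[μ] K.fn κ u :=
  lin_coeFn h u

lemma op_norm (h : K.Schur μ κ C) (u : Lp F 2 μ) :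
    ‖op h u‖ ^ 2 ≤ ((κ Set.univ).toReal * C) * ‖u‖ ^ 2 := lin_norm h u

/-- pointwise bound, uniform over all functions -/
def Pointwise (K : Ker P X F G) (κ : Measure P) (μ : Measure X) (c : X → ℝ≥0∞) : Prop :=
  ∀ᵐ z ∂μ, ∀ g : X → ℝ≥0∞, Measurable g →
    ∫⁻ θ, K.m (z, θ) * g (K.phi (z, θ)) ∂κ ≤ c z * ∫⁻ x, g x ∂μ

lemma norm_tendsto_zero_of_weaklyNull {G' : Type*} [NormedAddCommGroup G'] [InnerProductSpace ℂ G']
    [FiniteDimensional ℂ G'] {x : ℕ → G'} (hx : WeaklyNull x) :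
    Tendsto (fun n => ‖x n‖) atTop (𝓝 0) := by
  let b := stdOrthonormalBasis ℂ G'
  have h1 : ∀ n, ‖x n‖ ^ 2 = ∑ i, ‖⟪b i, x n⟫_ℂ‖ ^ 2 := fun n =>
    (b.sum_sq_norm_inner_right (x n)).symm
  have h2 : Tendsto (fun n => ‖x n‖ ^ 2) atTop (𝓝 0) := by
    simp only [h1]
    have : Tendsto (fun n => ∑ i, ‖⟪b i, x n⟫_ℂ‖ ^ 2) atTop
        (𝓝 (∑ _i : Fin (Module.finrank ℂ G'), (0 : ℝ))) := by
      refine tendsto_finsetSum _ fun i _ => ?_
      have := (hx.2 (b i)).norm.pow 2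
      simpa using this
    simpa using this
  simpa using h2.sqrt

lemma cc_of_pointwise [FiniteDimensional ℂ G] (h : K.Schur μ κ C) {c : X → ℝ≥0∞}
    (hc : Measurable c) (hc2 : ∫⁻ z, c z ^ 2 ∂μ < ∞) (hp : Pointwise K κ μ c) : CC (op h) := by
  intro u hu
  obtain ⟨M, hM⟩ := hu.1
  have hM0 : 0 ≤ M := (norm_nonneg _).trans (hM 0)
  -- `L¹` bound
  have hL1 : ∀ v : Lp F 2 μ, ∫⁻ x, ‖v x‖ₑ ∂μ ≤ (μ Set.univ) ^ (1 / 2 : ℝ) * ‖v‖ₑ := by
    intro v
    have h1 := lintegral_sq_le μ (coe_measurable v).enorm.aemeasurable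
    rw [← eLpNorm_two_sq, ← Lp.enorm_def] at h1
    have h2 : (∫⁻ x, ‖v x‖ₑ ∂μ) ^ 2 ≤ ((μ Set.univ) ^ (1 / 2 : ℝ) * ‖v‖ₑ) ^ 2 := by
      rw [mul_pow]
      convert h1 using 2
      rw [← ENNReal.rpow_natCast, ← ENNReal.rpow_mul]
      norm_num
    exact (ENNReal.pow_le_pow_left_iff two_ne_zero).mp h2
  have hcfin : ∀ᵐ z ∂μ, c z < ∞ := by
    have := ae_lt_top (hc.pow_const 2) hc2.ne
    filter_upwards [this] with z hz
    by_contra hcon
    rw [not_lt, top_le_iff] at hcon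
    rw [hcon] at hz
    simp at hz
  -- pointwise functionals
  have hpt : ∀ᵐ z ∂μ, (∀ v : Lp F 2 μ, ‖K.fn κ v z‖ₑ ≤ c z * ((μ Set.univ) ^ (1 / 2 : ℝ) * ‖v‖ₑ)) ∧
      Tendsto (fun n => K.fn κ (u n) z) atTop (𝓝 0) := by
    filter_upwards [hp, hcfin] with z hz hzf
    have hmz : Measurable fun θ => K.phi (z, θ) := K.meas_phi.comp measurable_prodMk_left
    have hq : Measure.QuasiMeasurePreserving (fun θ => K.phi (z, θ)) κ μ := by
      refine ⟨hmz, ?_⟩
      refine Measure.AbsolutelyContinuous.mk fun s hs h0 => ?_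
      rw [Measure.map_apply hmz hs]
      have h1 := hz (s.indicator 1) (measurable_one.indicator hs)
      rw [lintegral_indicator_one hs, h0, mul_zero, nonpos_iff_eq_zero] at h1
      have h2 : ∫⁻ θ, ((fun θ => K.phi (z, θ)) ⁻¹' s).indicator 1 θ ∂κ ≤
          ∫⁻ θ, K.m (z, θ) * s.indicator 1 (K.phi (z, θ)) ∂κ := by
        refine lintegral_mono fun θ => ?_
        by_cases hy : K.phi (z, θ) ∈ s
        · rw [Set.indicator_of_mem (by exact hy), Set.indicator_of_mem hy]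
          simpa using K.one_le (z, θ)
        · rw [Set.indicator_of_notMem (by exact hy)]
          exact bot_le
      rw [h1, lintegral_indicator_one (hmz hs)] at h2
      exact le_antisymm h2 bot_le
    have hbd : ∀ v : Lp F 2 μ, ∫⁻ θ, ‖K.A (z, θ) (v (K.phi (z, θ)))‖ₑ ∂κ ≤
        c z * ((μ Set.univ) ^ (1 / 2 : ℝ) * ‖v‖ₑ) := by
      intro v
      refine le_trans (lintegral_mono fun θ => K.bound _ _) ?_
      refine le_trans (hz (fun x => ‖v x‖ₑ) (coe_measurable v).enorm) ?_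
      gcongr
      exact hL1 v
    have hint : ∀ v : Lp F 2 μ, Integrable (fun θ => K.A (z, θ) (v (K.phi (z, θ)))) κ := by
      intro v
      refine ⟨((measurable_H (K := K) (coe_measurable v)).comp
        measurable_prodMk_left).aestronglyMeasurable, ?_⟩
      refine (hbd v).trans_lt ?_
      refine ENNReal.mul_lt_top hzf (ENNReal.mul_lt_top ?_ enorm_lt_top)
      exact ENNReal.rpow_lt_top_of_nonneg (by norm_num) (measure_ne_top μ _)
    have hfn : ∀ v : Lp F 2 μ, ‖K.fn κ v z‖ₑ ≤ c z * ((μ Set.univ) ^ (1 / 2 : ℝ) * ‖v‖ₑ) :=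
      fun v => (enorm_integral_le_lintegral_enorm _).trans (hbd v)
    refine ⟨hfn, ?_⟩
    let L : Lp F 2 μ →ₗ[ℂ] G :=
      { toFun := fun v => K.fn κ v z
        map_add' := by
          intro v w
          have h1 : ∀ᵐ θ ∂κ, (v + w : Lp F 2 μ) (K.phi (z, θ)) =
              v (K.phi (z, θ)) + w (K.phi (z, θ)) := hq.ae (Lp.coeFn_add v w)
          have h2 : K.fn κ (v + w : Lp F 2 μ) z =
              ∫ θ, (K.A (z, θ) (v (K.phi (z, θ))) + K.A (z, θ) (w (K.phi (z, θ)))) ∂κ := by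
            refine integral_congr_ae ?_
            filter_upwards [h1] with θ hθ
            rw [hθ, K.add]
          rw [h2, integral_add (hint v) (hint w)]
          rfl
        map_smul' := by
          intro a v
          have h1 : ∀ᵐ θ ∂κ, (a • v : Lp F 2 μ) (K.phi (z, θ)) =
              a • v (K.phi (z, θ)) := hq.ae (Lp.coeFn_smul a v)
          have h2 : K.fn κ (a • v : Lp F 2 μ) z =
              ∫ θ, a • (K.A (z, θ) (v (K.phi (z, θ)))) ∂κ := by
            refine integral_congr_ae ?_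
            filter_upwards [h1] with θ hθ
            rw [hθ, K.smul]
          rw [h2, integral_smul]
          rfl }
    let Lc : Lp F 2 μ →L[ℂ] G := L.mkContinuous
      (c z * (μ Set.univ) ^ (1 / 2 : ℝ)).toReal (by
        intro v
        have h1 := hfn v
        have h2 := ENNReal.toReal_mono ?_ h1
        · rw [← mul_assoc, ENNReal.toReal_mul, toReal_enorm, toReal_enorm] at h2
          exact h2
        · refine (ENNReal.mul_lt_top hzf (ENNReal.mul_lt_top ?_ enorm_lt_top)).ne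
          exact ENNReal.rpow_lt_top_of_nonneg (by norm_num) (measure_ne_top μ _))
    have h3 := norm_tendsto_zero_of_weaklyNull (hu.map Lc)
    rw [tendsto_zero_iff_norm_tendsto_zero]
    exact h3
  -- dominated convergence
  have hlim : Tendsto (fun n => ∫⁻ z, ‖K.fn κ (u n) z‖ₑ ^ 2 ∂μ) atTop (𝓝 (∫⁻ _, 0 ∂μ)) := by
    refine tendsto_lintegral_of_dominated_convergence'
      (fun z => (c z) ^ 2 * (((μ Set.univ) ^ (1 / 2 : ℝ)) * ENNReal.ofReal M) ^ 2) ?_ ?_ ?_ ?_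
    · intro n
      exact ((aesm_fn (coe_measurable (u n))).enorm.pow_const 2)
    · intro n
      filter_upwards [hpt] with z hz
      rw [← mul_pow]
      gcongr
      refine (hz.1 (u n)).trans ?_
      gcongr
      rw [← ofReal_norm_eq_enorm]
      exact ENNReal.ofReal_le_ofReal (hM n)
    · rw [lintegral_mul_const _ (hc.pow_const 2)]
      refine (ENNReal.mul_lt_top hc2 ?_).ne
      refine ENNReal.pow_lt_top (ENNReal.mul_lt_top ?_ ENNReal.ofReal_lt_top)
      exact ENNReal.rpow_lt_top_of_nonneg (by norm_num) (measure_ne_top μ _)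
    · filter_upwards [hpt] with z hz
      have h1 : Tendsto (fun n => ‖K.fn κ (u n) z‖ₑ) atTop (𝓝 ‖(0 : G)‖ₑ) :=
        (continuous_enorm.tendsto _).comp hz.2
      rw [enorm_zero] at h1
      have h2 := ((ENNReal.continuous_pow 2).tendsto 0).comp h1
      simpa [Function.comp_def] using h2
  rw [lintegral_zero] at hlim
  have heq : ∀ n, ‖op h (u n)‖ₑ ^ 2 = ∫⁻ z, ‖K.fn κ (u n) z‖ₑ ^ 2 ∂μ := by
    intro n
    rw [Lp.enorm_def, eLpNorm_two_sq]
    refine lintegral_congr_ae ?_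
    filter_upwards [op_coeFn h (u n)] with z hz
    rw [hz]
  have h4 : Tendsto (fun n => ‖op h (u n)‖ ^ 2) atTop (𝓝 0) := by
    have h5 : Tendsto (fun n => (‖op h (u n)‖ₑ ^ 2).toReal) atTop (𝓝 (0 : ℝ≥0∞).toReal) := by
      refine (ENNReal.tendsto_toReal ENNReal.zero_ne_top).comp ?_
      simpa only [heq] using hlim
    simpa only [ENNReal.toReal_pow, toReal_enorm, ENNReal.toReal_zero] using h5
  simpa using h4.sqrt

lemma Schur.mono {κ' : Measure P} [SFinite κ'] (hle : κ' ≤ κ) (h : K.Schur μ κ C) :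
    K.Schur μ κ' C := by
  intro g hg
  have hm : Measurable fun y => K.m y ^ 2 * g (K.phi y) :=
    (K.meas_m.pow_const 2).mul (hg.comp K.meas_phi)
  refine le_trans ?_ (h g hg)
  rw [lintegral_prod _ hm.aemeasurable, lintegral_prod _ hm.aemeasurable]
  exact lintegral_mono fun z => lintegral_mono' hle le_rfl

/-- completely continuous if, up to a small part of the parameter measure, the kernel is
square-integrable -/
lemma cc_of_split [FiniteDimensional ℂ G] (h : K.Schur μ κ C)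
    (hs : ∀ ε : ℝ, 0 < ε → ∃ κ₁ κ₂ : Measure P, κ = κ₁ + κ₂ ∧ (κ₁ Set.univ).toReal ≤ ε ∧
      ∃ c : X → ℝ≥0∞, Measurable c ∧ ∫⁻ z, c z ^ 2 ∂μ < ∞ ∧ Pointwise K κ₂ μ c) :
    CC (op h) := by
  intro u hu
  obtain ⟨M, hM⟩ := hu.1
  have hM0 : 0 ≤ M := (norm_nonneg _).trans (hM 0)
  rw [Metric.tendsto_atTop]
  intro ε hε
  -- choose the small part
  obtain ⟨δ, hδ0, hδ⟩ : ∃ δ : ℝ, 0 < δ ∧ Real.sqrt (δ * C) * M < ε / 2 := by
    have hcont : Tendsto (fun δ : ℝ => Real.sqrt (δ * C) * M) (𝓝[>] 0) (𝓝 (Real.sqrt (0 * C) * M)) := by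
      have : Continuous fun δ : ℝ => Real.sqrt (δ * C) * M := by fun_prop
      exact (this.tendsto 0).mono_left nhdsWithin_le_nhds
    rw [zero_mul, Real.sqrt_zero, zero_mul] at hcont
    have h1 := hcont.eventually (gt_mem_nhds (half_pos hε))
    have h2 := h1.and self_mem_nhdsWithin
    obtain ⟨δ, h3, h4⟩ := h2.exists
    exact ⟨δ, h4, h3⟩
  obtain ⟨κ₁, κ₂, hκ, hκ1, c, hc, hc2, hp⟩ := hs δ hδ0
  have hle1 : κ₁ ≤ κ := by rw [hκ]; exact Measure.le_add_right le_rfl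
  have hle2 : κ₂ ≤ κ := by rw [hκ]; exact Measure.le_add_left le_rfl
  haveI : IsFiniteMeasure κ₁ := isFiniteMeasure_of_le κ hle1
  haveI : IsFiniteMeasure κ₂ := isFiniteMeasure_of_le κ hle2
  have h1 : K.Schur μ κ₁ C := h.mono hle1
  have h2 : K.Schur μ κ₂ C := h.mono hle2
  have hadd : ∀ v : Lp F 2 μ, op h v = op h1 v + op h2 v := by
    intro v
    apply Lp.ext
    refine (op_coeFn h v).trans ?_
    refine EventuallyEq.trans ?_ (Lp.coeFn_add _ _).symm
    filter_upwards [op_coeFn h1 v, op_coeFn h2 v,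
      h1.ae_integrable (coe_measurable v) (coe_lint v),
      h2.ae_integrable (coe_measurable v) (coe_lint v)] with z e1 e2 i1 i2
    rw [Pi.add_apply, e1, e2]
    simp only [fn]
    rw [hκ]
    exact integral_add_measure i1 i2
  have hcc := cc_of_pointwise h2 hc hc2 hp u hu
  rw [Metric.tendsto_atTop] at hcc
  obtain ⟨N, hN⟩ := hcc (ε / 2) (half_pos hε)
  refine ⟨N, fun n hn => ?_⟩
  have hN' := hN n hn
  rw [Real.dist_eq, sub_zero, abs_of_nonneg (norm_nonneg _)] at hN' ⊢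
  have hsmall : ‖op h1 (u n)‖ ≤ Real.sqrt (δ * C) * M := by
    have h3 := op_norm h1 (u n)
    have h4 : ‖op h1 (u n)‖ ^ 2 ≤ (δ * C) * M ^ 2 := by
      refine h3.trans ?_
      gcongr
      exact hM n
    have h5 : 0 ≤ δ * C := by positivity
    calc ‖op h1 (u n)‖ = Real.sqrt (‖op h1 (u n)‖ ^ 2) := (Real.sqrt_sq (norm_nonneg _)).symm
      _ ≤ Real.sqrt ((δ * C) * M ^ 2) := Real.sqrt_le_sqrt h4
      _ = _ := by rw [Real.sqrt_mul h5, Real.sqrt_sq hM0]
  rw [hadd]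
  calc ‖op h1 (u n) + op h2 (u n)‖ ≤ ‖op h1 (u n)‖ + ‖op h2 (u n)‖ := norm_add_le _ _
    _ < ε / 2 + ε / 2 := by linarith
    _ = ε := by ring

end Ker

end Pool.Agent.helper28.Hartogs
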