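import Pool.Agent.helper28.Hartogs.Geometry

open MeasureTheory Module Set
open scoped ENNReal NNReal

namespace Pool.Agent.helper28.Hartogs

instance : IsFiniteMeasure volT := by
  refine ⟨?_⟩
  rw [volT, Measure.restrict_apply_univ]
  exact (measure_mono hartogs_subset_ball).trans_lt measure_ball_lt_top

lemma measurableSet_ballB : MeasurableSet ballB := Metric.isOpen_ball.measurableSet

lemma vol_ballB_pos : 0 < volume ballB := Metric.measure_ball_pos _ _ (by norm_num)

lemma vol_ballB_lt : volume ballB < ∞ := measure_ball_lt_top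

/-- the averaging measure -/
noncomputable def kap : Measure (ℂ × ℂ) := (volume ballB)⁻¹ • volume.restrict ballB

instance : IsProbabilityMeasure kap := by
  constructor
  rw [kap, Measure.smul_apply, Measure.restrict_apply_univ, smul_eq_mul]
  exact ENNReal.inv_mul_cancel vol_ballB_pos.ne' vol_ballB_lt.ne

lemma ae_kap : ∀ᵐ ζ ∂kap, ζ ∈ ballB := by
  have : ∀ᵐ ζ ∂((volume : Measure (ℂ × ℂ)).restrict ballB), ζ ∈ ballB :=
    ae_restrict_mem Metric.isOpen_ball.measurableSet
  exact Measure.ae_smul_measure this _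

lemma measurable_nu : Measurable nu := by
  unfold nu
  fun_prop

lemma measurable_Psi : Measurable Psi := by
  unfold Psi
  have := measurable_nu
  fun_prop

lemma measurable_Vel : Measurable Vel := by
  unfold Vel
  have := measurable_nu
  fun_prop

lemma measurable_Lz (v : ℂ × ℂ) : Measurable fun X => Lz X v := by
  simp only [Lz_apply, dth_apply]
  have := measurable_nu
  fun_prop

/-- multiplication by a unit complex number preserves the measure of `ℂ²` -/
lemma measurePreserving_rot {c : ℂ} (hc : ‖c‖ = 1) :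
    MeasurePreserving (fun ζ : ℂ × ℂ => c • ζ) volume volume := by
  have h1 : MeasurePreserving (fun x : ℂ => c * x) volume volume := by
    let r : Circle := ⟨c, by simp [Submonoid.unitSphere, hc]⟩
    have := (rotation r).measurePreserving
    exact this
  have h2 := h1.prod h1
  rw [← Measure.volume_eq_prod] at h2
  exact h2

lemma lintegral_affine {z : ℂ × ℂ} (hz : z.2 ≠ 0) {t : ℝ} (ht : 0 < t)
    {G : ℂ × ℂ → ℝ≥0∞} (hG : Measurable G) :
    ∫⁻ ζ, G (Psi (t, ζ, z)) = ENNReal.ofReal (t ^ 4)⁻¹ * ∫⁻ y, G y := by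
  have h1 : ∫⁻ ζ, G (Psi (t, ζ, z)) = ∫⁻ ζ : ℂ × ℂ, G ((1 - t) • z + t • ζ) := by
    have := (measurePreserving_rot (norm_nu hz)).lintegral_comp
      (f := fun ζ : ℂ × ℂ => G ((1 - t) • z + t • ζ)) (by fun_prop)
    exact this
  rw [h1]
  have h2 : ∫⁻ ζ : ℂ × ℂ, G ((1 - t) • z + t • ζ) =
      ∫⁻ y, G ((1 - t) • z + y) ∂(Measure.map (fun ζ : ℂ × ℂ => t • ζ) volume) := by
    rw [lintegral_map (by fun_prop) (by fun_prop)]
  rw [h2, Measure.map_addHaar_smul volume ht.ne', lintegral_smul_measure,
    lintegral_add_left_eq_self G ((1 - t) • z)]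
  congr 2
  have h3 : finrank ℝ (ℂ × ℂ) = 4 := by simp
  rw [h3, abs_of_pos (by positivity)]

lemma lintegral_kap_le {z : ℂ × ℂ} (hz : z ∈ hartogs) {t : ℝ} (ht : 0 < t) (ht1 : t ≤ 1)
    {g : ℂ × ℂ → ℝ≥0∞} (hg : Measurable g) :
    ∫⁻ ζ, g (Psi (t, ζ, z)) ∂kap ≤ (volume ballB)⁻¹ * (ENNReal.ofReal (t ^ 4)⁻¹ *
      ∫⁻ y, (Metric.closedBall z (2 * t)).indicator g y ∂volT) := by
  rw [kap, lintegral_smul_measure, smul_eq_mul]
  gcongr
  have hms : MeasurableSet (hartogs ∩ Metric.closedBall z (2 * t)) :=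
    measurableSet_hartogs.inter Metric.isClosed_closedBall.measurableSet
  have h1 : ∫⁻ ζ in ballB, g (Psi (t, ζ, z)) ≤
      ∫⁻ ζ, (hartogs ∩ Metric.closedBall z (2 * t)).indicator g (Psi (t, ζ, z)) := by
    rw [← lintegral_indicator measurableSet_ballB]
    refine lintegral_mono fun ζ => ?_
    by_cases hζ : ζ ∈ ballB
    · have h2 : Psi (t, ζ, z) ∈ hartogs ∩ Metric.closedBall z (2 * t) := by
        refine ⟨Psi_mem hz ht.le ht1 hζ, ?_⟩
        rw [mem_closedBall_iff_norm]
        exact norm_Psi_sub hz ht.le hζ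
      rw [indicator_of_mem (by exact hζ), indicator_of_mem h2]
    · rw [indicator_of_notMem (by exact hζ)]
      exact bot_le
  refine h1.trans ?_
  rw [lintegral_affine (snd_ne_zero hz) ht (hg.indicator hms)]
  refine le_of_eq ?_
  congr 1
  rw [volT, ← lintegral_indicator measurableSet_hartogs]
  refine lintegral_congr fun y => ?_
  rw [← indicator_indicator]

/-- the weight `1/|z₂|` is square integrable, on strips -/
lemma lintegral_weight {D : Set ℂ} (hD : MeasurableSet D) :
    ∫⁻ z, ({z : ℂ × ℂ | z.2 ∈ D}.indicator (fun z => (‖z.2‖ₑ⁻¹) ^ 2) z) ∂volT ≤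
      NNReal.pi * volume D := by
  have hms : MeasurableSet {z : ℂ × ℂ | ‖z.1‖ < ‖z.2‖} :=
    measurableSet_lt (by fun_prop) (by fun_prop)
  have hmD : MeasurableSet {z : ℂ × ℂ | z.2 ∈ D} := measurable_snd hD
  have hsub : volT ≤ (volume : Measure (ℂ × ℂ)).restrict {z : ℂ × ℂ | ‖z.1‖ < ‖z.2‖} :=
    Measure.restrict_mono (fun z hz => hz.1) le_rfl
  refine (lintegral_mono' hsub le_rfl).trans ?_
  rw [← lintegral_indicator hms, Measure.volume_eq_prod, lintegral_prod_symm]
  · calc ∫⁻ y : ℂ, ∫⁻ x : ℂ, {z : ℂ × ℂ | ‖z.1‖ < ‖z.2‖}.indicator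
          ({z : ℂ × ℂ | z.2 ∈ D}.indicator fun z => (‖z.2‖ₑ⁻¹) ^ 2) (x, y)
        ≤ ∫⁻ y : ℂ, D.indicator (fun _ => (NNReal.pi : ℝ≥0∞)) y := by
          refine lintegral_mono fun y => ?_
          by_cases hy : y ∈ D
          · rw [indicator_of_mem hy]
            have h1 : ∀ x : ℂ, {z : ℂ × ℂ | ‖z.1‖ < ‖z.2‖}.indicator
                ({z : ℂ × ℂ | z.2 ∈ D}.indicator fun z => (‖z.2‖ₑ⁻¹) ^ 2) (x, y) =
                (Metric.ball (0 : ℂ) ‖y‖).indicator (fun _ => (‖y‖ₑ⁻¹) ^ 2) x := by
              intro x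
              by_cases hx : ‖x‖ < ‖y‖
              · rw [indicator_of_mem (by exact hx), indicator_of_mem (by exact hy),
                  indicator_of_mem (by simpa using hx)]
              · rw [indicator_of_notMem (by exact hx), indicator_of_notMem (by simpa using hx)]
            simp only [h1]
            rw [lintegral_indicator_const Metric.isOpen_ball.measurableSet, Complex.volume_ball,
              ofReal_norm, ← mul_assoc, ← mul_pow]
            calc (‖y‖ₑ⁻¹ * ‖y‖ₑ) ^ 2 * (NNReal.pi : ℝ≥0∞) ≤ 1 ^ 2 * (NNReal.pi : ℝ≥0∞) := by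
                  gcongr
                  rw [mul_comm]
                  exact ENNReal.mul_inv_le_one _
              _ = _ := by simp
          · rw [indicator_of_notMem hy]
            refine le_of_eq ?_
            rw [lintegral_eq_zero_iff']
            · refine Filter.Eventually.of_forall fun x => ?_
              by_cases hx : ‖x‖ < ‖y‖
              · simp only
                rw [indicator_of_mem (by exact hx), indicator_of_notMem (by exact hy)]; rfl
              · simp only
                rw [indicator_of_notMem (by exact hx)]; rfl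
            · have hm : Measurable ({z : ℂ × ℂ | ‖z.1‖ < ‖z.2‖}.indicator
                ({z : ℂ × ℂ | z.2 ∈ D}.indicator fun z => (‖z.2‖ₑ⁻¹) ^ 2)) :=
                (Measurable.indicator (by fun_prop) hmD).indicator hms
              exact (hm.comp measurable_prodMk_right).aemeasurable
      _ = NNReal.pi * volume D := by rw [lintegral_indicator_const hD]
  · exact ((Measurable.indicator (by fun_prop) hmD).indicator hms).aemeasurable

end Pool.Agent.helper28.Hartogs
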