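import Pool.Agent.helper28.Hartogs.Ibp

open MeasureTheory Set ContDiff Filter Topology
open scoped InnerProductSpace ENNReal NNReal Convolution

set_option linter.unusedSectionVars false

namespace Pool.Agent.helper28.Hartogs

section translation

variable {F : Type} [NormedAddCommGroup F]

/-- translations as a continuous family of continuous maps -/
noncomputable def shiftC : C(ℂ × ℂ, C(ℂ × ℂ, ℂ × ℂ)) :=
  (⟨fun p : (ℂ × ℂ) × (ℂ × ℂ) => p.2 - p.1, by fun_prop⟩ :
    C((ℂ × ℂ) × (ℂ × ℂ), ℂ × ℂ)).curry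

lemma shiftC_apply (t x : ℂ × ℂ) : shiftC t x = x - t := rfl

lemma shiftC_mp (t : ℂ × ℂ) :
    MeasurePreserving (shiftC t) (volume : Measure (ℂ × ℂ)) volume :=
  measurePreserving_sub_right volume t

lemma exists_translation (g : Lp F 2 (volume : Measure (ℂ × ℂ))) {η : ℝ} (hη : 0 < η) :
    ∃ ε > 0, ∀ t : ℂ × ℂ, ‖t‖ ≤ ε → ∫⁻ x, ‖g (x - t) - g x‖ₑ ^ 2 ≤ ENNReal.ofReal η ^ 2 := by
  have hc : Continuous fun t => Lp.compMeasurePreserving (shiftC t) (shiftC_mp t) g :=
    Continuous.compMeasurePreservingLp continuous_const shiftC.continuous _ (by norm_num)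
  have h0 : Lp.compMeasurePreserving (shiftC 0) (shiftC_mp 0) g = g := by
    apply Lp.ext
    refine (Lp.coeFn_compMeasurePreserving g (shiftC_mp 0)).trans ?_
    refine Eventually.of_forall fun x => ?_
    simp [shiftC_apply]
  have h1 := hc.tendsto 0
  rw [h0, Metric.tendsto_nhds] at h1
  have h2 := h1 η hη
  obtain ⟨ε, hε, h3⟩ := Metric.nhds_basis_closedBall.eventually_iff.mp h2
  refine ⟨ε, hε, fun t ht => ?_⟩
  have h4 := h3 (show t ∈ Metric.closedBall (0 : ℂ × ℂ) ε by simpa using ht)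
  rw [dist_eq_norm] at h4
  have h5 : ∫⁻ x, ‖g (x - t) - g x‖ₑ ^ 2 =
      ‖Lp.compMeasurePreserving (shiftC t) (shiftC_mp t) g - g‖ₑ ^ 2 := by
    rw [Lp.enorm_def, eLpNorm_two_sq]
    refine lintegral_congr_ae ?_
    filter_upwards [Lp.coeFn_sub (Lp.compMeasurePreserving (shiftC t) (shiftC_mp t) g) g,
      Lp.coeFn_compMeasurePreserving g (shiftC_mp t)] with x e1 e2
    rw [e1, Pi.sub_apply, e2]
    rfl
  rw [h5]
  gcongr
  rw [← ofReal_norm]
  exact ENNReal.ofReal_le_ofReal h4.le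

end translation

section mollify

variable {F : Type} [NormedAddCommGroup F] [NormedSpace ℝ F] [CompleteSpace F]
  [MeasurableSpace F] [BorelSpace F] [SecondCountableTopology F]

/-- mollification -/
noncomputable def moll (f : ContDiffBump (0 : ℂ × ℂ)) (g : ℂ × ℂ → F) : ℂ × ℂ → F :=
  (f.normed volume) ⋆[ContinuousLinearMap.lsmul ℝ ℝ, volume] g

lemma moll_apply (f : ContDiffBump (0 : ℂ × ℂ)) (g : ℂ × ℂ → F) (x : ℂ × ℂ) :
    moll f g x = ∫ t, f.normed volume t • g (x - t) := rfl

lemma mollify_close (f : ContDiffBump (0 : ℂ × ℂ)) (g : Lp F 2 (volume : Measure (ℂ × ℂ)))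
    {η : ℝ≥0∞} (h : ∀ t : ℂ × ℂ, ‖t‖ ≤ f.rOut → ∫⁻ x, ‖g (x - t) - g x‖ₑ ^ 2 ≤ η ^ 2) :
    ∫⁻ x, ‖moll f g x - g x‖ₑ ^ 2 ≤ η ^ 2 := by
  set ρ := f.normed (volume : Measure (ℂ × ℂ)) with hρ
  have hρ0 : ∀ t, 0 ≤ ρ t := fun t => f.nonneg_normed t
  have hρc : Continuous ρ := f.contDiff_normed.continuous (n := 0)
  have hρi : ∫ t, ρ t = 1 := f.integral_normed
  have hρint : Integrable ρ volume := f.integrable_normed
  have hgm : Measurable (g : ℂ × ℂ → F) := (Lp.stronglyMeasurable g).measurable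
  have hgl : LocallyIntegrable g volume := (Lp.memLp g).locallyIntegrable one_le_two
  set d : ℂ × ℂ → ℝ≥0∞ := fun t => ENNReal.ofReal (ρ t) with hd
  have hdm : Measurable d := hρc.measurable.ennreal_ofReal
  have hd1 : (volume.withDensity d) univ = 1 := by
    rw [withDensity_apply _ MeasurableSet.univ, Measure.restrict_univ,
      ← ofReal_integral_eq_lintegral_ofReal hρint (Eventually.of_forall hρ0), hρi,
      ENNReal.ofReal_one]
  have : IsProbabilityMeasure (volume.withDensity d) := ⟨hd1⟩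
  have hpt : ∀ x, ‖moll f g x - g x‖ₑ ^ 2 ≤ ∫⁻ t, d t * ‖g (x - t) - g x‖ₑ ^ 2 := by
    intro x
    have hconv : Integrable (fun t => ρ t • g (x - t)) volume :=
      (f.hasCompactSupport_normed.convolutionExists_left
        (ContinuousLinearMap.lsmul ℝ ℝ) hρc hgl x)
    have e1 : moll f g x - g x = ∫ t, ρ t • (g (x - t) - g x) := by
      simp only [smul_sub]
      rw [integral_sub hconv (hρint.smul_const _), integral_smul_const, hρi, one_smul, moll_apply]
    have hmt : Measurable fun t => ‖g (x - t) - g x‖ₑ :=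
      ((hgm.comp (by fun_prop : Measurable fun t => x - t)).sub_const _).enorm
    rw [e1]
    calc ‖∫ t, ρ t • (g (x - t) - g x)‖ₑ ^ 2
        ≤ (∫⁻ t, ‖ρ t • (g (x - t) - g x)‖ₑ) ^ 2 := by
          gcongr; exact enorm_integral_le_lintegral_enorm _
      _ = (∫⁻ t, ‖g (x - t) - g x‖ₑ ∂(volume.withDensity d)) ^ 2 := by
          rw [lintegral_withDensity_eq_lintegral_mul _ hdm hmt]
          congr 1
          refine lintegral_congr fun t => ?_
          rw [enorm_smul, Pi.mul_apply, hd, Real.enorm_of_nonneg (hρ0 t)]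
      _ ≤ (volume.withDensity d) univ * ∫⁻ t, ‖g (x - t) - g x‖ₑ ^ 2 ∂(volume.withDensity d) :=
          lintegral_sq_le _ hmt.aemeasurable
      _ = _ := by
          rw [hd1, one_mul, lintegral_withDensity_eq_lintegral_mul _ hdm (hmt.pow_const 2)]
          rfl
  calc ∫⁻ x, ‖moll f g x - g x‖ₑ ^ 2 ≤ ∫⁻ x, ∫⁻ t, d t * ‖g (x - t) - g x‖ₑ ^ 2 :=
        lintegral_mono hpt
    _ = ∫⁻ t, ∫⁻ x, d t * ‖g (x - t) - g x‖ₑ ^ 2 := by
        rw [lintegral_lintegral_swap]
        have hm2 : Measurable fun p : (ℂ × ℂ) × (ℂ × ℂ) => d p.2 * ‖g (p.1 - p.2) - g p.1‖ₑ ^ 2 :=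
          (hdm.comp measurable_snd).mul (((hgm.comp (by fun_prop)).sub
            (hgm.comp measurable_fst)).enorm.pow_const 2)
        exact hm2.aemeasurable
    _ ≤ ∫⁻ t, d t * η ^ 2 := by
        refine lintegral_mono fun t => ?_
        have hmx : Measurable fun x => ‖g (x - t) - g x‖ₑ ^ 2 :=
          ((hgm.comp (by fun_prop)).sub hgm).enorm.pow_const 2
        simp only
        rw [lintegral_const_mul _ hmx]
        by_cases ht : ‖t‖ ≤ f.rOut
        · gcongr
          exact h t ht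
        · have : ρ t = 0 := by
            have h1 : t ∉ tsupport ρ := by
              rw [hρ, f.tsupport_normed_eq]
              simpa using ht
            exact image_eq_zero_of_notMem_tsupport h1
          rw [hd]
          simp [this]
    _ = η ^ 2 := by
        rw [lintegral_mul_const _ hdm]
        have : ∫⁻ t, d t = 1 := by
          have := hd1
          rwa [withDensity_apply _ MeasurableSet.univ, Measure.restrict_univ] at this
        rw [this, one_mul]

lemma contDiff_moll (f : ContDiffBump (0 : ℂ × ℂ)) {g : ℂ × ℂ → F}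
    (hg : LocallyIntegrable g volume) : ContDiff ℝ ∞ (moll f g) :=
  f.hasCompactSupport_normed.contDiff_convolution_left _ f.contDiff_normed hg

lemma fderiv_moll (f : ContDiffBump (0 : ℂ × ℂ)) {g : ℂ × ℂ → F}
    (hg : LocallyIntegrable g volume) (x v : ℂ × ℂ) :
    fderiv ℝ (moll f g) x v = ∫ y, fderiv ℝ (f.normed volume) (x - y) v • g y := by
  have hcs : HasCompactSupport (f.normed (volume : Measure (ℂ × ℂ))) :=
    f.hasCompactSupport_normed
  have hcd1 : ContDiff ℝ 1 (f.normed (volume : Measure (ℂ × ℂ))) := f.contDiff_normed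
  have h1 := hcs.hasFDerivAt_convolution_left
    (ContinuousLinearMap.lsmul ℝ ℝ : ℝ →L[ℝ] F →L[ℝ] F) hcd1 hg x
  have h2 : fderiv ℝ (moll f g) x = _ := h1.fderiv
  rw [h2, convolution_def]
  have hcd : Continuous (fderiv ℝ (f.normed (volume : Measure (ℂ × ℂ)))) :=
    hcd1.continuous_fderiv (by simp)
  have hconv := (hcs.fderiv ℝ).convolutionExists_left
    ((ContinuousLinearMap.lsmul ℝ ℝ : ℝ →L[ℝ] F →L[ℝ] F).precompL (ℂ × ℂ)) hcd hg x
  rw [ContinuousLinearMap.integral_apply hconv]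
  rw [← integral_sub_left_eq_self (fun y => fderiv ℝ (f.normed volume) (x - y) v • g y) volume x]
  refine integral_congr_ae (Eventually.of_forall fun t => ?_)
  simp [ContinuousLinearMap.precompL_apply]

end mollify

end Pool.Agent.helper28.Hartogs
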