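import Pool.Agent.helper28.Hartogs.SchurS

open MeasureTheory Module Set
open scoped ENNReal NNReal

namespace Pool.Agent.helper28.Hartogs

lemma schurS (p : ℕ) : ∃ C' : ℝ≥0, (kerS p).Schur volT (par (volume.restrict (Ioc 0 1))) C' :=
  schur_full rfl rfl

lemma ae_dirac_one : ∀ᵐ t ∂(Measure.dirac (1 : ℝ)), (1 : ℝ) ≤ t ∧ t ≤ 1 := by
  rw [ae_dirac_iff (by exact measurableSet_Ici.inter measurableSet_Iic)]
  exact ⟨le_rfl, le_rfl⟩

lemma schurQ (q : ℕ) : ∃ C' : ℝ≥0, (kerQ q).Schur volT (par (Measure.dirac 1)) C' :=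
  schur_of_away rfl rfl one_pos ae_dirac_one

instance (τ : Measure ℝ) [IsFiniteMeasure τ] : IsFiniteMeasure (par τ) := by
  unfold par; infer_instance

/-- the homotopy operator on `L²` -/
noncomputable def opS (p : ℕ) : L2 (p + 1) →L[ℂ] L2 p := Ker.op (schurS p).choose_spec

/-- the averaged pull-back on `L²` -/
noncomputable def opQ (q : ℕ) : L2 q →L[ℂ] L2 q := Ker.op (schurQ q).choose_spec

lemma cc_pointwise_const {q r : ℕ} {K : Ker (ℝ × (ℂ × ℂ)) (ℂ × ℂ) (Form q) (Form r)} {C : ℝ≥0}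
    (hphi : K.phi = fun y => Psi (toX y)) (hm : K.m = wgt C)
    {τ : Measure ℝ} [IsFiniteMeasure τ] {a : ℝ} (ha : 0 < a)
    (hτ : ∀ᵐ t ∂τ, a ≤ t ∧ t ≤ 1) :
    ∃ c : ℂ × ℂ → ℝ≥0∞, Measurable c ∧ ∫⁻ z, c z ^ 2 ∂volT < ∞ ∧
      Ker.Pointwise K (par τ) volT c := by
  refine ⟨_, ?_, ?_, pointwise_of_away hphi hm ha hτ⟩
  · exact (measurable_cw C).const_mul _
  · simp only [mul_pow]
    rw [lintegral_const_mul _ ((measurable_cw C).pow_const 2)]
    refine ENNReal.mul_lt_top ?_ (lintegral_cw_lt_top C)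
    refine ENNReal.mul_lt_top (ENNReal.pow_lt_top (measure_lt_top τ _))
      (ENNReal.mul_lt_top (ENNReal.pow_lt_top (ENNReal.inv_lt_top.mpr vol_ballB_pos))
        (ENNReal.pow_lt_top ENNReal.ofReal_lt_top))

lemma cc_opQ (q : ℕ) : CC (opQ q) := by
  obtain ⟨c, hc, hc2, hp⟩ := cc_pointwise_const (K := kerQ q) rfl rfl one_pos ae_dirac_one
  exact Ker.cc_of_pointwise _ hc hc2 hp

lemma cc_opS (p : ℕ) : CC (opS p) := by
  refine Ker.cc_of_split _ fun ε hε => ?_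
  set δ := min ε 1 with hδ
  have h0 : 0 < δ := lt_min hε one_pos
  have h1 : δ ≤ 1 := min_le_right _ _
  refine ⟨par (volume.restrict (Ioc 0 δ)), par (volume.restrict (Ioc δ 1)), ?_, ?_, ?_⟩
  · rw [par, par, par, ← Measure.add_prod, ← Measure.restrict_union
      (Ioc_disjoint_Ioc_of_le le_rfl) measurableSet_Ioc, Ioc_union_Ioc_eq_Ioc h0.le h1]
  · rw [par, ← univ_prod_univ, Measure.prod_prod]
    simp only [measure_univ, mul_one, Measure.restrict_apply_univ, Real.volume_Ioc]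
    rw [sub_zero, ENNReal.toReal_ofReal h0.le]
    exact min_le_left _ _
  · refine cc_pointwise_const (K := kerS p) rfl rfl h0 ?_
    filter_upwards [ae_restrict_mem (μ := volume) measurableSet_Ioc] with t ht
    exact ⟨ht.1.le, ht.2⟩

end Pool.Agent.helper28.Hartogs
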