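import Pool.Agent.helper28.Hartogs.RankOne

open MeasureTheory Module Set
open scoped ENNReal NNReal

namespace Pool.Agent.helper28.Hartogs

/-- evaluate a form on finitely many vector fields, given as coefficient vector -/
noncomputable def evalF {q r : ℕ} (V : Idx r → Fin q → ℂ × ℂ) (w : Form q) : Form r :=
  WithLp.toLp 2 fun I => alt q w (V I)

lemma evalF_add {q r : ℕ} (V : Idx r → Fin q → ℂ × ℂ) (v w : Form q) :
    evalF V (v + w) = evalF V v + evalF V w := by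
  ext I
  change alt q (v + w) (V I) = alt q v (V I) + alt q w (V I)
  rw [map_add]; rfl

lemma evalF_smul {q r : ℕ} (V : Idx r → Fin q → ℂ × ℂ) (c : ℂ) (w : Form q) :
    evalF V (c • w) = c • evalF V w := by
  ext I
  exact alt_smul c w (V I)

lemma measurable_evalF {Z : Type*} [MeasurableSpace Z] {q r : ℕ}
    {V : Z → Idx r → Fin q → ℂ × ℂ} (hV : ∀ I i, Measurable fun y => V y I i) :
    Measurable fun p : Z × Form q => evalF (V p.1) p.2 := by
  have h : ∀ I : Idx r, Measurable fun p : Z × Form q => alt q p.2 (V p.1 I) := by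
    intro I
    have h1 : (fun p : Z × Form q => alt q p.2 (V p.1 I)) = fun p =>
        ∑ s : Fin q → Fin 4, (∏ i, bas.repr (V p.1 I i) (s i)) • alt q p.2 (fun i => e (s i)) := by
      funext p
      exact multilinear_expand (alt q p.2).toMultilinearMap _
    rw [h1]
    refine Finset.measurable_sum _ fun s _ => ?_
    have m1 : Measurable fun p : Z × Form q => ∏ i, bas.repr (V p.1 I i) (s i) := by
      refine Finset.measurable_prod _ fun i _ => ?_
      have hc : Continuous (bas.coord (s i)) :=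
        LinearMap.continuous_of_finiteDimensional (bas.coord (s i))
      exact hc.measurable.comp ((hV I i).comp measurable_fst)
    have m2 : Measurable fun p : Z × Form q => alt q p.2 (fun i => e (s i)) := by
      have hc : Continuous fun w : Form q => alt q w (fun i => e (s i)) :=
        (ContinuousAlternatingMap.apply ℝ (ℂ × ℂ) ℂ (fun i => e (s i))).continuous.comp
          (alt q).continuous
      exact hc.measurable.comp measurable_snd
    exact m1.smul m2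
  have h2 : Measurable fun p : Z × Form q => fun I => alt q p.2 (V p.1 I) :=
    measurable_pi_lambda _ h
  exact (WithLp.measurable_toLp 2 (Idx r → ℂ)).comp h2

/-- vectors for the pull-back operator -/
noncomputable def vecQ (q : ℕ) (X : ℝ × (ℂ × ℂ) × (ℂ × ℂ)) (I : Idx q) (i : Fin q) : ℂ × ℂ :=
  Lz X (e (I i))

/-- vectors for the homotopy operator -/
noncomputable def vecS (p : ℕ) (X : ℝ × (ℂ × ℂ) × (ℂ × ℂ)) (I : Idx p) : Fin (p + 1) → ℂ × ℂ :=
  Fin.cons (Vel X) fun i => Lz X (e (I i))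

lemma evalF_bound (q r : ℕ) : ∃ C : ℝ≥0, 1 ≤ C ∧ ∀ (V : Idx r → Fin q → ℂ × ℂ) (w : Form q) (κ : ℝ),
    0 ≤ κ → (∀ I, ‖alt q w (V I)‖ ≤ 2 ^ r * ((‖alt q w‖ * 2) * (1 + κ))) →
    ‖evalF V w‖ ≤ C * (1 + κ) * ‖w‖ := by
  obtain ⟨C, hC, h⟩ := exists_toLp_bound r
  refine ⟨⟨max 1 (C * (2 ^ r * (‖alt q‖ * 2))), le_trans zero_le_one (le_max_left _ _)⟩,
    NNReal.coe_le_coe.mp (le_max_left _ _), fun V w κ hκ hV => ?_⟩
  have h1 := h (fun I => alt q w (V I)) (2 ^ r * ((‖alt q w‖ * 2) * (1 + κ))) (by positivity) hV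
  change ‖evalF V w‖ ≤ max 1 (C * (2 ^ r * (‖alt q‖ * 2))) * (1 + κ) * ‖w‖
  refine h1.trans ?_
  have h2 : ‖alt q w‖ ≤ ‖alt q‖ * ‖w‖ := (alt q).le_opNorm w
  calc C * (2 ^ r * ((‖alt q w‖ * 2) * (1 + κ)))
      ≤ C * (2 ^ r * ((‖alt q‖ * ‖w‖ * 2) * (1 + κ))) := by gcongr
    _ = (C * (2 ^ r * (‖alt q‖ * 2))) * (1 + κ) * ‖w‖ := by ring
    _ ≤ max 1 (C * (2 ^ r * (‖alt q‖ * 2))) * (1 + κ) * ‖w‖ := by
        gcongr; exact le_max_right _ _

lemma vecQ_bound {q : ℕ} (w : Form q) {t : ℝ} {z ζ : ℂ × ℂ} (ht : 0 ≤ t) (ht1 : t ≤ 1)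
    (hz : z ∈ hartogs) (hζ : ζ ∈ ballB) (I : Idx q) :
    ‖alt q w (vecQ q (t, ζ, z) I)‖ ≤ 2 ^ q * ((‖alt q w‖ * 2) * (1 + t * ‖z.2‖⁻¹)) := by
  have h := rank_one_bound (alt q w).toAlternatingMap (norm_nonneg (alt q w))
    (by positivity : 0 ≤ t * ‖z.2‖⁻¹) (fun v => (alt q w).le_opNorm v)
    (fun i => (1 - t) • e (I i)) (fun i => t * dth z (e (I i))) ((Complex.I * nu z) • ζ)
    (fun i => base_bound ht ht1 (I i)) (dir_bound hz hζ) (fun i => coef_bound ht z (I i))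
  have e1 : vecQ q (t, ζ, z) I = fun i => (1 - t) • e (I i) +
      (t * dth z (e (I i))) • ((Complex.I * nu z) • ζ) := funext fun i => Lz_struct (I i)
  rw [e1]
  refine h.trans ?_
  have : 0 ≤ ‖alt q w‖ := norm_nonneg _
  gcongr
  linarith

lemma vecS_bound {p : ℕ} (w : Form (p + 1)) {t : ℝ} {z ζ : ℂ × ℂ} (ht : 0 ≤ t) (ht1 : t ≤ 1)
    (hz : z ∈ hartogs) (hζ : ζ ∈ ballB) (I : Idx p) :
    ‖alt (p + 1) w (vecS p (t, ζ, z) I)‖ ≤
      2 ^ p * ((‖alt (p + 1) w‖ * 2) * (1 + t * ‖z.2‖⁻¹)) := by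
  let g : (ℂ × ℂ) [⋀^Fin p]→ₗ[ℝ] ℂ := (alt (p + 1) w).toAlternatingMap.curryLeft (Vel (t, ζ, z))
  have hg : ∀ v, ‖g v‖ ≤ (‖alt (p + 1) w‖ * 2) * ∏ i, ‖v i‖ := by
    intro v
    have h1 := (alt (p + 1) w).le_opNorm (Fin.cons (Vel (t, ζ, z)) v)
    rw [Fin.prod_univ_succ] at h1
    simp only [Fin.cons_zero, Fin.cons_succ] at h1
    refine le_trans h1 ?_
    rw [mul_assoc]
    have h2 := norm_Vel_le (t := t) hz hζ
    have h3 : 0 ≤ ∏ i, ‖v i‖ := Finset.prod_nonneg fun i _ => norm_nonneg _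
    gcongr
  have h := rank_one_bound g (by positivity)
    (by positivity : 0 ≤ t * ‖z.2‖⁻¹) hg
    (fun i => (1 - t) • e (I i)) (fun i => t * dth z (e (I i))) ((Complex.I * nu z) • ζ)
    (fun i => base_bound ht ht1 (I i)) (dir_bound hz hζ) (fun i => coef_bound ht z (I i))
  have e1 : vecS p (t, ζ, z) I = Fin.cons (Vel (t, ζ, z)) (fun i => (1 - t) • e (I i) +
      (t * dth z (e (I i))) • ((Complex.I * nu z) • ζ)) := by
    rw [vecS]
    congr 1
    exact funext fun i => Lz_struct (I i)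
  rw [e1]
  exact h

/-- the set of good points -/
def good : Set ((ℂ × ℂ) × (ℝ × (ℂ × ℂ))) :=
  {y | y.1 ∈ hartogs ∧ y.2.1 ∈ Icc (0 : ℝ) 1 ∧ y.2.2 ∈ ballB}

lemma measurableSet_good : MeasurableSet good := by
  refine (measurable_fst measurableSet_hartogs).inter
    (((measurable_fst.comp measurable_snd) measurableSet_Icc).inter
      ((measurable_snd.comp measurable_snd) measurableSet_ballB))

/-- reordering of the variables -/
def toX (y : (ℂ × ℂ) × (ℝ × (ℂ × ℂ))) : ℝ × (ℂ × ℂ) × (ℂ × ℂ) := (y.2.1, y.2.2, y.1)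

lemma measurable_toX : Measurable toX := by unfold toX; fun_prop

/-- the weight -/
noncomputable def wgt (C : ℝ≥0) (y : (ℂ × ℂ) × (ℝ × (ℂ × ℂ))) : ℝ≥0∞ :=
  C * (1 + ENNReal.ofReal y.2.1 * ‖y.1.2‖ₑ⁻¹)

lemma measurable_wgt (C : ℝ≥0) : Measurable (wgt C) := by
  unfold wgt
  fun_prop

open Classical in
/-- generic kernel with parameters `(t, ζ)` -/
noncomputable def mkKer {q r : ℕ} (V : ℝ × (ℂ × ℂ) × (ℂ × ℂ) → Idx r → Fin q → ℂ × ℂ)
    (hV : ∀ I i, Measurable fun X => V X I i)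
    (hb : ∀ (w : Form q) (t : ℝ) (z ζ : ℂ × ℂ), 0 ≤ t → t ≤ 1 → z ∈ hartogs → ζ ∈ ballB →
      ∀ I, ‖alt q w (V (t, ζ, z) I)‖ ≤ 2 ^ r * ((‖alt q w‖ * 2) * (1 + t * ‖z.2‖⁻¹))) :
    Ker (ℝ × (ℂ × ℂ)) (ℂ × ℂ) (Form q) (Form r) where
  phi y := Psi (toX y)
  A y w := if y ∈ good then evalF (V (toX y)) w else 0
  m y := wgt (evalF_bound q r).choose y
  meas_phi := measurable_Psi.comp measurable_toX
  meas_A := by
    have h1 : Measurable fun p : ((ℂ × ℂ) × (ℝ × (ℂ × ℂ))) × Form q => evalF (V (toX p.1)) p.2 :=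
      measurable_evalF (V := fun y => V (toX y)) fun I i => (hV I i).comp measurable_toX
    exact Measurable.ite (measurable_fst measurableSet_good) h1 measurable_const
  meas_m := measurable_wgt _
  add y v w := by
    by_cases hy : y ∈ good
    · simp only [if_pos hy]; exact evalF_add _ _ _
    · simp only [if_neg hy, add_zero]
  smul y c w := by
    by_cases hy : y ∈ good
    · simp only [if_pos hy]; exact evalF_smul _ _ _
    · simp only [if_neg hy, smul_zero]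
  bound y w := by
    by_cases hy : y ∈ good
    · simp only [if_pos hy]
      obtain ⟨hz, ht, hζ⟩ := hy
      obtain ⟨h1, h2⟩ := (evalF_bound q r).choose_spec
      set C := (evalF_bound q r).choose with hC
      have h3 := h2 (V (toX y)) w (y.2.1 * ‖y.1.2‖⁻¹)
        (mul_nonneg ht.1 (inv_nonneg.mpr (norm_nonneg _)))
        (fun I => hb w y.2.1 y.1 y.2.2 ht.1 ht.2 hz hζ I)
      have hz2 : ‖y.1.2‖ ≠ 0 := norm_ne_zero_iff.mpr (snd_ne_zero hz)
      rw [← ofReal_norm, ← ofReal_norm]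
      refine (ENNReal.ofReal_le_ofReal h3).trans ?_
      have hnn : 0 ≤ 1 + y.2.1 * ‖y.1.2‖⁻¹ :=
        add_nonneg zero_le_one (mul_nonneg ht.1 (inv_nonneg.mpr (norm_nonneg _)))
      rw [ENNReal.ofReal_mul (mul_nonneg C.coe_nonneg hnn), ENNReal.ofReal_mul C.coe_nonneg]
      refine le_of_eq ?_
      congr 1
      rw [wgt, ENNReal.ofReal_coe_nnreal]
      congr 1
      rw [ENNReal.ofReal_add zero_le_one (mul_nonneg ht.1 (inv_nonneg.mpr (norm_nonneg _))),
        ENNReal.ofReal_one, ENNReal.ofReal_mul ht.1,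
        ENNReal.ofReal_inv_of_pos (lt_of_le_of_ne (norm_nonneg _) hz2.symm), ofReal_norm]
    · simp only [if_neg hy, enorm_zero]
      exact bot_le
  one_le y := by
    have h1 := (evalF_bound q r).choose_spec.1
    have h2 : (1 : ℝ≥0∞) ≤ ((evalF_bound q r).choose : ℝ≥0) := by exact_mod_cast h1
    calc (1 : ℝ≥0∞) = 1 * 1 := (one_mul 1).symm
      _ ≤ _ := by
          unfold wgt
          gcongr
          exact le_self_add

/-- the kernel of the homotopy operator `S` on `(p+1)`-forms -/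
noncomputable def kerS (p : ℕ) : Ker (ℝ × (ℂ × ℂ)) (ℂ × ℂ) (Form (p + 1)) (Form p) :=
  mkKer (vecS p) (by
    intro I i
    refine Fin.cases ?_ (fun j => ?_) i
    · exact measurable_Vel
    · exact measurable_Lz _) (fun w _ _ _ ht ht1 hz hζ I => vecS_bound w ht ht1 hz hζ I)

/-- the kernel of the averaged pull-back `Q` on `q`-forms -/
noncomputable def kerQ (q : ℕ) : Ker (ℝ × (ℂ × ℂ)) (ℂ × ℂ) (Form q) (Form q) :=
  mkKer (vecQ q) (fun I i => measurable_Lz _)
    (fun w _ _ _ ht ht1 hz hζ I => vecQ_bound w ht ht1 hz hζ I)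

end Pool.Agent.helper28.Hartogs
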