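import Pool.Agent.helper28.Hartogs.Defs
import Pool.Agent.helper28.Hartogs.Measure

open MeasureTheory Set ContDiff
open scoped InnerProductSpace

namespace Pool.Agent.helper28.Hartogs

section

variable {q : ℕ}

/-- coordinates of square-integrable forms -/
noncomputable def coordL (I : Idx q) : L2 q →L[ℂ] Lp ℂ 2 volT :=
  (EuclideanSpace.proj I : Form q →L[ℂ] ℂ).compLpL 2 volT

lemma coordL_coe (I : Idx q) (u : L2 q) : coordL I u =ᵐ[volT] fun x => u x I :=
  (EuclideanSpace.proj I : Form q →L[ℂ] ℂ).coeFn_compLpL u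

lemma memLp_coord (I : Idx q) (u : L2 q) : MemLp (fun x => u x I) 2 volT :=
  (Lp.memLp (coordL I u)).ae_eq (coordL_coe I u)

/-- integration against a fixed square-integrable function -/
lemma exists_pair {g : ℂ × ℂ → ℂ} (hg : MemLp g 2 volT) (I : Idx q) :
    ∃ L : L2 q →L[ℂ] ℂ, ∀ u, L u = ∫ x, g x * u x I ∂volT := by
  have hg' : MemLp (fun x => (starRingEnd ℂ) (g x)) 2 volT := hg.star
  refine ⟨(innerSL ℂ (hg'.toLp _)).comp (coordL I), fun u => ?_⟩
  rw [ContinuousLinearMap.comp_apply, innerSL_apply_apply, L2.inner_def]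
  refine integral_congr_ae ?_
  filter_upwards [coordL_coe I u, hg'.coeFn_toLp] with x h1 h2
  rw [h1, h2, RCLike.inner_apply, starRingEnd_self_apply, mul_comm]

lemma integrable_pair {g : ℂ × ℂ → ℂ} (hg : MemLp g 2 volT) (u : L2 q) (I : Idx q) :
    Integrable (fun x => g x * u x I) volT :=
  hg.integrable_mul (memLp_coord I u)

lemma memLp_of_continuous {g : ℂ × ℂ → ℂ} (hg : Continuous g) (hc : HasCompactSupport g) :
    MemLp g 2 volT := by
  have : IsFiniteMeasureOnCompacts volT := inferInstance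
  exact hg.memLp_of_hasCompactSupport hc

lemma memLp_ofReal {g : ℂ × ℂ → ℝ} (hg : Continuous g) (hc : HasCompactSupport g) :
    MemLp (fun x => (g x : ℂ)) 2 volT :=
  memLp_of_continuous (Complex.continuous_ofReal.comp hg)
    (hc.comp_left (g := fun r : ℝ => (r : ℂ)) Complex.ofReal_zero)

lemma memLp_fderiv {φ : ℂ × ℂ → ℝ} (hφ : ContDiff ℝ ∞ φ) (hc : HasCompactSupport φ)
    (v : ℂ × ℂ) : MemLp (fun x => (fderiv ℝ φ x v : ℂ)) 2 volT := by
  refine memLp_ofReal (g := fun x => fderiv ℝ φ x v) ?_ ?_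
  · exact (hφ.continuous_fderiv (by simp)).clm_apply continuous_const
  · exact hc.fderiv_apply ℝ v

end

end Pool.Agent.helper28.Hartogs
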