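import Pool.Agent.helper28.Hartogs.Measure
import Pool.Agent.helper28.Hartogs.Ker

open MeasureTheory Module Set
open scoped ENNReal NNReal

namespace Pool.Agent.helper28.Hartogs

/-- an alternating map on vectors perturbed by multiples of one vector -/
lemma rank_one_bound {p : ℕ} (g : (ℂ × ℂ) [⋀^Fin p]→ₗ[ℝ] ℂ) {M κ : ℝ} (hM : 0 ≤ M) (hκ : 0 ≤ κ)
    (hg : ∀ v, ‖g v‖ ≤ M * ∏ i, ‖v i‖) (m : Fin p → ℂ × ℂ) (c : Fin p → ℝ) (b : ℂ × ℂ)
    (hm : ∀ i, ‖m i‖ ≤ 1) (hb : ‖b‖ ≤ 1) (hc : ∀ i, |c i| ≤ κ) :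
    ‖g (fun i => m i + c i • b)‖ ≤ 2 ^ p * (M * (1 + κ)) := by
  classical
  have h1 : g (fun i => m i + c i • b) =
      ∑ s : Finset (Fin p), g (s.piecewise m (fun i => c i • b)) := by
    exact g.toMultilinearMap.map_add_univ m (fun i => c i • b)
  rw [h1]
  have hterm : ∀ s : Finset (Fin p), ‖g (s.piecewise m (fun i => c i • b))‖ ≤ M * (1 + κ) := by
    intro s
    set v := s.piecewise m (fun i => c i • b) with hv
    have hin : ∀ i ∈ s, v i = m i := fun i hi => by rw [hv, Finset.piecewise_eq_of_mem _ _ _ hi]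
    have hout : ∀ i ∉ s, v i = c i • b := fun i hi => by
      rw [hv, Finset.piecewise_eq_of_notMem _ _ _ hi]
    by_cases h2 : ∃ i j, i ≠ j ∧ i ∉ s ∧ j ∉ s
    · obtain ⟨i, j, hij, hi, hj⟩ := h2
      have e1 : v = Function.update (Function.update v i (c i • b)) j (c j • b) := by
        funext k
        by_cases hkj : k = j
        · subst hkj; rw [Function.update_self, hout _ hj]
        · rw [Function.update_of_ne hkj]
          by_cases hki : k = i
          · subst hki; rw [Function.update_self, hout _ hi]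
          · rw [Function.update_of_ne hki]
      have e2 : g v = 0 := by
        rw [e1, AlternatingMap.map_update_smul, Function.update_comm hij,
          AlternatingMap.map_update_smul]
        have : g (Function.update (Function.update v j b) i b) = 0 := by
          refine AlternatingMap.map_eq_zero_of_eq g _ (i := i) (j := j) ?_ hij
          rw [Function.update_self, Function.update_of_ne hij.symm, Function.update_self]
        rw [this, smul_zero, smul_zero]
      rw [e2, norm_zero]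
      positivity
    · push Not at h2
      refine (hg v).trans ?_
      gcongr
      by_cases h3 : ∀ i, i ∈ s
      · have : ∏ i, ‖v i‖ ≤ 1 := by
          refine Finset.prod_le_one (fun i _ => norm_nonneg _) fun i _ => ?_
          rw [hin i (h3 i)]; exact hm i
        linarith
      · push Not at h3
        obtain ⟨i, hi⟩ := h3
        rw [← Finset.mul_prod_erase Finset.univ _ (Finset.mem_univ i)]
        have e1 : ‖v i‖ ≤ κ := by
          rw [hout i hi, norm_smul, Real.norm_eq_abs]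
          calc |c i| * ‖b‖ ≤ κ * 1 := by
                gcongr
                exact hc i
            _ = κ := mul_one _
        have e2 : ∏ j ∈ Finset.univ.erase i, ‖v j‖ ≤ 1 := by
          refine Finset.prod_le_one (fun i _ => norm_nonneg _) fun j hj => ?_
          have hji : j ≠ i := (Finset.mem_erase.mp hj).1
          have : j ∈ s := by
            by_contra hjs
            exact hjs (h2 i j hji.symm hi)
          rw [hin j this]; exact hm j
        calc ‖v i‖ * ∏ j ∈ Finset.univ.erase i, ‖v j‖ ≤ κ * 1 := by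
              gcongr
          _ ≤ 1 + κ := by linarith
  calc ‖∑ s : Finset (Fin p), g (s.piecewise m (fun i => c i • b))‖
      ≤ ∑ s : Finset (Fin p), ‖g (s.piecewise m (fun i => c i • b))‖ := norm_sum_le _ _
    _ ≤ ∑ _s : Finset (Fin p), M * (1 + κ) := Finset.sum_le_sum fun s _ => hterm s
    _ = 2 ^ p * (M * (1 + κ)) := by
        rw [Finset.sum_const, Finset.card_univ, Fintype.card_finset, Fintype.card_fin]
        simp

lemma norm_e (k : Fin 4) : ‖e k‖ ≤ 1 := by
  fin_cases k <;> simp [e, Prod.norm_def]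

/-- the vectors `Lz X e` have the rank-one structure -/
lemma Lz_struct {t : ℝ} {z ζ : ℂ × ℂ} (k : Fin 4) :
    Lz (t, ζ, z) (e k) = (1 - t) • e k + (t * dth z (e k)) • ((Complex.I * nu z) • ζ) :=
  Lz_apply _ _

lemma coef_bound {t : ℝ} (ht : 0 ≤ t) (z : ℂ × ℂ) (k : Fin 4) :
    |t * dth z (e k)| ≤ t * ‖z.2‖⁻¹ := by
  rw [abs_mul, abs_of_nonneg ht]
  gcongr
  rw [dth_apply]
  refine (Complex.abs_im_le_norm _).trans ?_
  rw [norm_mul, norm_inv]
  have : ‖(e k).2‖ ≤ 1 := (le_max_right _ _).trans (norm_e k)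
  calc ‖z.2‖⁻¹ * ‖(e k).2‖ ≤ ‖z.2‖⁻¹ * 1 := by gcongr
    _ = _ := mul_one _

lemma base_bound {t : ℝ} (ht : 0 ≤ t) (ht1 : t ≤ 1) (k : Fin 4) :
    ‖((1 - t) • e k : ℂ × ℂ)‖ ≤ 1 := by
  rw [norm_smul, Real.norm_of_nonneg (by linarith)]
  have := norm_e k
  have := norm_nonneg (e k)
  nlinarith

lemma dir_bound {z ζ : ℂ × ℂ} (hz : z ∈ hartogs) (hζ : ζ ∈ ballB) :
    ‖((Complex.I * nu z) • ζ : ℂ × ℂ)‖ ≤ 1 := by
  rw [norm_smul, norm_mul, Complex.norm_I, norm_nu (snd_ne_zero hz), one_mul, one_mul]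
  have := ballB_norm hζ
  linarith

/-- comparison of the Euclidean norm with coordinates -/
lemma exists_toLp_bound (q : ℕ) : ∃ C : ℝ, 0 ≤ C ∧ ∀ (f : Idx q → ℂ) (r : ℝ), 0 ≤ r →
    (∀ I, ‖f I‖ ≤ r) → ‖(WithLp.toLp 2 f : Form q)‖ ≤ C * r := by
  refine ⟨Real.sqrt (Fintype.card (Idx q)), Real.sqrt_nonneg _, fun f r hr h => ?_⟩
  rw [EuclideanSpace.norm_eq]
  have h1 : ∑ I, ‖(WithLp.toLp 2 f : Form q) I‖ ^ 2 ≤ Fintype.card (Idx q) * r ^ 2 := by
    calc ∑ I, ‖(WithLp.toLp 2 f : Form q) I‖ ^ 2 ≤ ∑ _I : Idx q, r ^ 2 := by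
          refine Finset.sum_le_sum fun I _ => ?_
          have := h I
          gcongr
      _ = _ := by simp
  calc Real.sqrt (∑ I, ‖(WithLp.toLp 2 f : Form q) I‖ ^ 2)
      ≤ Real.sqrt (Fintype.card (Idx q) * r ^ 2) := Real.sqrt_le_sqrt h1
    _ = _ := by rw [Real.sqrt_mul (by positivity), Real.sqrt_sq hr]

end Pool.Agent.helper28.Hartogs
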