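import Pool.Agent.helper28.Hartogs.Ops

open MeasureTheory Module Set
open scoped ENNReal NNReal

namespace Pool.Agent.helper28.Hartogs

lemma one_add_sq_le (a : ℝ≥0∞) : (1 + a) ^ 2 ≤ 4 * (1 + a ^ 2) := by
  rcases le_total a 1 with h | h
  · calc (1 + a) ^ 2 ≤ (1 + 1) ^ 2 := by gcongr
      _ = 4 * 1 := by norm_num
      _ ≤ 4 * (1 + a ^ 2) := by gcongr; exact le_self_add
  · calc (1 + a) ^ 2 ≤ (a + a) ^ 2 := by gcongr
      _ = 4 * a ^ 2 := by ring
      _ ≤ 4 * (1 + a ^ 2) := by gcongr; exact le_add_self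

lemma lintegral_inv_sq_lt_top : ∫⁻ z, (‖z.2‖ₑ⁻¹) ^ 2 ∂volT < ∞ := by
  have h1 : ∫⁻ z, (‖z.2‖ₑ⁻¹) ^ 2 ∂volT =
      ∫⁻ z, ({z : ℂ × ℂ | z.2 ∈ Metric.ball (0 : ℂ) 1}.indicator (fun z => (‖z.2‖ₑ⁻¹) ^ 2) z)
        ∂volT := by
    refine lintegral_congr_ae ?_
    filter_upwards [ae_restrict_mem (μ := volume) measurableSet_hartogs] with z hz
    rw [indicator_of_mem]
    simpa using hz.2
  rw [h1]
  refine (lintegral_weight Metric.isOpen_ball.measurableSet).trans_lt ?_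
  exact ENNReal.mul_lt_top ENNReal.coe_lt_top measure_ball_lt_top

/-- the square-integrable weight -/
noncomputable def cw (C : ℝ≥0) (z : ℂ × ℂ) : ℝ≥0∞ := C * (1 + ‖z.2‖ₑ⁻¹)

lemma measurable_cw (C : ℝ≥0) : Measurable (cw C) := by unfold cw; fun_prop

lemma lintegral_cw_lt_top (C : ℝ≥0) : ∫⁻ z, cw C z ^ 2 ∂volT < ∞ := by
  have h1 : ∫⁻ z, cw C z ^ 2 ∂volT ≤ ∫⁻ z, C ^ 2 * (4 * (1 + (‖z.2‖ₑ⁻¹) ^ 2)) ∂volT := by
    refine lintegral_mono fun z => ?_
    rw [cw, mul_pow]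
    gcongr
    exact one_add_sq_le _
  refine h1.trans_lt ?_
  rw [lintegral_const_mul _ (by fun_prop), lintegral_const_mul _ (by fun_prop),
    lintegral_add_left measurable_const, lintegral_const]
  refine ENNReal.mul_lt_top (ENNReal.pow_lt_top ENNReal.coe_lt_top)
    (ENNReal.mul_lt_top (by norm_num) (ENNReal.add_lt_top.mpr ⟨?_, lintegral_inv_sq_lt_top⟩))
  rw [one_mul]
  exact measure_lt_top volT _

/-- parameter measures -/
noncomputable def par (τ : Measure ℝ) : Measure (ℝ × (ℂ × ℂ)) := τ.prod kap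

section

variable {q r : ℕ} {K : Ker (ℝ × (ℂ × ℂ)) (ℂ × ℂ) (Form q) (Form r)} {C : ℝ≥0}

/-- pointwise bound when `t` stays away from zero -/
lemma pointwise_of_away (hphi : K.phi = fun y => Psi (toX y)) (hm : K.m = wgt C)
    {τ : Measure ℝ} [IsFiniteMeasure τ] {a : ℝ} (ha : 0 < a)
    (hτ : ∀ᵐ t ∂τ, a ≤ t ∧ t ≤ 1) :
    Ker.Pointwise K (par τ) volT
      (fun z => (τ univ * ((volume ballB)⁻¹ * ENNReal.ofReal (a ^ 4)⁻¹)) * cw C z) := by
  filter_upwards [ae_restrict_mem (μ := volume) measurableSet_hartogs] with z hz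
  intro g hg
  have hmeas : Measurable fun θ : ℝ × (ℂ × ℂ) => K.m (z, θ) * g (K.phi (z, θ)) :=
    (K.meas_m.comp measurable_prodMk_left).mul (hg.comp (K.meas_phi.comp measurable_prodMk_left))
  rw [par, lintegral_prod _ hmeas.aemeasurable]
  calc ∫⁻ t, ∫⁻ ζ, K.m (z, (t, ζ)) * g (K.phi (z, (t, ζ))) ∂kap ∂τ
      ≤ ∫⁻ _t, cw C z * ((volume ballB)⁻¹ * (ENNReal.ofReal (a ^ 4)⁻¹ * ∫⁻ x, g x ∂volT)) ∂τ := by
        refine lintegral_mono_ae ?_
        filter_upwards [hτ] with t ht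
        have ht0 : 0 < t := ha.trans_le ht.1
        rw [hphi, hm]
        simp only [wgt, toX]
        have hmg : Measurable fun ζ : ℂ × ℂ => g (Psi (t, ζ, z)) :=
          hg.comp (measurable_Psi.comp (by fun_prop))
        rw [lintegral_const_mul _ hmg]
        gcongr
        · rw [cw]
          gcongr
          calc ENNReal.ofReal t * ‖z.2‖ₑ⁻¹ ≤ 1 * ‖z.2‖ₑ⁻¹ := by
                gcongr
                rw [← ENNReal.ofReal_one]
                exact ENNReal.ofReal_le_ofReal ht.2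
            _ = _ := one_mul _
        · refine (lintegral_kap_le hz ht0 ht.2 hg).trans ?_
          gcongr
          · exact ht.1
          · exact indicator_le_self _ _ _
    _ = _ := by
        rw [lintegral_const]
        ring

/-- Schur bound when `t` stays away from zero -/
lemma schur_of_away (hphi : K.phi = fun y => Psi (toX y)) (hm : K.m = wgt C)
    {τ : Measure ℝ} [IsFiniteMeasure τ] {a : ℝ} (ha : 0 < a)
    (hτ : ∀ᵐ t ∂τ, a ≤ t ∧ t ≤ 1) : ∃ C' : ℝ≥0, K.Schur volT (par τ) C' := by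
  set B : ℝ≥0∞ := τ univ * ((volume ballB)⁻¹ * ENNReal.ofReal (a ^ 4)⁻¹) with hB
  have hBt : B < ∞ := ENNReal.mul_lt_top (measure_lt_top τ _)
    (ENNReal.mul_lt_top (ENNReal.inv_lt_top.mpr vol_ballB_pos) ENNReal.ofReal_lt_top)
  have hfin : B * ∫⁻ z, cw C z ^ 2 ∂volT < ∞ := ENNReal.mul_lt_top hBt (lintegral_cw_lt_top C)
  refine ⟨(B * ∫⁻ z, cw C z ^ 2 ∂volT).toNNReal, fun g hg => ?_⟩
  rw [ENNReal.coe_toNNReal hfin.ne]
  have hmy : Measurable fun y => K.m y ^ 2 * g (K.phi y) :=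
    (K.meas_m.pow_const 2).mul (hg.comp K.meas_phi)
  haveI : IsFiniteMeasure (par τ) := by unfold par; infer_instance
  rw [lintegral_prod _ hmy.aemeasurable]
  have hpw := pointwise_of_away (K := K) hphi hm ha hτ
  have hae : ∀ᵐ θ ∂(par τ), a ≤ θ.1 ∧ θ.1 ≤ 1 := by
    have h1 : Measure.QuasiMeasurePreserving (Prod.fst : ℝ × (ℂ × ℂ) → ℝ) (par τ) τ :=
      Measure.quasiMeasurePreserving_fst
    exact h1.ae hτ
  calc ∫⁻ z, ∫⁻ θ, K.m (z, θ) ^ 2 * g (K.phi (z, θ)) ∂(par τ) ∂volT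
      ≤ ∫⁻ z, cw C z * ((B * cw C z) * ∫⁻ x, g x ∂volT) ∂volT := by
        refine lintegral_mono_ae ?_
        filter_upwards [hpw] with z hz
        have h1 := hz g hg
        have hm2 : Measurable fun θ : ℝ × (ℂ × ℂ) => K.m (z, θ) * g (K.phi (z, θ)) :=
          (K.meas_m.comp measurable_prodMk_left).mul
            (hg.comp (K.meas_phi.comp measurable_prodMk_left))
        calc ∫⁻ θ, K.m (z, θ) ^ 2 * g (K.phi (z, θ)) ∂(par τ)
            ≤ ∫⁻ θ, cw C z * (K.m (z, θ) * g (K.phi (z, θ))) ∂(par τ) := by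
              refine lintegral_mono_ae ?_
              filter_upwards [hae] with θ hθ
              rw [sq, mul_assoc]
              gcongr
              rw [hm, cw, wgt]
              gcongr
              calc ENNReal.ofReal θ.1 * ‖z.2‖ₑ⁻¹ ≤ 1 * ‖z.2‖ₑ⁻¹ := by
                    gcongr
                    rw [← ENNReal.ofReal_one]
                    exact ENNReal.ofReal_le_ofReal hθ.2
                _ = _ := one_mul _
          _ = cw C z * ∫⁻ θ, K.m (z, θ) * g (K.phi (z, θ)) ∂(par τ) :=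
              lintegral_const_mul _ hm2
          _ ≤ _ := by gcongr
    _ = ∫⁻ z, (B * ∫⁻ x, g x ∂volT) * cw C z ^ 2 ∂volT := by
        refine lintegral_congr fun z => ?_
        ring
    _ = _ := by
        rw [lintegral_const_mul _ ((measurable_cw C).pow_const 2)]
        ring

end

end Pool.Agent.helper28.Hartogs
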