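import Pool.Agent.helper28.Hartogs.Schur

open MeasureTheory Module Set
open scoped ENNReal NNReal

namespace Pool.Agent.helper28.Hartogs

/-- weight as a function of `t` and `z` -/
noncomputable def wt (C : ℝ≥0) (t : ℝ) (z : ℂ × ℂ) : ℝ≥0∞ :=
  C * (1 + ENNReal.ofReal t * ‖z.2‖ₑ⁻¹)

/-- indicator of `|y - z| ≤ 2 t` -/
noncomputable def near (t : ℝ) (z y : ℂ × ℂ) : ℝ≥0∞ :=
  {p : ℝ × (ℂ × ℂ) × (ℂ × ℂ) | dist p.2.2 p.2.1 ≤ 2 * p.1}.indicator 1 (t, z, y)

lemma measurable_near : Measurable fun p : ℝ × (ℂ × ℂ) × (ℂ × ℂ) => near p.1 p.2.1 p.2.2 := by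
  unfold near
  exact measurable_one.indicator (measurableSet_le (by fun_prop) (by fun_prop))

lemma near_mul (t : ℝ) (z y : ℂ × ℂ) (g : ℂ × ℂ → ℝ≥0∞) :
    (Metric.closedBall z (2 * t)).indicator g y = near t z y * g y := by
  unfold near
  by_cases h : dist y z ≤ 2 * t
  · rw [indicator_of_mem (by exact h), indicator_of_mem (by exact h)]; simp
  · rw [indicator_of_notMem (by exact h), indicator_of_notMem (by exact h)]; simp

lemma near_eq (t : ℝ) (z y : ℂ × ℂ) :
    near t z y = (Metric.closedBall y (2 * t)).indicator 1 z := by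
  unfold near
  by_cases h : dist z y ≤ 2 * t
  · rw [indicator_of_mem (by simpa [dist_comm] using h), indicator_of_mem (by exact h)]; simp
  · rw [indicator_of_notMem (by simpa [dist_comm] using h), indicator_of_notMem (by exact h)]

lemma near_le (t : ℝ) (z y : ℂ × ℂ) :
    near t z y ≤ {z : ℂ × ℂ | z.2 ∈ Metric.closedBall y.2 (2 * t)}.indicator 1 z := by
  rw [near_eq]
  refine indicator_le_indicator_of_subset ?_ (fun _ => bot_le) z
  intro z hz
  rw [Metric.mem_closedBall] at hz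
  refine le_trans ?_ hz
  rw [Prod.dist_eq]
  exact le_max_right _ _

/-- the constant in the Schur bound -/
noncomputable def C0 (C : ℝ≥0) : ℝ≥0∞ :=
  (C : ℝ≥0∞) ^ 2 * (4 * (16 * volume (Metric.ball (0 : ℂ × ℂ) 1) + 4 * (NNReal.pi * NNReal.pi)))

lemma C0_lt_top (C : ℝ≥0) : C0 C < ∞ := by
  unfold C0
  refine ENNReal.mul_lt_top (ENNReal.pow_lt_top ENNReal.coe_lt_top)
    (ENNReal.mul_lt_top (by norm_num) (ENNReal.add_lt_top.mpr ⟨?_, ?_⟩))
  · exact ENNReal.mul_lt_top (by norm_num) measure_ball_lt_top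
  · exact ENNReal.mul_lt_top (by norm_num) (ENNReal.mul_lt_top ENNReal.coe_lt_top ENNReal.coe_lt_top)

lemma lintegral_wt_near (C : ℝ≥0) {t : ℝ} (ht : 0 < t) (y : ℂ × ℂ) :
    ∫⁻ z, wt C t z ^ 2 * near t z y ∂volT ≤ C0 C * ENNReal.ofReal (t ^ 4) := by
  have hT : ENNReal.ofReal (t ^ 4) = ENNReal.ofReal t ^ 4 := ENNReal.ofReal_pow ht.le 4
  have hb : ∀ z : ℂ × ℂ, wt C t z ^ 2 * near t z y ≤
      C ^ 2 * (4 * (near t z y + ENNReal.ofReal t ^ 2 *
        ({z : ℂ × ℂ | z.2 ∈ Metric.closedBall y.2 (2 * t)}.indicator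
          (fun z => (‖z.2‖ₑ⁻¹) ^ 2) z))) := by
    intro z
    rw [wt, mul_pow, mul_assoc]
    refine mul_le_mul_right ?_ _
    calc (1 + ENNReal.ofReal t * ‖z.2‖ₑ⁻¹) ^ 2 * near t z y
        ≤ (4 * (1 + (ENNReal.ofReal t * ‖z.2‖ₑ⁻¹) ^ 2)) * near t z y := by
          gcongr; exact one_add_sq_le _
      _ = 4 * (near t z y + ENNReal.ofReal t ^ 2 * ((‖z.2‖ₑ⁻¹) ^ 2 * near t z y)) := by ring
      _ ≤ _ := by
          refine mul_le_mul_right (add_le_add le_rfl (mul_le_mul_right ?_ _)) _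
          refine (mul_le_mul_right (near_le t z y) _).trans ?_
          by_cases hz : z ∈ {z : ℂ × ℂ | z.2 ∈ Metric.closedBall y.2 (2 * t)}
          · rw [indicator_of_mem hz, indicator_of_mem hz]; simp
          · rw [indicator_of_notMem hz, indicator_of_notMem hz]; simp
  have hmD : MeasurableSet {z : ℂ × ℂ | z.2 ∈ Metric.closedBall y.2 (2 * t)} :=
    measurable_snd Metric.isClosed_closedBall.measurableSet
  have hm1 : Measurable fun z : ℂ × ℂ => near t z y :=
    measurable_near.comp (by fun_prop : Measurable fun z : ℂ × ℂ => (t, z, y))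
  have hm2 : Measurable ({z : ℂ × ℂ | z.2 ∈ Metric.closedBall y.2 (2 * t)}.indicator
          (fun z : ℂ × ℂ => (‖z.2‖ₑ⁻¹) ^ 2)) := Measurable.indicator (by fun_prop) hmD
  refine (lintegral_mono hb).trans ?_
  rw [lintegral_const_mul _ (by fun_prop), lintegral_const_mul _ (by fun_prop),
    lintegral_add_left hm1, lintegral_const_mul _ hm2]
  have i1 : ∫⁻ z, near t z y ∂volT ≤
      ENNReal.ofReal t ^ 4 * (16 * volume (Metric.ball (0 : ℂ × ℂ) 1)) := by
    calc ∫⁻ z, near t z y ∂volT ≤ ∫⁻ z, near t z y :=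
          lintegral_mono' Measure.restrict_le_self le_rfl
      _ = volume (Metric.closedBall y (2 * t)) := by
          simp only [near_eq]
          exact lintegral_indicator_one Metric.isClosed_closedBall.measurableSet
      _ = _ := by
          rw [Measure.addHaar_closedBall _ _ (by positivity)]
          have h3 : finrank ℝ (ℂ × ℂ) = 4 := by simp
          rw [h3, ENNReal.ofReal_pow (by positivity), ENNReal.ofReal_mul (by norm_num)]
          rw [mul_pow]
          have : ENNReal.ofReal 2 = 2 := by simp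
          rw [this]
          ring
  have i2 : ∫⁻ z, ({z : ℂ × ℂ | z.2 ∈ Metric.closedBall y.2 (2 * t)}.indicator
          (fun z => (‖z.2‖ₑ⁻¹) ^ 2) z) ∂volT ≤
      ENNReal.ofReal t ^ 2 * (4 * (NNReal.pi * NNReal.pi)) := by
    refine (lintegral_weight Metric.isClosed_closedBall.measurableSet).trans (le_of_eq ?_)
    rw [Complex.volume_closedBall, ENNReal.ofReal_mul (by norm_num)]
    have : ENNReal.ofReal 2 = 2 := by simp
    rw [this]
    ring
  calc (C : ℝ≥0∞) ^ 2 * (4 * (∫⁻ z, near t z y ∂volT + ENNReal.ofReal t ^ 2 *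
        ∫⁻ z, ({z : ℂ × ℂ | z.2 ∈ Metric.closedBall y.2 (2 * t)}.indicator
          (fun z => (‖z.2‖ₑ⁻¹) ^ 2) z) ∂volT))
      ≤ (C : ℝ≥0∞) ^ 2 * (4 * (ENNReal.ofReal t ^ 4 * (16 * volume (Metric.ball (0 : ℂ × ℂ) 1)) +
          ENNReal.ofReal t ^ 2 * (ENNReal.ofReal t ^ 2 * (4 * (NNReal.pi * NNReal.pi))))) := by
        gcongr
    _ = _ := by
        rw [hT, C0]
        ring

variable {q r : ℕ} {K : Ker (ℝ × (ℂ × ℂ)) (ℂ × ℂ) (Form q) (Form r)} {C : ℝ≥0}

lemma lintegral_swap3 {τ : Measure ℝ} [SFinite τ]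
    {F : ℝ → ℂ × ℂ → ℂ × ℂ → ℝ≥0∞} (hF : Measurable fun p : ℝ × (ℂ × ℂ) × (ℂ × ℂ) =>
      F p.1 p.2.1 p.2.2) :
    ∫⁻ z, ∫⁻ t, ∫⁻ y, F t z y ∂volT ∂τ ∂volT = ∫⁻ t, ∫⁻ y, ∫⁻ z, F t z y ∂volT ∂volT ∂τ := by
  have h1 : Measurable fun p : (ℂ × ℂ) × ℝ => ∫⁻ y, F p.2 p.1 y ∂volT := by
    have : Measurable fun p : ((ℂ × ℂ) × ℝ) × (ℂ × ℂ) => F p.1.2 p.1.1 p.2 :=
      hF.comp (by fun_prop : Measurable fun p : ((ℂ × ℂ) × ℝ) × (ℂ × ℂ) => (p.1.2, p.1.1, p.2))
    exact this.lintegral_prod_right'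
  rw [lintegral_lintegral_swap h1.aemeasurable]
  refine lintegral_congr fun t => ?_
  rw [lintegral_lintegral_swap]
  have : Measurable fun p : (ℂ × ℂ) × (ℂ × ℂ) => F t p.1 p.2 :=
    hF.comp (by fun_prop : Measurable fun p : (ℂ × ℂ) × (ℂ × ℂ) => (t, p.1, p.2))
  exact this.aemeasurable

lemma schur_full (hphi : K.phi = fun y => Psi (toX y)) (hm : K.m = wgt C) :
    ∃ C' : ℝ≥0, K.Schur volT (par (volume.restrict (Ioc 0 1))) C' := by
  have hfin : (volume ballB)⁻¹ * C0 C < ∞ :=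
    ENNReal.mul_lt_top (ENNReal.inv_lt_top.mpr vol_ballB_pos) (C0_lt_top C)
  refine ⟨((volume ballB)⁻¹ * C0 C).toNNReal, fun g hg => ?_⟩
  rw [ENNReal.coe_toNNReal hfin.ne]
  set τ : Measure ℝ := volume.restrict (Ioc 0 1) with hτ
  have hmy : Measurable fun y => K.m y ^ 2 * g (K.phi y) :=
    (K.meas_m.pow_const 2).mul (hg.comp K.meas_phi)
  have : IsFiniteMeasure (par τ) := by unfold par; infer_instance
  rw [lintegral_prod _ hmy.aemeasurable]
  have hF : Measurable fun p : ℝ × (ℂ × ℂ) × (ℂ × ℂ) =>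
      ((volume ballB)⁻¹ * ENNReal.ofReal (p.1 ^ 4)⁻¹) *
        (wt C p.1 p.2.1 ^ 2 * near p.1 p.2.1 p.2.2 * g p.2.2) := by
    have h1 := measurable_near
    have h2 : Measurable fun p : ℝ × (ℂ × ℂ) × (ℂ × ℂ) => wt C p.1 p.2.1 := by
      unfold wt; fun_prop
    fun_prop
  calc ∫⁻ z, ∫⁻ θ, K.m (z, θ) ^ 2 * g (K.phi (z, θ)) ∂(par τ) ∂volT
      ≤ ∫⁻ z, ∫⁻ t, ∫⁻ y, ((volume ballB)⁻¹ * ENNReal.ofReal (t ^ 4)⁻¹) *
        (wt C t z ^ 2 * near t z y * g y) ∂volT ∂τ ∂volT := by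
        refine lintegral_mono_ae ?_
        filter_upwards [ae_restrict_mem (μ := volume) measurableSet_hartogs] with z hz
        have hm2 : Measurable fun θ : ℝ × (ℂ × ℂ) => K.m (z, θ) ^ 2 * g (K.phi (z, θ)) :=
          hmy.comp measurable_prodMk_left
        rw [par, lintegral_prod _ hm2.aemeasurable]
        refine lintegral_mono_ae ?_
        filter_upwards [ae_restrict_mem (μ := volume) measurableSet_Ioc] with t ht
        rw [hphi, hm]
        simp only [wgt, toX]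
        have hmg : Measurable fun ζ : ℂ × ℂ => g (Psi (t, ζ, z)) :=
          hg.comp (measurable_Psi.comp (by fun_prop))
        rw [lintegral_const_mul _ hmg]
        have hnm : Measurable fun y : ℂ × ℂ => near t z y :=
          measurable_near.comp (by fun_prop : Measurable fun y : ℂ × ℂ => (t, z, y))
        have e1 : ∫⁻ y, ((volume ballB)⁻¹ * ENNReal.ofReal (t ^ 4)⁻¹) *
            (wt C t z ^ 2 * near t z y * g y) ∂volT =
            wt C t z ^ 2 * ((volume ballB)⁻¹ * (ENNReal.ofReal (t ^ 4)⁻¹ *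
              ∫⁻ y, near t z y * g y ∂volT)) := by
          rw [lintegral_const_mul _ (by fun_prop)]
          have : ∀ y, wt C t z ^ 2 * near t z y * g y = wt C t z ^ 2 * (near t z y * g y) :=
            fun y => mul_assoc _ _ _
          simp only [this]
          rw [lintegral_const_mul _ (by fun_prop)]
          ring
        rw [e1]
        gcongr
        · rw [wt]
        · have h2 := lintegral_kap_le hz ht.1 ht.2 hg
          simp only [near_mul] at h2
          exact h2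
    _ = ∫⁻ t, ∫⁻ y, ∫⁻ z, ((volume ballB)⁻¹ * ENNReal.ofReal (t ^ 4)⁻¹) *
        (wt C t z ^ 2 * near t z y * g y) ∂volT ∂volT ∂τ := lintegral_swap3 hF
    _ ≤ ∫⁻ _t, ((volume ballB)⁻¹ * C0 C) * ∫⁻ y, g y ∂volT ∂τ := by
        refine lintegral_mono_ae ?_
        filter_upwards [ae_restrict_mem (μ := volume) measurableSet_Ioc] with t ht
        rw [← lintegral_const_mul _ hg]
        refine lintegral_mono fun y => ?_
        have hnm : Measurable fun z : ℂ × ℂ => near t z y :=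
          measurable_near.comp (by fun_prop : Measurable fun z : ℂ × ℂ => (t, z, y))
        have hwm : Measurable fun z : ℂ × ℂ => wt C t z := by unfold wt; fun_prop
        rw [lintegral_const_mul _ (by fun_prop), lintegral_mul_const _ (by fun_prop)]
        calc (volume ballB)⁻¹ * ENNReal.ofReal (t ^ 4)⁻¹ *
            ((∫⁻ z, wt C t z ^ 2 * near t z y ∂volT) * g y)
            ≤ (volume ballB)⁻¹ * ENNReal.ofReal (t ^ 4)⁻¹ *
              ((C0 C * ENNReal.ofReal (t ^ 4)) * g y) := by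
              gcongr
              exact lintegral_wt_near C ht.1 y
          _ = (volume ballB)⁻¹ * C0 C * (ENNReal.ofReal (t ^ 4)⁻¹ * ENNReal.ofReal (t ^ 4)) *
              g y := by ring
          _ = _ := by
              have h4 : (0 : ℝ) < t ^ 4 := pow_pos ht.1 4
              rw [← ENNReal.ofReal_mul (by positivity), inv_mul_cancel₀ h4.ne',
                ENNReal.ofReal_one, mul_one]
    _ = (volume ballB)⁻¹ * C0 C * ∫⁻ x, g x ∂volT := by
        rw [lintegral_const, hτ, Measure.restrict_apply_univ, Real.volume_Ioc]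
        simp

end Pool.Agent.helper28.Hartogs
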