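import Mathlib

open Filter Topology Module
open scoped InnerProductSpace

namespace Pool.Agent.helper28.Hartogs

section graphs

/-- Operators between Hilbert spaces are given by their graphs. -/
abbrev Gr (H K : Type*) [NormedAddCommGroup H] [InnerProductSpace ℂ H] [NormedAddCommGroup K]
    [InnerProductSpace ℂ K] : Type _ := Submodule ℂ (H × K)

variable {H K : Type*} [NormedAddCommGroup H] [InnerProductSpace ℂ H] [NormedAddCommGroup K]
  [InnerProductSpace ℂ K]

/-- The linear relation given by a predicate `P` on pairs, closed under the linear operations. -/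
def graphOf (P : H → K → Prop) (h0 : P 0 0)
    (hadd : ∀ a b a' b', P a b → P a' b' → P (a + a') (b + b'))
    (hsmul : ∀ (c : ℂ) a b, P a b → P (c • a) (c • b)) : Gr H K where
  carrier := {p | P p.1 p.2}
  add_mem' ha hb := hadd _ _ _ _ ha hb
  zero_mem' := h0
  smul_mem' c _ ha := hsmul c _ _ ha

end graphs

section spectrum

variable {H : Type*} [NormedAddCommGroup H] [InnerProductSpace ℂ H]

/-- `lam` is in the resolvent set of the operator with graph `G`: the equation
`(G - lam) x = y` has for every `y` a unique solution `x`, given by a bounded operator. -/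
def InResolventSet (G : Gr H H) (lam : ℂ) : Prop :=
  ∃ R : H →L[ℂ] H, ∀ x y : H, (x, y + lam • x) ∈ G ↔ x = R y

/-- The spectrum of the operator with graph `G`. -/
def spectrumOf (G : Gr H H) : Set ℂ := {lam | ¬ InResolventSet G lam}

/-- The eigenspace `{x : G x = lam x}` of the operator with graph `G`. -/
def eigenspaceOf (G : Gr H H) (lam : ℂ) : Submodule ℂ H where
  carrier := {x | (x, lam • x) ∈ G}
  add_mem' := by
    intro a b ha hb
    have := G.add_mem ha hb
    simpa [smul_add] using this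
  zero_mem' := by
    change ((0 : H), lam • (0 : H)) ∈ G
    rw [smul_zero]
    exact G.zero_mem
  smul_mem' := by
    intro c x hx
    have := G.smul_mem c hx
    simpa [smul_comm c lam x] using this

/-- The operator with graph `G` has discrete spectrum: its spectrum consists of isolated
eigenvalues of finite multiplicity. -/
def HasDiscreteSpectrum (G : Gr H H) : Prop :=
  ∀ lam ∈ spectrumOf G,
    (∃ ε > 0, ∀ mu ∈ spectrumOf G, ‖mu - lam‖ < ε → mu = lam) ∧
    eigenspaceOf G lam ≠ ⊥ ∧ FiniteDimensional ℂ (eigenspaceOf G lam)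

end spectrum

section laplacian

variable {H₀ H₁ H₂ : Type*}
  [NormedAddCommGroup H₀] [InnerProductSpace ℂ H₀]
  [NormedAddCommGroup H₁] [InnerProductSpace ℂ H₁]
  [NormedAddCommGroup H₂] [InnerProductSpace ℂ H₂]

/-- `u` is in the domain of `A A* + B* B` and `w = A A* u + B* B u`: there are `f = A* u` with
`f ∈ Dom A` and `g = B u` with `g ∈ Dom B*` such that `w = A f + B* g`. -/
def IsLap (A : Gr H₀ H₁) (B : Gr H₁ H₂) (u w : H₁) : Prop :=
  ∃ (f : H₀) (g : H₂) (y₁ y₂ : H₁), (u, f) ∈ A.adjoint ∧ (f, y₁) ∈ A ∧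
    (u, g) ∈ B ∧ (g, y₂) ∈ B.adjoint ∧ w = y₁ + y₂

/-- The graph of `A A* + B* B` with its natural domain, where the operators `A : H₀ ⇀ H₁` and
`B : H₁ ⇀ H₂` are given by their graphs. -/
def laplacianOf (A : Gr H₀ H₁) (B : Gr H₁ H₂) : Gr H₁ H₁ :=
  graphOf (IsLap A B)
    ⟨0, 0, 0, 0, A.adjoint.zero_mem, A.zero_mem, B.zero_mem, B.adjoint.zero_mem, by simp⟩
    (by
      rintro a a' b b' ⟨f, g, y₁, y₂, h1, h2, h3, h4, h5⟩ ⟨f', g', y₁', y₂', h1', h2', h3', h4', h5'⟩
      refine ⟨f + f', g + g', y₁ + y₁', y₂ + y₂', A.adjoint.add_mem h1 h1', A.add_mem h2 h2',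
        B.add_mem h3 h3', B.adjoint.add_mem h4 h4', ?_⟩
      rw [h5, h5']; abel)
    (by
      rintro c a a' ⟨f, g, y₁, y₂, h1, h2, h3, h4, h5⟩
      refine ⟨c • f, c • g, c • y₁, c • y₂, A.adjoint.smul_mem c h1, A.smul_mem c h2,
        B.smul_mem c h3, B.adjoint.smul_mem c h4, ?_⟩
      rw [h5, smul_add])

end laplacian

end Pool.Agent.helper28.Hartogs
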